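import Pool.Agent.H771R3.TH.Stmts

set_option autoImplicit false

namespace Pool.Agent.H771R3.TH

open Polynomial Filter Topology

theorem map_map_C_eval {K : Type*} [CommRing K] (P : Par K) (v : K) :
    (P.map (C : K →+* K[X])).map (evalRingHom v) = P := by
  cases P; simp [Par.map]

theorem continuous_G (hNat : TaskNat) (P : Par ℝ) : Continuous (fun v => G P v) := by
  have h : (fun v => G P v) = fun v => (G (P.map C) (X : ℝ[X])).eval v := by
    funext v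
    have := hNat ℝ[X] ℝ (evalRingHom v) (P.map C) X
    rw [map_map_C_eval] at this
    simpa using this
  rw [h]
  exact Polynomial.continuous _

theorem G_PC (hNat : TaskNat) (P : Par ℝ) (v : ℝ) : G (PC P) (v : ℂ) = ((G P v : ℝ) : ℂ) :=
  hNat ℝ ℂ (algebraMap ℝ ℂ) P v

theorem exists_zero (hNat : TaskNat) (hLead : TaskLead) (hProd : TaskProd) (hProd1 : TaskProd1)
    (hE : TaskE) (hSigma : TaskSigma) (hRoot : TaskRoot) (hBr1 : TaskBr1) (hBr0a : TaskBr0a)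
    (hBr0b : TaskBr0b) (hLim : TaskLim) (hNV0 : TaskNV0) (hL0 : TaskL0) (hNV1 : TaskNV1)
    (hG2 : TaskG2) (hTr : TaskTr) (hRes1 : TaskRes1) (hNV1R : TaskNV1R) (hContR : TaskContR)
    (hL1 : TaskL1) (hIVT : TaskIVT) (hLC : TaskLC)
    (P : Par ℝ) (hG : Gen P) (hpos : Pos P) :
    ∃ v : ℝ, v ≠ 0 ∧ v ≠ -1 ∧ P.l * v + P.m2 ≠ 0 ∧ G P v = 0 ∧
      (M5p P v).coeff 4 ≠ 0 ∧ (M7p P v).coeff 4 ≠ 0 := by
  obtain ⟨hl, ha5, ha6, ha7, hm2, hm3, hm4⟩ := hpos
  have hne : P.l ≠ P.m2 := (hNV1 P hG).2.2.2.2.2.2.2.2.2.2.2.1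
  obtain ⟨v, hv0, hv1, hvm, hGv⟩ := hIVT (fun v => G P v) P.l P.m2 (continuous_G hNat P) hl hm2 hne
    (fun f hf => hE hProd hNat hLead P ⟨hl, ha5, ha6, ha7, hm2, hm3, hm4⟩ f hf
      (((hLC hLead P hG).1 f hf).1) (((hLC hLead P hG).1 f hf).2))
    (fun v hv => hSigma P hl.ne' hm2.ne' hm3.ne' hm4.ne' v hv)
    (hL0 hRoot hBr0a hBr0b hLim hNV0 hProd hLead P hG)
    (hL1 hRoot hBr1 hLim hNV1 hG2 hTr hRes1 hNV1R hContR hProd1 hLead P hG)
  rcases (hLC hLead P hG).2 v hv0 hv1 hvm with h | h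
  · exact ⟨v, hv0, hv1, hvm, hGv, h.1, h.2⟩
  · refine ⟨P.m2 / (P.l * v), ?_, ?_, ?_, ?_, h.1, h.2⟩
    · exact div_ne_zero hm2.ne' (mul_ne_zero hl.ne' hv0)
    · intro h1
      rw [div_eq_iff (mul_ne_zero hl.ne' hv0)] at h1
      apply hvm
      linarith
    · intro h1
      have h2 : P.l * (P.m2 / (P.l * v)) + P.m2 = P.m2 * (1 + v) / v := by
        field_simp
      rw [h2, div_eq_zero_iff, mul_eq_zero] at h1
      rcases h1 with (h1 | h1) | h1
      · exact hm2.ne' h1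
      · apply hv1; linarith
      · exact hv0 h1
    · have h1 := hSigma P hl.ne' hm2.ne' hm3.ne' hm4.ne' v hv0
      have h2 : G P v = 0 := hGv
      rw [h2, mul_zero] at h1
      rcases mul_eq_zero.mp h1 with h3 | h3
      · exact absurd h3 (mul_ne_zero (pow_ne_zero _ hl.ne') (pow_ne_zero _ hv0))
      · exact h3

theorem exists_sol (hNat : TaskNat) (hLead : TaskLead) (hRes2 : TaskRes2) (hZero : TaskZero)
    (hTr : TaskTr) (hRes1 : TaskRes1)
    (P : Par ℝ) (hG : Gen P) (v : ℝ) (hv0 : v ≠ 0) (hv1 : v ≠ -1) (hvm : P.l * v + P.m2 ≠ 0)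
    (hGv : G P v = 0) (h5 : (M5p P v).coeff 4 ≠ 0) (h7 : (M7p P v).coeff 4 ≠ 0) :
    ∃ x5 x6 x7 z3 z4 : ℂ, Sol (PC P) x5 x6 x7 v z3 z4 := by
  have h5' : (M5p (PC P) (v : ℂ)).coeff 4 ≠ 0 := by
    have e1 := (hLead ℂ (PC P) v).2.2.2.2.2.2.2.2.2.2.1
    have e2 := (hLead ℝ P v).2.2.2.2.2.2.2.2.2.2.1
    rw [e1]
    rw [e2] at h5
    intro h
    apply h5
    apply Complex.ofReal_injective
    simpa [PC, Par.map] using h
  have h7' : (M7p (PC P) (v : ℂ)).coeff 4 ≠ 0 := by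
    have e1 := (hLead ℂ (PC P) v).2.2.2.2.2.2.2.2.2.2.2
    have e2 := (hLead ℝ P v).2.2.2.2.2.2.2.2.2.2.2
    rw [e1]
    rw [e2] at h7
    intro h
    apply h7
    apply Complex.ofReal_injective
    simpa [PC, Par.map] using h
  have hGc : G (PC P) (v : ℂ) = 0 := by rw [G_PC hNat, hGv]; simp
  obtain ⟨z, w, e1, e2, e3⟩ := hRes2 (PC P) v h5' h7' hGc
  obtain ⟨x5, x6, x7, h⟩ := hZero hTr hRes1 P hG v z w (by exact_mod_cast hv0)
    (by intro h; apply hv1; exact_mod_cast h) (by exact_mod_cast hvm) e1 e2 e3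
  exact ⟨x5, x6, x7, z, w, h⟩

theorem par_vec (p : Fin 8 → Fin 2 → ℝ) (e : Fin 13) :
    (![(par p).l, (par p).a5, (par p).a6, (par p).a7, (par p).m2, (par p).m3, (par p).m4,
      (par p).d25, (par p).d27, (par p).d35, (par p).d36, (par p).d46, (par p).d47] :
        Fin 13 → ℝ) e = sq p (ed e).1 (ed e).2 := by
  fin_cases e <;> rfl

theorem parC_vec (p : Fin 8 → Fin 2 → ℝ) (e : Fin 13) :
    (![(PC (par p)).l, (PC (par p)).a5, (PC (par p)).a6, (PC (par p)).a7, (PC (par p)).m2,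
      (PC (par p)).m3, (PC (par p)).m4, (PC (par p)).d25, (PC (par p)).d27, (PC (par p)).d35,
      (PC (par p)).d36, (PC (par p)).d46, (PC (par p)).d47] :
        Fin 13 → ℂ) e = ((sq p (ed e).1 (ed e).2 : ℝ) : ℂ) := by
  fin_cases e <;> rfl

theorem adj_iff (i j : Fin 8) :
    gr.Adj i j ↔ i ≠ j ∧ ((∃ e, ed e = (i, j)) ∨ (∃ e, ed e = (j, i))) := by
  simp [gr, SimpleGraph.fromRel_adj]

theorem ed_adj (e : Fin 13) : gr.Adj (ed e).1 (ed e).2 := by
  rw [adj_iff]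
  refine ⟨?_, Or.inl ⟨e, rfl⟩⟩
  fin_cases e <;> decide

theorem final (hRig : TaskRig) (hStress : TaskStress) (hJac : TaskJac) (hGen : TaskGen)
    (hTr : TaskTr) (hNat : TaskNat) (hLead : TaskLead) (hProd : TaskProd) (hProd1 : TaskProd1)
    (hRes1 : TaskRes1) (hRes2 : TaskRes2) (hSolG : TaskSolG) (hZero : TaskZero) (hNF : TaskNF)
    (hG2 : TaskG2) (hE : TaskE) (hSigma : TaskSigma) (hRoot : TaskRoot) (hBr1 : TaskBr1)
    (hBr0a : TaskBr0a) (hBr0b : TaskBr0b) (hLim : TaskLim) (hNV0 : TaskNV0) (hL0 : TaskL0)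
    (hNV1 : TaskNV1) (hNV1R : TaskNV1R) (hContR : TaskContR) (hL1 : TaskL1) (hIVT : TaskIVT)
    (hLC : TaskLC) (hFin : TaskFin) (hNormA : TaskNormA) (hNormB : TaskNormB) (hTri : TaskTri)
    (hPos : TaskPos) :
    ¬ (∀ (n : ℕ) (G : SimpleGraph (Fin n)),
    (∀ p : Fin n → Fin 2 → ℝ,
      AlgebraicIndependent ℚ (fun x : Fin n × Fin 2 => p x.1 x.2) →
      ∀ u : Fin n → Fin 2 → ℝ,
        (∀ i j, G.Adj i j → ∑ k, (p i k - p j k) * (u i k - u j k) = 0) →
        ∀ i j, ∑ k, (p i k - p j k) * (u i k - u j k) = 0) →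
    ∃ p : Fin n → Fin 2 → ℝ,
      AlgebraicIndependent ℚ (fun x : Fin n × Fin 2 => p x.1 x.2) ∧
      {D : Fin n → Fin n → ℝ | ∃ q : Fin n → Fin 2 → ℝ,
          (∀ i j, G.Adj i j → ∑ k, (q i k - q j k) ^ 2 = ∑ k, (p i k - p j k) ^ 2) ∧
          D = fun i j => ∑ k, (q i k - q j k) ^ 2}.ncard =
      {D : Fin n → Fin n → ℂ | ∃ q : Fin n → Fin 2 → ℂ,
          (∀ i j, G.Adj i j →
            ∑ k, (q i k - q j k) ^ 2 = ∑ k, ((p i k : ℂ) - (p j k : ℂ)) ^ 2) ∧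
          D = fun i j => ∑ k, (q i k - q j k) ^ 2}.ncard) := by
  intro hall
  obtain ⟨p, hp, hcard⟩ := hall 8 gr hRig
  have hG : Gen (par p) := hGen hJac hStress p hp
  have hpos : Pos (par p) := hPos p hp
  obtain ⟨v, hv0, hv1, hvm, hGv, h5, h7⟩ := exists_zero hNat hLead hProd hProd1 hE hSigma hRoot
    hBr1 hBr0a hBr0b hLim hNV0 hL0 hNV1 hG2 hTr hRes1 hNV1R hContR hL1 hIVT hLC (par p) hG hpos
  obtain ⟨x5, x6, x7, z3, z4, hsol⟩ := exists_sol hNat hLead hRes2 hZero hTr hRes1 (par p) hG v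
    hv0 hv1 hvm hGv h5 h7
  have hNF' := hNF hTr (par p) hG _ _ _ _ _ _ hsol
  have hfin := hFin hNat hSolG (par p) hG (hL0 hRoot hBr0a hBr0b hLim hNV0 hProd hLead (par p) hG)
  obtain ⟨hl, ha5, ha6, ha7, hm2, hm3, hm4⟩ := hpos
  set SR := {D : Fin 8 → Fin 8 → ℝ | ∃ q : Fin 8 → Fin 2 → ℝ,
          (∀ i j, gr.Adj i j → ∑ k, (q i k - q j k) ^ 2 = ∑ k, (p i k - p j k) ^ 2) ∧
          D = fun i j => ∑ k, (q i k - q j k) ^ 2} with hSR
  set SC := {D : Fin 8 → Fin 8 → ℂ | ∃ q : Fin 8 → Fin 2 → ℂ,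
          (∀ i j, gr.Adj i j →
            ∑ k, (q i k - q j k) ^ 2 = ∑ k, ((p i k : ℂ) - (p j k : ℂ)) ^ 2) ∧
          D = fun i j => ∑ k, (q i k - q j k) ^ 2} with hSC
  -- finiteness
  have hSCfin : SC.Finite := by
    apply (hfin.image (fun s => Dm (PC (par p)) (s 0) (s 1) (s 2) (s 3) (s 4) (s 5))).subset
    rintro D ⟨q, hq, rfl⟩
    obtain ⟨y5, y6, y7, w2, w3, w4, hs, hD⟩ := hNormA (PC (par p))
      (by simpa [PC, Par.map] using hl.ne') (by simpa [PC, Par.map] using ha5.ne')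
      (by simpa [PC, Par.map] using ha6.ne') (by simpa [PC, Par.map] using ha7.ne')
      (by simpa [PC, Par.map] using hm2.ne') (by simpa [PC, Par.map] using hm3.ne')
      (by simpa [PC, Par.map] using hm4.ne') q (by
        intro e
        rw [hq _ _ (ed_adj e), parC_vec]
        simp [sq])
    refine ⟨![y5, y6, y7, w2, w3, w4], hs, ?_⟩
    funext i j
    exact (hD i j).symm
  let ι : (Fin 8 → Fin 8 → ℝ) → (Fin 8 → Fin 8 → ℂ) := fun D i j => ((D i j : ℝ) : ℂ)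
  have hι : Function.Injective ι := by
    intro D D' h
    funext i j
    have := congrFun (congrFun h i) j
    exact Complex.ofReal_injective this
  have hsub : ι '' SR ⊆ SC := by
    rintro _ ⟨D, ⟨q, hq, rfl⟩, rfl⟩
    refine ⟨fun i k => ((q i k : ℝ) : ℂ), ?_, ?_⟩
    · intro i j hij
      have := hq i j hij
      have h2 := congrArg (fun x : ℝ => (x : ℂ)) this
      simpa using h2
    · funext i j
      simp [ι]
  have hnot : Dm (PC (par p)) x5 x6 x7 v z3 z4 ∈ SC := by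
    obtain ⟨⟨q, hq⟩, hed⟩ := hNormB (PC (par p)) x5 x6 x7 v z3 z4 hsol
    refine ⟨q, ?_, ?_⟩
    · intro i j hij
      have key : ∀ e, ∑ k, (q (ed e).1 k - q (ed e).2 k) ^ 2 =
          ∑ k, ((p (ed e).1 k : ℂ) - (p (ed e).2 k : ℂ)) ^ 2 := by
        intro e
        rw [hq, hed e, parC_vec]
        simp [sq]
      rw [adj_iff] at hij
      rcases hij.2 with ⟨e, he⟩ | ⟨e, he⟩
      · have := key e
        rw [he] at this
        exact this
      · have := key e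
        rw [he] at this
        simp only [Fin.sum_univ_two] at this ⊢
        linear_combination this
    · funext i j
      exact (hq i j).symm
  have hnotin : Dm (PC (par p)) x5 x6 x7 v z3 z4 ∉ ι '' SR := by
    rintro ⟨D, ⟨q, hq, rfl⟩, hD⟩
    have h02 := congrFun (congrFun hD 0) 2
    have h02' : ((sq q 0 2 : ℝ) : ℂ) = (((1 + v) * ((par p).l + (par p).m2 / v) : ℝ) : ℂ) := by
      have e1 : ι (fun i j => ∑ k, (q i k - q j k) ^ 2) 0 2 = ((sq q 0 2 : ℝ) : ℂ) := rfl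
      rw [← e1, h02]
      simp [Dm, PC, Par.map]
      ring
    have h3 : sq q 0 2 = (1 + v) * ((par p).l + (par p).m2 / v) := Complex.ofReal_injective h02'
    have h4 := hTri q
    have h01 : sq q 0 1 = (par p).l := hq 0 1 (ed_adj 0)
    have h12 : sq q 1 2 = (par p).m2 := hq 1 2 (ed_adj 4)
    rw [h3, h01, h12] at h4
    have h5' : ((par p).l * v - (par p).m2 / v) ^ 2 ≤ 0 := by
      have e2 : ((1 + v) * ((par p).l + (par p).m2 / v) - (par p).l - (par p).m2) ^ 2 =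
          ((par p).l * v - (par p).m2 / v) ^ 2 + 4 * (par p).l * (par p).m2 := by
        field_simp
        ring
      rw [e2] at h4
      linarith
    have h6 : (par p).l * v - (par p).m2 / v = 0 := by
      have := le_antisymm h5' (sq_nonneg _)
      exact pow_eq_zero_iff (two_ne_zero) |>.mp this
    apply hNF'
    have h7' : (par p).l * v ^ 2 = (par p).m2 := by
      have e3 : (par p).l * v = (par p).m2 / v := by linarith
      rw [eq_div_iff hv0] at e3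
      linarith [e3]
    exact_mod_cast h7'
  have hlt : (ι '' SR).ncard < SC.ncard :=
    Set.ncard_lt_ncard (Set.ssubset_iff_subset_ne.mpr ⟨hsub, fun h => hnotin (h ▸ hnot)⟩) hSCfin
  rw [Set.ncard_image_of_injective _ hι] at hlt
  exact absurd hcard (by omega)

end Pool.Agent.H771R3.TH
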