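import Mathlib

set_option autoImplicit false

/-!
Definitions for the project TH (MP_01c1f4_co, Thurston's question, frozen S06894).
Graph: `K_{4,4}` minus three disjoint edges = cube plus main diagonal, vertices `Fin 8`, edges
01, 12, 13, 14, 05, 06, 07, 25, 27, 35, 36, 46, 47.
Normalised isotropic coordinates: `0 = (0,0)`, `1 = (1,l)`, `j = (x_j, a_j/x_j)` for `j = 5,6,7`,
`i = (1+z_i, l+m_i/z_i)` for `i = 2,3,4`; squared distance `D = (difference of X)(difference of Y)`.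
-/

namespace Pool.Agent.H771R3.TH

open Polynomial

/-- the 13 squared edge lengths -/
structure Par (K : Type*) where
  l : K
  a5 : K
  a6 : K
  a7 : K
  m2 : K
  m3 : K
  m4 : K
  d25 : K
  d27 : K
  d35 : K
  d36 : K
  d46 : K
  d47 : K

section
variable {K L : Type*} [CommRing K] [CommRing L]

def Par.map (f : K →+* L) (P : Par K) : Par L :=
  ⟨f P.l, f P.a5, f P.a6, f P.a7, f P.m2, f P.m3, f P.m4, f P.d25, f P.d27, f P.d35, f P.d36,
    f P.d46, f P.d47⟩

/-- `F = 0` says that the points `(x, a/x)` and `(1+z, l+m/z)` have squared distance `d`. -/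
def F (l a m d x z : K) : K := (x - 1 - z) * (a * z - l * x * z - m * x) - d * x * z

/-- resultant in `x` of `F l a m d x v` and `F l a m' d' x z` -/
def MM (l a m d m' d' v z : K) : K :=
  (-(l * v + m) * (-(a * z * (z + 1))) - -(l * z + m') * (-(a * v * (v + 1)))) ^ 2 -
    (-(l * v + m) * (l * z ^ 2 + (a + l + m' - d') * z + m') -
      -(l * z + m') * (l * v ^ 2 + (a + l + m - d) * v + m)) *
    ((l * v ^ 2 + (a + l + m - d) * v + m) * (-(a * z * (z + 1))) -
      (l * z ^ 2 + (a + l + m' - d') * z + m') * (-(a * v * (v + 1))))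

def M5 (P : Par K) (v z : K) : K := MM P.l P.a5 P.m2 P.d25 P.m3 P.d35 v z
def M7 (P : Par K) (v w : K) : K := MM P.l P.a7 P.m2 P.d27 P.m4 P.d47 v w
def M6 (P : Par K) (z w : K) : K := MM P.l P.a6 P.m3 P.d36 P.m4 P.d46 z w

noncomputable def M5p (P : Par K) (v : K) : K[X] := M5 (P.map C) (C v) X
noncomputable def M7p (P : Par K) (v : K) : K[X] := M7 (P.map C) (C v) X
noncomputable def M6p (P : Par K) (z : K) : K[X] := M6 (P.map C) (C z) X

/-- resultant in `w` of `M7 v w` and `M6 z w` -/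
noncomputable def U (P : Par K) (v z : K) : K := resultant (M7p P v) (M6p P z) 4 4
noncomputable def Up (P : Par K) (v : K) : K[X] := U (P.map C) (C v) X

/-- the norm function: product over all choices of `M6 z w` -/
noncomputable def G (P : Par K) (v : K) : K := resultant (M5p P v) (Up P v) 4 16

end

/-- the complex version of a real parameter -/
noncomputable def PC (P : Par ℝ) : Par ℂ := P.map (algebraMap ℝ ℂ)

/-- genericity -/
def Gen (P : Par ℝ) : Prop :=
  AlgebraicIndependent ℚ ![P.l, P.a5, P.a6, P.a7, P.m2, P.m3, P.m4, P.d25, P.d27, P.d35, P.d36,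
    P.d46, P.d47]

/-- a genuine complex solution -/
def Sol (P : Par ℂ) (x5 x6 x7 z2 z3 z4 : ℂ) : Prop :=
  (x5 ≠ 0 ∧ x6 ≠ 0 ∧ x7 ≠ 0 ∧ z2 ≠ 0 ∧ z3 ≠ 0 ∧ z4 ≠ 0) ∧
  F P.l P.a5 P.m2 P.d25 x5 z2 = 0 ∧ F P.l P.a5 P.m3 P.d35 x5 z3 = 0 ∧
  F P.l P.a6 P.m3 P.d36 x6 z3 = 0 ∧ F P.l P.a6 P.m4 P.d46 x6 z4 = 0 ∧
  F P.l P.a7 P.m4 P.d47 x7 z4 = 0 ∧ F P.l P.a7 P.m2 P.d27 x7 z2 = 0

end Pool.Agent.H771R3.TH
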