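import Pool.Agent.H771R3.TH.Defs

set_option autoImplicit false

/-!
Tasks of project TH (MP_01c1f4_co, Thurston's question, frozen negation S06894).
-/

namespace Pool.Agent.H771R3.TH

open Polynomial Filter Topology

/-! ### the graph -/

/-- the edges, in the order of the fields of `Par` -/
def ed : Fin 13 → Fin 8 × Fin 8 :=
  ![(0,1), (0,5), (0,6), (0,7), (1,2), (1,3), (1,4), (2,5), (2,7), (3,5), (3,6), (4,6), (4,7)]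

def gr : SimpleGraph (Fin 8) := SimpleGraph.fromRel (fun i j => ∃ e, ed e = (i, j))

def sq (p : Fin 8 → Fin 2 → ℝ) (i j : Fin 8) : ℝ := ∑ k, (p i k - p j k) ^ 2

def par (p : Fin 8 → Fin 2 → ℝ) : Par ℝ :=
  ⟨sq p 0 1, sq p 0 5, sq p 0 6, sq p 0 7, sq p 1 2, sq p 1 3, sq p 1 4, sq p 2 5, sq p 2 7,
    sq p 3 5, sq p 3 6, sq p 4 6, sq p 4 7⟩

/-- generic realisation -/
def GenP (p : Fin 8 → Fin 2 → ℝ) : Prop :=
  AlgebraicIndependent ℚ (fun x : Fin 8 × Fin 2 => p x.1 x.2)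

/-- all parameters positive -/
def Pos (P : Par ℝ) : Prop :=
  0 < P.l ∧ 0 < P.a5 ∧ 0 < P.a6 ∧ 0 < P.a7 ∧ 0 < P.m2 ∧ 0 < P.m3 ∧ 0 < P.m4

/-- the squared distances of a normalised configuration -/
noncomputable def Dm (P : Par ℂ) (x5 x6 x7 z2 z3 z4 : ℂ) (i j : Fin 8) : ℂ :=
  ((![0, 1, 1 + z2, 1 + z3, 1 + z4, x5, x6, x7] : Fin 8 → ℂ) i -
      (![0, 1, 1 + z2, 1 + z3, 1 + z4, x5, x6, x7] : Fin 8 → ℂ) j) *
    ((![0, P.l, P.l + P.m2 / z2, P.l + P.m3 / z3, P.l + P.m4 / z4, P.a5 / x5, P.a6 / x6,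
        P.a7 / x7] : Fin 8 → ℂ) i -
      (![0, P.l, P.l + P.m2 / z2, P.l + P.m3 / z3, P.l + P.m4 / z4, P.a5 / x5, P.a6 / x6,
        P.a7 / x7] : Fin 8 → ℂ) j)

/-- `M6` as a polynomial in `z` -/
noncomputable def M6q {K : Type*} [CommRing K] (P : Par K) (w : K) : K[X] :=
  M6 (P.map C) X (C w)

/-! ### tasks: rigidity and genericity -/

/-- infinitesimal rigidity. Proof: subtract a rigid motion so that `u 0 = u 1 = 0`; then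
`u_j = t_j J (p_j - p_0)` for `j = 5,6,7`, `u_i = s_i J (p_i - p_1)` for `i = 2,3,4`, and the edge
`ij` gives `s_i A_ij = t_j B_ij` with `A_ij = area (i,j,1)`, `B_ij = area (i,j,0)`; go round the
hexagon 5-2-7-4-6-3: all `A, B ≠ 0` and
`Θ = A25 B35 A36 B46 A47 B27 - B25 A35 B36 A46 B47 A27 ≠ 0` as nonzero polynomials in `p`. -/
def TaskRig : Prop :=
  ∀ p : Fin 8 → Fin 2 → ℝ, GenP p → ∀ u : Fin 8 → Fin 2 → ℝ,
    (∀ i j, gr.Adj i j → ∑ k, (p i k - p j k) * (u i k - u j k) = 0) →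
    ∀ i j, ∑ k, (p i k - p j k) * (u i k - u j k) = 0

/-- no self-stress (same polynomial `Θ`: stresses at 5, 7, 4, 6, 3, 2 give
`c25A25=-c27A27, c27B27=-c47B47, c47A47=-c46A46, c46B46=-c36B36, c36A36=-c35A35, c35B35=-c25B25`
up to sign conventions). -/
def TaskStress : Prop :=
  ∀ p : Fin 8 → Fin 2 → ℝ, GenP p → ∀ ω : Fin 13 → ℝ,
    (∀ v k, ∑ e, ω e * (((if (ed e).1 = v then 1 else 0) - (if (ed e).2 = v then 1 else 0)) *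
      (p (ed e).1 k - p (ed e).2 k)) = 0) → ω = 0

/-- Jacobian criterion. Proof: take a nonzero relation `H` of least total degree; differentiate
`H (f) = 0` (an identity of polynomials as `p` is independent): the vector `(∂_e H)(f(p))` is killed
by the Jacobian, so it is zero; by minimality all `∂_e H = 0`, so `H` is a constant. -/
def TaskJac : Prop :=
  ∀ (p : Fin 8 × Fin 2 → ℝ) (f : Fin 13 → MvPolynomial (Fin 8 × Fin 2) ℚ),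
    AlgebraicIndependent ℚ p →
    (∀ ω : Fin 13 → ℝ,
      (∀ s, ∑ e, ω e * MvPolynomial.aeval p (MvPolynomial.pderiv s (f e)) = 0) → ω = 0) →
    AlgebraicIndependent ℚ (fun e => MvPolynomial.aeval p (f e))

/-- the 13 squared lengths are independent -/
def TaskGen : Prop :=
  TaskJac → TaskStress → ∀ p : Fin 8 → Fin 2 → ℝ, GenP p → Gen (par p)

/-- transcendence degree -/
def TaskTr : Prop :=
  ∀ (a : Fin 13 → ℂ) (s : Fin 12 → ℂ), AlgebraicIndependent ℚ a →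
    ¬ ∀ i, a i ∈ IntermediateField.adjoin ℚ (Set.range s)

/-! ### tasks: the norm function -/

/-- naturality of `G` -/
def TaskNat : Prop :=
  ∀ (K L : Type) [CommRing K] [CommRing L] (φ : K →+* L) (P : Par K) (v : K),
    G (P.map φ) (φ v) = φ (G P v)

/-- degrees and leading coefficients -/
def TaskLead : Prop :=
  ∀ (K : Type) [CommRing K] (P : Par K) (v : K),
    (M5p P v).natDegree ≤ 4 ∧ (M7p P v).natDegree ≤ 4 ∧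
    (M6p P v).natDegree ≤ 4 ∧ (M6q P v).natDegree ≤ 4 ∧ (Up P v).natDegree ≤ 16 ∧
    (∀ z, (M5p P v).eval z = M5 P v z) ∧ (∀ z, (M7p P v).eval z = M7 P v z) ∧
    (∀ z, (M6p P v).eval z = M6 P v z) ∧ (∀ z, (M6q P v).eval z = M6 P z v) ∧
    (∀ z, (Up P v).eval z = U P v z) ∧
    (M5p P v).coeff 4 =
      -P.a5 * (P.l * v + P.m2) * (P.m2 * (P.l + P.l * v - P.a5) - P.l * P.d25 * v) ∧
    (M7p P v).coeff 4 =
      -P.a7 * (P.l * v + P.m2) * (P.m2 * (P.l + P.l * v - P.a7) - P.l * P.d27 * v)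

/-- product formula, all roots split -/
def TaskProd : Prop :=
  ∀ (K : Type) [Field K] (P : Par K) (v : K) (r s : Fin 4 → K) (p q : K),
    M5p P v = C p * ∏ i, (X - C (r i)) → M7p P v = C q * ∏ j, (X - C (s j)) →
    G P v = p ^ 16 * q ^ 16 * ∏ i, ∏ j, M6 P (r i) (s j)

/-- product formula, two roots of each split off -/
def TaskProd1 : Prop :=
  ∀ (K : Type) [Field K] (P : Par K) (v α β α' β' : K) (Q Q' : K[X]),
    Q.natDegree ≤ 2 → Q'.natDegree ≤ 2 →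
    M5p P v = (X - C α) * (X - C β) * Q → M7p P v = (X - C α') * (X - C β') * Q' →
    G P v = M6 P α α' * M6 P α β' * M6 P β α' * M6 P β β' *
      (resultant Q' (M6p P α) 2 4 * resultant Q' (M6p P β) 2 4) *
      (resultant Q (M6q P α') 2 4 * resultant Q (M6q P β') 2 4) *
      resultant Q (resultant (Q'.map C) (M6p (P.map C) X) 2 4) 2 8

/-- two quadratics with vanishing resultant (here `MM` is the resultant in `x`) -/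
def TaskRes1 : Prop :=
  ∀ l a m d m' d' v z : ℂ, MM l a m d m' d' v z = 0 →
    (∃ x, F l a m d x v = 0 ∧ F l a m' d' x z = 0) ∨ (l * v + m = 0 ∧ l * z + m' = 0)

/-- converse -/
def TaskRes1c : Prop :=
  ∀ (K : Type) [Field K] (l a m d m' d' v z x : K), F l a m d x v = 0 → F l a m' d' x z = 0 →
    MM l a m d m' d' v z = 0

/-- a zero of `G` gives common roots -/
def TaskRes2 : Prop :=
  ∀ (P : Par ℂ) (v : ℂ), (M5p P v).coeff 4 ≠ 0 → (M7p P v).coeff 4 ≠ 0 → G P v = 0 →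
    ∃ z w, M5 P v z = 0 ∧ M7 P v w = 0 ∧ M6 P z w = 0

/-- converse -/
def TaskSolG : Prop :=
  ∀ (P : Par ℂ) (x5 x6 x7 z2 z3 z4 : ℂ), Sol P x5 x6 x7 z2 z3 z4 → G P z2 = 0

/-- degenerate solutions are excluded by a dimension count (`TaskTr`): for `x, z ≠ 0`, `F = 0` gives
`d` rational in `l, a, m, x, z`; `x5, x7 ≠ 0` since `v ≠ 0, -1`. If `z = 0` then `x5 = 1` and
`x6 ∈ {0, 1}`; `x6 = 0` gives `w ∈ {0, -1}` etc; in each degenerate case all 13 parameters lie in a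
field generated by 12 numbers:
`{z=0, x6=1}`: l,a's,m's,v,x7,w,d35,d36; `{x6=0 or ∞}`: l,a's,m's,v,x5,x7,d36,d46;
`{z=0,x6=0}`: l,a's,m's,v,x7,d35,d36,d46; `{z=0,w=0,..}`: l,a's,m's,v,d35,d36,d46,d47;
`{z=0,x6=0,w=0}`: the same; and the mirror images. -/
def TaskZero : Prop :=
  TaskTr → TaskRes1 → ∀ P : Par ℝ, Gen P → ∀ v z w : ℂ, v ≠ 0 → v ≠ -1 →
    (P.l : ℂ) * v + P.m2 ≠ 0 →
    M5 (PC P) v z = 0 → M7 (PC P) v w = 0 → M6 (PC P) z w = 0 →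
    ∃ x5 x6 x7, Sol (PC P) x5 x6 x7 v z w

/-- no solution with `l v² = m2` (dimension count: all 13 parameters would be in the field generated
by `l,a5,a6,a7,m3,m4,x5,x6,x7,z2,z3,z4`) -/
def TaskNF : Prop :=
  TaskTr → ∀ P : Par ℝ, Gen P → ∀ x5 x6 x7 z2 z3 z4 : ℂ, Sol (PC P) x5 x6 x7 z2 z3 z4 →
    (P.l : ℂ) * z2 ^ 2 ≠ P.m2

/-- no common zeros at `v = -1` besides `z, w ∈ {0, -1}` (dimension count). For `v = -1`:
`x5 = 0` (then `z ∈ {0,-1}`) or `x5 = (a5-d25)/(l-m2)`; same for `x7, w`. If `z ∉ {0,-1}` then `d35`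
is rational in `l,a5,m2,m3,d25,z`, and: `w = 0`: `x6 = 1` (or `0`, excluded), so `d36` is rational in
`l,a6,m3,z`; `w = -1`: `x6 = (a6-d46)/(l-m4)`; `w ∉ {0,-1}`: `d47` rational in `l,a7,m2,m4,d27,w` and
`d36`, `d46` rational in `l,a6,m3,m4,x6,z,w` (or `z = -m3/l`, `w = -m4/l`). -/
def TaskG2 : Prop :=
  TaskTr → TaskRes1 → ∀ P : Par ℝ, Gen P → ∀ z w : ℂ,
    M5 (PC P) (-1) z = 0 → M7 (PC P) (-1) w = 0 → M6 (PC P) z w = 0 →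
    (z = 0 ∨ z = -1) ∧ (w = 0 ∨ w = -1)

/-- nonnegativity at the fixed points of `v ↦ m2/(l v)`. Proof: `MM` at `v = f` satisfies
`MM(f, m'/(l z)) = (m m')²/(l⁴ f⁴ z⁴) MM(f, z)`, so over `ℂ`
`M5(f,z) = p (z²-y₁z+m3/l)(z²-y₂z+m3/l)`, similarly `M7`; with `σz = m3/(l z)`, `σw = m4/(l w)`,
`h(z,w) = m3 m4 M6(z,w)/(l z w)²` is invariant under `(σ,σ)`; so for roots `r₁,σr₁,r₂,σr₂` and
`s_j` the product over all pairs is `W²`, `W = ∏_{k=1,2} ∏_{j} h(r_k, s_j)`, and `W` is real since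
the set `{y₁,y₂}` is stable under conjugation. -/
def TaskE : Prop :=
  TaskProd → TaskNat → TaskLead → ∀ P : Par ℝ, Pos P → ∀ f : ℝ, P.l * f ^ 2 = P.m2 →
    (M5p P f).coeff 4 ≠ 0 → (M7p P f).coeff 4 ≠ 0 → 0 ≤ G P f

/-- symmetry. Note `l⁴v⁴z⁴ MM(m/(l v), m'/(l z)) = (m m')² MM(v,z)`; use `TaskProd` over an
algebraic closure for `v` with nonzero leading coefficients and density, or work with the
Sylvester matrices / `Polynomial.reverse` directly. -/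
def TaskSigma : Prop :=
  ∀ (P : Par ℝ), P.l ≠ 0 → P.m2 ≠ 0 → P.m3 ≠ 0 → P.m4 ≠ 0 → ∀ v : ℝ, v ≠ 0 →
    P.l ^ 64 * v ^ 128 * G P (P.m2 / (P.l * v)) = P.m2 ^ 64 * G P v

/-! ### tasks: branches and limits -/

def TaskRoot : Prop :=
  ∀ (N : ℝ → ℝ → ℝ), Continuous (Function.uncurry N) → ∀ z0 d : ℝ, d ≠ 0 →
    HasDerivAt (N 0) d z0 → N 0 z0 = 0 →
    ∃ z : ℝ → ℝ, Tendsto z (𝓝 0) (𝓝 z0) ∧ ∀ᶠ e in 𝓝 (0 : ℝ), N e (z e) = 0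

/-- branches at `v = -1`. Write `MM = (p r'-p' r)² - (p q'-p' q)(q r'-q' r)` with
`p = -(l v+m), q = l v²+(a+l+m-d)v+m, r = -a v (v+1)` and `p',q',r'` the same for `z, m', d'`; then
with `v = -1+e`, `r = e r₁` and for `z = e ζ` or `z = -1+e ζ`, `r' = e r₁'`, so
`MM/e = e (p r₁'-p' r₁)² - (p q'-p' q)(q r₁'-q' r₁)`; apply `TaskRoot`. -/
def TaskBr1 : Prop :=
  TaskRoot → ∀ l a m d m' d' : ℝ, l ≠ m → a ≠ 0 → m' ≠ 0 → a ≠ d → l - m - a + d ≠ 0 →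
    (l - m') * (a - d) - (l - m) * (a - d') ≠ 0 →
    ∃ r s : ℝ → ℝ,
      Tendsto (fun e => r e / e) (𝓝[≠] 0) (𝓝 (m' / (a - d))) ∧
      Tendsto (fun e => (s e + 1) / e) (𝓝[≠] 0) (𝓝 ((a - d') / (a - d))) ∧
      ∀ᶠ e in 𝓝[≠] (0 : ℝ), MM l a m d m' d' (-1 + e) (r e) = 0 ∧
        MM l a m d m' d' (-1 + e) (s e) = 0

/-- branches at `v = 0` (roots with finite nonzero limit, and near `-1`);
`MM(0,z) = -a m² z² (z+1) (m'-d'-(a-l) z)` -/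
def TaskBr0a : Prop :=
  TaskRoot → ∀ l a m d m' d' : ℝ, m ≠ 0 → a ≠ 0 → m' ≠ 0 → a ≠ l → d' ≠ m' →
    a - d' - (l - m') ≠ 0 →
    ∃ r s : ℝ → ℝ,
      Tendsto r (𝓝[≠] 0) (𝓝 ((m' - d') / (a - l))) ∧
      Tendsto (fun e => (s e + 1) / e) (𝓝[≠] 0) (𝓝 ((a - d') / m)) ∧
      ∀ᶠ e in 𝓝[≠] (0 : ℝ), MM l a m d m' d' e (r e) = 0 ∧ MM l a m d m' d' e (s e) = 0

/-- branches at `v = 0`, roots tending to `0`: with `z = v ζ`, `MM/v² → a (mζ-m')(m(d'-m')ζ-m'(d-m))`;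
the second one to second order: with `z = (m'/m) v + η v²`, `MM/v³` tends to
`-a m m' (m'-d'-m+d) η + a (m'²/m) (m'-d'-m+d)(d-d')`. -/
def TaskBr0b : Prop :=
  TaskRoot → ∀ l a m d m' d' : ℝ, m ≠ 0 → a ≠ 0 → m' ≠ 0 → d' ≠ m' → d - m ≠ d' - m' →
    ∃ r s : ℝ → ℝ,
      Tendsto (fun e => r e / e) (𝓝[≠] 0) (𝓝 (m' * (d - m) / (m * (d' - m')))) ∧
      Tendsto (fun e => (s e - m' / m * e) / e ^ 2) (𝓝[≠] 0) (𝓝 (m' * (d - d') / m ^ 2)) ∧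
      ∀ᶠ e in 𝓝[≠] (0 : ℝ), MM l a m d m' d' e (r e) = 0 ∧ MM l a m d m' d' e (s e) = 0

def TaskLim : Prop :=
  ∀ l a m d m' d' : ℝ,
    -- near (0,0)
    (∀ (z w : ℝ → ℝ) (ζ ω : ℝ), Tendsto (fun e => z e / e) (𝓝[≠] 0) (𝓝 ζ) →
      Tendsto (fun e => w e / e) (𝓝[≠] 0) (𝓝 ω) →
      Tendsto (fun e => MM l a m d m' d' (z e) (w e) / e ^ 2) (𝓝[≠] 0)
        (𝓝 (a * (m * ω - m' * ζ) * (m * (d' - m') * ω - m' * (d - m) * ζ)))) ∧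
    -- near (0,-1)
    (∀ (z w : ℝ → ℝ) (ζ ω : ℝ), Tendsto (fun e => z e / e) (𝓝[≠] 0) (𝓝 ζ) →
      Tendsto (fun e => (w e + 1) / e) (𝓝[≠] 0) (𝓝 ω) →
      Tendsto (fun e => MM l a m d m' d' (z e) (w e) / e) (𝓝[≠] 0)
        (𝓝 (-(m * a * ((a - d') - (l - m')) * (m * ω - (a - d') * ζ))))) ∧
    -- near (-1,0)
    (∀ (z w : ℝ → ℝ) (ζ ω : ℝ), Tendsto (fun e => (z e + 1) / e) (𝓝[≠] 0) (𝓝 ζ) →
      Tendsto (fun e => w e / e) (𝓝[≠] 0) (𝓝 ω) →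
      Tendsto (fun e => MM l a m d m' d' (z e) (w e) / e) (𝓝[≠] 0)
        (𝓝 (-(m' * a * ((a - d) - (l - m)) * (m' * ζ - (a - d) * ω))))) ∧
    -- near (-1,-1)
    (∀ (z w : ℝ → ℝ) (ζ ω : ℝ), Tendsto (fun e => (z e + 1) / e) (𝓝[≠] 0) (𝓝 ζ) →
      Tendsto (fun e => (w e + 1) / e) (𝓝[≠] 0) (𝓝 ω) →
      Tendsto (fun e => MM l a m d m' d' (z e) (w e) / e) (𝓝[≠] 0)
        (𝓝 (-(a * ((l - m') * (a - d) - (l - m) * (a - d')) *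
          ((a - d') * ζ - (a - d) * ω))))) ∧
    -- third order near (0,0)
    (∀ (z w : ℝ → ℝ) (t η η' : ℝ),
      Tendsto (fun e => (z e - m * t * e) / e ^ 2) (𝓝[≠] 0) (𝓝 η) →
      Tendsto (fun e => (w e - m' * t * e) / e ^ 2) (𝓝[≠] 0) (𝓝 η') →
      Tendsto (fun e => MM l a m d m' d' (z e) (w e) / e ^ 3) (𝓝[≠] 0)
        (𝓝 (a * m * m' * t * (m - m' + d' - d) *
          ((m * η' - m' * η) + m * m' * t ^ 2 * (d' - d)))))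

/-- explicit polynomial inequalities used near `v = 0` (all are nonzero rational functions of the
parameters over `ℚ`; clear denominators and evaluate at an integer point) -/
def TaskNV0 : Prop :=
  ∀ P : Par ℝ, Gen P →
    let zs := (P.m3 - P.d35) / (P.a5 - P.l)
    let ws := (P.m4 - P.d47) / (P.a7 - P.l)
    let zb := P.m3 * (P.d25 - P.m2) / (P.m2 * (P.d35 - P.m3))
    let wb := P.m4 * (P.d27 - P.m2) / (P.m2 * (P.d47 - P.m4))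
    let zd := P.m3 / P.m2
    let wd := P.m4 / P.m2
    let zc := (P.a5 - P.d35) / P.m2
    let wc := (P.a7 - P.d47) / P.m2
    let q := fun ζ ω : ℝ => P.a6 * (P.m3 * ω - P.m4 * ζ) *
      (P.m3 * (P.d46 - P.m4) * ω - P.m4 * (P.d36 - P.m3) * ζ)
    let q1 := fun ζ ω : ℝ => P.m3 * P.a6 * ((P.a6 - P.d46) - (P.l - P.m4)) *
      (P.m3 * ω - (P.a6 - P.d46) * ζ)
    let q2 := fun ζ ω : ℝ => P.m4 * P.a6 * ((P.a6 - P.d36) - (P.l - P.m3)) *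
      (P.m4 * ζ - (P.a6 - P.d36) * ω)
    (M6 P zs ws ≠ 0 ∧ M6 P zs 0 ≠ 0 ∧ M6 P zs (-1) ≠ 0 ∧ M6 P 0 ws ≠ 0 ∧ M6 P (-1) ws ≠ 0) ∧
    (q zb wb ≠ 0 ∧ q zb wd ≠ 0 ∧ q zd wb ≠ 0) ∧
    (q1 zb wc ≠ 0 ∧ q1 zd wc ≠ 0 ∧ q2 zc wb ≠ 0 ∧ q2 zc wd ≠ 0) ∧
    P.a6 * ((P.l - P.m4) * (P.a6 - P.d36) - (P.l - P.m3) * (P.a6 - P.d46)) *
          ((P.a6 - P.d46) * zc - (P.a6 - P.d36) * wc) ≠ 0 ∧
    (P.m3 - P.m4 + P.d46 - P.d36) * (P.d35 - P.d25 - P.d47 + P.d27 + P.d46 - P.d36) ≠ 0 ∧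
    (zs ≠ 0 ∧ zs ≠ -1 ∧ zb ≠ zd ∧ ws ≠ 0 ∧ ws ≠ -1 ∧ wb ≠ wd) ∧
    (P.l ≠ 0 ∧ P.a5 ≠ 0 ∧ P.a6 ≠ 0 ∧ P.a7 ≠ 0 ∧ P.m2 ≠ 0 ∧ P.m3 ≠ 0 ∧ P.m4 ≠ 0 ∧
      P.a5 ≠ P.l ∧ P.a7 ≠ P.l ∧ P.d35 ≠ P.m3 ∧ P.d47 ≠ P.m4 ∧
      P.a5 - P.d35 - (P.l - P.m3) ≠ 0 ∧ P.a7 - P.d47 - (P.l - P.m4) ≠ 0 ∧
      P.d25 - P.m2 ≠ P.d35 - P.m3 ∧ P.d27 - P.m2 ≠ P.d47 - P.m4)

/-- order of vanishing at `v = 0` is exactly 14: four real branches for `M5` and for `M7`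
(`TaskBr0a`, `TaskBr0b`), distinct for small `v ≠ 0`, so `M5p = C (coeff 4) * ∏ (X - r_i)`; use
`TaskProd` and `TaskLim`. Exponents: `(a,·)`, `(·,a)`: 0; the pairs from `{b,d}×{b,d}`: 2,2,2 and
`(d,d)`: 3; `({b,d},c)`, `(c,{b,d})`, `(c,c)`: 1. Total 14. -/
def TaskL0 : Prop :=
  TaskRoot → TaskBr0a → TaskBr0b → TaskLim → TaskNV0 → TaskProd → TaskLead →
    ∀ P : Par ℝ, Gen P → ∃ c : ℝ, c ≠ 0 ∧ Tendsto (fun v => G P v / v ^ 14) (𝓝[≠] 0) (𝓝 c)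

/-- explicit polynomial inequalities used near `v = -1` -/
def TaskNV1 : Prop :=
  ∀ P : Par ℝ, Gen P →
    let za := P.m3 / (P.a5 - P.d25)
    let wa := P.m4 / (P.a7 - P.d27)
    let zc := (P.a5 - P.d35) / (P.a5 - P.d25)
    let wc := (P.a7 - P.d47) / (P.a7 - P.d27)
    P.a6 * (P.m3 * wa - P.m4 * za) *
      (P.m3 * (P.d46 - P.m4) * wa - P.m4 * (P.d36 - P.m3) * za) ≠ 0 ∧
    P.m3 * P.a6 * ((P.a6 - P.d46) - (P.l - P.m4)) * (P.m3 * wc - (P.a6 - P.d46) * za) ≠ 0 ∧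
    P.m4 * P.a6 * ((P.a6 - P.d36) - (P.l - P.m3)) * (P.m4 * zc - (P.a6 - P.d36) * wa) ≠ 0 ∧
    P.a6 * ((P.l - P.m4) * (P.a6 - P.d36) - (P.l - P.m3) * (P.a6 - P.d46)) *
          ((P.a6 - P.d46) * zc - (P.a6 - P.d36) * wc) ≠ 0 ∧
    (P.l ≠ 0 ∧ P.a5 ≠ 0 ∧ P.a6 ≠ 0 ∧ P.a7 ≠ 0 ∧ P.m2 ≠ 0 ∧ P.m3 ≠ 0 ∧ P.m4 ≠ 0 ∧
      P.l ≠ P.m2 ∧ P.a5 ≠ P.d25 ∧ P.a7 ≠ P.d27 ∧
      P.l - P.m2 - P.a5 + P.d25 ≠ 0 ∧ P.l - P.m2 - P.a7 + P.d27 ≠ 0 ∧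
      (P.l - P.m3) * (P.a5 - P.d25) - (P.l - P.m2) * (P.a5 - P.d35) ≠ 0 ∧
      (P.l - P.m4) * (P.a7 - P.d27) - (P.l - P.m2) * (P.a7 - P.d47) ≠ 0)

/-- nonvanishing of the remaining factors at `v = -1`. Here
`M5(-1,z) = -(l-m2)² a5 z (z+1) F(l,a5,m3,d35; x*, z)`, `x* = (a5-d25)/(l-m2)`, so `Q` is
`-(l-m2)² a5 F(..; x*, X)`; its leading coefficient and its values at `0`, `-1` are nonzero, same for
`Q'`; a vanishing resultant would give a common root contradicting `TaskG2`. -/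
def TaskNV1R : Prop :=
  TaskG2 → TaskTr → TaskRes1 → TaskLead → ∀ P : Par ℝ, Gen P → ∀ Q Q' : ℝ[X], Q.natDegree ≤ 2 → Q'.natDegree ≤ 2 →
    M5p P (-1) = X * (X + 1) * Q → M7p P (-1) = X * (X + 1) * Q' →
    resultant Q' (M6p P 0) 2 4 ≠ 0 ∧ resultant Q' (M6p P (-1)) 2 4 ≠ 0 ∧
    resultant Q (M6q P 0) 2 4 ≠ 0 ∧ resultant Q (M6q P (-1)) 2 4 ≠ 0 ∧
    resultant Q (resultant (Q'.map C) (M6p (P.map C) X) 2 4) 2 8 ≠ 0

/-- continuity of the factors of `TaskProd1`: if the coefficients converge, so do the resultants -/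
def TaskContR : Prop :=
  ∀ (P : Par ℝ) (F : Filter ℝ) (a b c a' b' c' α : ℝ → ℝ) (a0 b0 c0 a0' b0' c0' α0 : ℝ),
    Tendsto a F (𝓝 a0) → Tendsto b F (𝓝 b0) → Tendsto c F (𝓝 c0) →
    Tendsto a' F (𝓝 a0') → Tendsto b' F (𝓝 b0') → Tendsto c' F (𝓝 c0') →
    Tendsto α F (𝓝 α0) →
    Tendsto (fun e => resultant (C (a e) * X ^ 2 + C (b e) * X + C (c e)) (M6p P (α e)) 2 4) F
      (𝓝 (resultant (C a0 * X ^ 2 + C b0 * X + C c0) (M6p P α0) 2 4)) ∧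
    Tendsto (fun e => resultant (C (a e) * X ^ 2 + C (b e) * X + C (c e)) (M6q P (α e)) 2 4) F
      (𝓝 (resultant (C a0 * X ^ 2 + C b0 * X + C c0) (M6q P α0) 2 4)) ∧
    Tendsto (fun e => resultant (C (a e) * X ^ 2 + C (b e) * X + C (c e))
        (resultant ((C (a' e) * X ^ 2 + C (b' e) * X + C (c' e)).map C)
          (M6p (P.map C) X) 2 4) 2 8) F
      (𝓝 (resultant (C a0 * X ^ 2 + C b0 * X + C c0)
        (resultant ((C a0' * X ^ 2 + C b0' * X + C c0').map C) (M6p (P.map C) X) 2 4) 2 8))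

/-- order of vanishing at `v = -1` is exactly 5 (pairs `(a,a')`: 2; `(a,c'), (c,a'), (c,c')`: 1) -/
def TaskL1 : Prop :=
  TaskRoot → TaskBr1 → TaskLim → TaskNV1 → TaskG2 → TaskTr → TaskRes1 → TaskNV1R → TaskContR → TaskProd1 → TaskLead →
    ∀ P : Par ℝ, Gen P → ∃ c : ℝ, c ≠ 0 ∧
      Tendsto (fun v => G P v / (v + 1) ^ 5) (𝓝[≠] (-1)) (𝓝 c)

/-- the sign argument. `g > 0` on `(0,∞)` (it contains `f`, no zeros there); even order at `0` gives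
`g > 0` just left of `0`; odd order at `-1`. If `m > l`: `-1 ∈ (-f, 0)`; `g > 0` on `(-1,0)`, so
`g < 0` just left of `-1`, and there are no zeros on `(-m/l,-1)`, which contains `-f`. If `m < l`: by
the symmetry `g > 0` on `(-∞,-1)`, `g < 0` on `(-1,-m/l)`, which contains `-f`. -/
def TaskIVT : Prop :=
  ∀ (g : ℝ → ℝ) (l m : ℝ), Continuous g → 0 < l → 0 < m → l ≠ m →
    (∀ f, l * f ^ 2 = m → 0 ≤ g f) →
    (∀ v, v ≠ 0 → l ^ 64 * v ^ 128 * g (m / (l * v)) = m ^ 64 * g v) →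
    (∃ c : ℝ, c ≠ 0 ∧ Tendsto (fun v => g v / v ^ 14) (𝓝[≠] 0) (𝓝 c)) →
    (∃ c : ℝ, c ≠ 0 ∧ Tendsto (fun v => g v / (v + 1) ^ 5) (𝓝[≠] (-1)) (𝓝 c)) →
    ∃ v, v ≠ 0 ∧ v ≠ -1 ∧ l * v + m ≠ 0 ∧ g v = 0

/-- leading coefficients: at `f` with `l f² = m2` nonzero, and for every admissible `v` both are
nonzero at `v` or both are nonzero at `m2/(l v)`. (Zeros: `v = m2 (l-a5)/(l (d25-m2))` and the same
with `7`.) -/
def TaskLC : Prop :=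
  TaskLead → ∀ P : Par ℝ, Gen P →
    (∀ f, P.l * f ^ 2 = P.m2 → (M5p P f).coeff 4 ≠ 0 ∧ (M7p P f).coeff 4 ≠ 0) ∧
    (∀ v, v ≠ 0 → v ≠ -1 → P.l * v + P.m2 ≠ 0 →
      ((M5p P v).coeff 4 ≠ 0 ∧ (M7p P v).coeff 4 ≠ 0) ∨
      ((M5p P (P.m2 / (P.l * v))).coeff 4 ≠ 0 ∧ (M7p P (P.m2 / (P.l * v))).coeff 4 ≠ 0))

/-- finiteness of the set of solutions: `z2` is a zero of the polynomial `G (P.map C) X ≠ 0`; then
`x5, x7`, then `z3, z4`, then `x6` satisfy nonzero quadratic equations. -/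
def TaskFin : Prop :=
  TaskNat → TaskSolG → ∀ P : Par ℝ, Gen P →
    (∃ c : ℝ, c ≠ 0 ∧ Tendsto (fun v => G P v / v ^ 14) (𝓝[≠] 0) (𝓝 c)) →
    {s : Fin 6 → ℂ | Sol (PC P) (s 0) (s 1) (s 2) (s 3) (s 4) (s 5)}.Finite

/-- normalisation: `X = q0 + i q1`, `Y = q0 - i q1`, translate and scale `X` by `1/(X1-X0)`,
`Y` by `X1-X0`. -/
def TaskNormA : Prop :=
  ∀ P : Par ℂ, P.l ≠ 0 → P.a5 ≠ 0 → P.a6 ≠ 0 → P.a7 ≠ 0 → P.m2 ≠ 0 → P.m3 ≠ 0 → P.m4 ≠ 0 →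
    ∀ q : Fin 8 → Fin 2 → ℂ,
    (∀ e, ∑ k, (q (ed e).1 k - q (ed e).2 k) ^ 2 =
      (![P.l, P.a5, P.a6, P.a7, P.m2, P.m3, P.m4, P.d25, P.d27, P.d35, P.d36, P.d46, P.d47] :
        Fin 13 → ℂ) e) →
    ∃ x5 x6 x7 z2 z3 z4, Sol P x5 x6 x7 z2 z3 z4 ∧
      ∀ i j, ∑ k, (q i k - q j k) ^ 2 = Dm P x5 x6 x7 z2 z3 z4 i j

/-- converse -/
def TaskNormB : Prop :=
  ∀ (P : Par ℂ) (x5 x6 x7 z2 z3 z4 : ℂ), Sol P x5 x6 x7 z2 z3 z4 →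
    (∃ q : Fin 8 → Fin 2 → ℂ, ∀ i j, ∑ k, (q i k - q j k) ^ 2 = Dm P x5 x6 x7 z2 z3 z4 i j) ∧
    (∀ e, Dm P x5 x6 x7 z2 z3 z4 (ed e).1 (ed e).2 =
      (![P.l, P.a5, P.a6, P.a7, P.m2, P.m3, P.m4, P.d25, P.d27, P.d35, P.d36, P.d46, P.d47] :
        Fin 13 → ℂ) e)

/-- Cauchy-Schwarz for the triangle 0,1,2 -/
def TaskTri : Prop :=
  ∀ q : Fin 8 → Fin 2 → ℝ, (sq q 0 2 - sq q 0 1 - sq q 1 2) ^ 2 ≤ 4 * sq q 0 1 * sq q 1 2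

/-- existence of a generic point -/
def TaskEx : Prop := ∃ p : Fin 8 → Fin 2 → ℝ, GenP p

/-- `Gen` gives the basic inequalities and `GenP` positivity -/
def TaskPos : Prop := ∀ p : Fin 8 → Fin 2 → ℝ, GenP p → Pos (par p)

end Pool.Agent.H771R3.TH
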