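import Pool.Agent.H771R3.TH.Stmts

set_option autoImplicit false

/-! # Task `Br1` of the project TH (branches of the norm curve at `v = -1`) -/

namespace Pool.Agent.H771R3.TH

open Polynomial Filter Topology

namespace Br1Aux

/-- `MM (-1 + e) (e ζ) / e` -/
def N1 (l a m d m' d' e ζ : ℝ) : ℝ :=
  e * ((-(l * (-1 + e) + m)) * (-(a * ζ * (e * ζ + 1))) -
      (-(l * (e * ζ) + m')) * (a * (1 - e))) ^ 2 -
    ((-(l * (-1 + e) + m)) * (l * (e * ζ) ^ 2 + (a + l + m' - d') * (e * ζ) + m') -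
      (-(l * (e * ζ) + m')) * (l * (-1 + e) ^ 2 + (a + l + m - d) * (-1 + e) + m)) *
    ((l * (-1 + e) ^ 2 + (a + l + m - d) * (-1 + e) + m) * (-(a * ζ * (e * ζ + 1))) -
      (l * (e * ζ) ^ 2 + (a + l + m' - d') * (e * ζ) + m') * (a * (1 - e)))

/-- `MM (-1 + e) (-1 + e ζ) / e` -/
def N2 (l a m d m' d' e ζ : ℝ) : ℝ :=
  e * ((-(l * (-1 + e) + m)) * (a * ζ * (1 - e * ζ)) -
      (-(l * (-1 + e * ζ) + m')) * (a * (1 - e))) ^ 2 -
    ((-(l * (-1 + e) + m)) * (l * (-1 + e * ζ) ^ 2 + (a + l + m' - d') * (-1 + e * ζ) + m') -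
      (-(l * (-1 + e * ζ) + m')) * (l * (-1 + e) ^ 2 + (a + l + m - d) * (-1 + e) + m)) *
    ((l * (-1 + e) ^ 2 + (a + l + m - d) * (-1 + e) + m) * (a * ζ * (1 - e * ζ)) -
      (l * (-1 + e * ζ) ^ 2 + (a + l + m' - d') * (-1 + e * ζ) + m') * (a * (1 - e)))

lemma MM_N1 (l a m d m' d' e ζ : ℝ) :
    MM l a m d m' d' (-1 + e) (e * ζ) = e * N1 l a m d m' d' e ζ := by
  unfold MM N1
  ring

lemma MM_N2 (l a m d m' d' e ζ : ℝ) :
    MM l a m d m' d' (-1 + e) (-1 + e * ζ) = e * N2 l a m d m' d' e ζ := by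
  unfold MM N2
  ring

lemma cont1 (l a m d m' d' : ℝ) : Continuous (Function.uncurry (N1 l a m d m' d')) := by
  unfold N1 Function.uncurry
  fun_prop

lemma cont2 (l a m d m' d' : ℝ) : Continuous (Function.uncurry (N2 l a m d m' d')) := by
  unfold N2 Function.uncurry
  fun_prop

lemma N1_zero (l a m d m' d' : ℝ) : N1 l a m d m' d' 0 =
    fun ζ => -(m' * (l - m - a + d) * a * (a - d)) * ζ + m' * (l - m - a + d) * a * m' := by
  funext ζ
  unfold N1
  ring

lemma N2_zero (l a m d m' d' : ℝ) : N2 l a m d m' d' 0 =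
    fun ζ => (((l - m') * (a - d) - (l - m) * (a - d')) * a * (a - d)) * ζ +
      -(((l - m') * (a - d) - (l - m) * (a - d')) * a * (a - d')) := by
  funext ζ
  unfold N2
  ring

lemma deriv_lin (A B z0 : ℝ) : HasDerivAt (fun ζ : ℝ => A * ζ + B) A z0 := by
  have h := ((hasDerivAt_id z0).const_mul A).add_const B
  simpa using h

end Br1Aux

open Br1Aux

theorem taskBr1 : TaskBr1 := by
  intro hRoot l a m d m' d' hlm ha hm' had h1 h2
  have had' : a - d ≠ 0 := sub_ne_zero.mpr had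
  obtain ⟨z, hz, hz0⟩ := hRoot (N1 l a m d m' d') (cont1 l a m d m' d') (m' / (a - d))
    (-(m' * (l - m - a + d) * a * (a - d)))
    (neg_ne_zero.mpr (mul_ne_zero (mul_ne_zero (mul_ne_zero hm' h1) ha) had'))
    (by rw [N1_zero]; exact deriv_lin _ _ _)
    (by rw [N1_zero]; field_simp; ring)
  obtain ⟨w, hw, hw0⟩ := hRoot (N2 l a m d m' d') (cont2 l a m d m' d') ((a - d') / (a - d))
    (((l - m') * (a - d) - (l - m) * (a - d')) * a * (a - d))
    (mul_ne_zero (mul_ne_zero h2 ha) had')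
    (by rw [N2_zero]; exact deriv_lin _ _ _)
    (by rw [N2_zero]; field_simp; ring)
  refine ⟨fun e => e * z e, fun e => -1 + e * w e, ?_, ?_, ?_⟩
  · refine (hz.mono_left nhdsWithin_le_nhds).congr' ?_
    filter_upwards [self_mem_nhdsWithin] with e he
    have he' : e ≠ 0 := he
    field_simp
  · refine (hw.mono_left nhdsWithin_le_nhds).congr' ?_
    filter_upwards [self_mem_nhdsWithin] with e he
    have he' : e ≠ 0 := he
    field_simp
    ring
  · filter_upwards [nhdsWithin_le_nhds hz0, nhdsWithin_le_nhds hw0] with e he1 he2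
    refine ⟨?_, ?_⟩
    · rw [MM_N1, he1, mul_zero]
    · rw [MM_N2, he2, mul_zero]

end Pool.Agent.H771R3.TH
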