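import Pool.Agent.H771R3.TH.Stmts

set_option autoImplicit false
set_option maxHeartbeats 4000000

/-! Task ContR: continuity of resultants in the coefficients -/

namespace Pool.Agent.H771R3.TH

open Polynomial Filter Topology

namespace ContRx

/-- a notion of convergence compatible with the ring operations -/
structure Cv {R : Type*} [CommRing R] (L : (ℝ → R) → R → Prop) : Prop where
  const : ∀ r, L (fun _ => r) r
  add : ∀ f g r s, L f r → L g s → L (fun e => f e + g e) (r + s)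
  mul : ∀ f g r s, L f r → L g s → L (fun e => f e * g e) (r * s)
  neg : ∀ f r, L f r → L (fun e => -f e) (-r)

theorem Cv.sum {R : Type*} [CommRing R] {L : (ℝ → R) → R → Prop} (h : Cv L) {ι : Type*}
    (s : Finset ι) (f : ι → ℝ → R) (r : ι → R) (hf : ∀ i ∈ s, L (f i) (r i)) :
    L (fun e => ∑ i ∈ s, f i e) (∑ i ∈ s, r i) := by
  classical
  induction s using Finset.induction_on with
  | empty => simpa using h.const 0
  | insert i s hi ih =>
    have h1 := h.add _ _ _ _ (hf i (Finset.mem_insert_self i s))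
      (ih fun j hj => hf j (Finset.mem_insert_of_mem hj))
    simpa [Finset.sum_insert hi] using h1

theorem Cv.prod {R : Type*} [CommRing R] {L : (ℝ → R) → R → Prop} (h : Cv L) {ι : Type*}
    (s : Finset ι) (f : ι → ℝ → R) (r : ι → R) (hf : ∀ i ∈ s, L (f i) (r i)) :
    L (fun e => ∏ i ∈ s, f i e) (∏ i ∈ s, r i) := by
  classical
  induction s using Finset.induction_on with
  | empty => simpa using h.const 1
  | insert i s hi ih =>
    have h1 := h.mul _ _ _ _ (hf i (Finset.mem_insert_self i s))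
      (ih fun j hj => hf j (Finset.mem_insert_of_mem hj))
    simpa [Finset.prod_insert hi] using h1

theorem Cv.det {R : Type*} [CommRing R] {L : (ℝ → R) → R → Prop} (h : Cv L) {n : ℕ}
    (M : ℝ → Matrix (Fin n) (Fin n) R) (M0 : Matrix (Fin n) (Fin n) R)
    (hM : ∀ i j, L (fun e => M e i j) (M0 i j)) :
    L (fun e => (M e).det) M0.det := by
  have h1 : L (fun e => ∑ σ : Equiv.Perm (Fin n), Equiv.Perm.sign σ • ∏ i, M e (σ i) i)
      (∑ σ : Equiv.Perm (Fin n), Equiv.Perm.sign σ • ∏ i, M0 (σ i) i) := by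
    refine h.sum _ _ _ fun σ _ => ?_
    have h2 := h.prod Finset.univ (fun i e => M e (σ i) i) (fun i => M0 (σ i) i)
      fun i _ => hM (σ i) i
    rcases Int.units_eq_one_or (Equiv.Perm.sign σ) with h3 | h3
    · rw [h3]
      simpa using h2
    · rw [h3]
      simpa using h.neg _ _ h2
  have h2 : (fun e => (M e).det) =
      fun e => ∑ σ : Equiv.Perm (Fin n), Equiv.Perm.sign σ • ∏ i, M e (σ i) i := by
    funext e
    exact Matrix.det_apply _
  rw [h2, Matrix.det_apply]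
  exact h1

theorem Cv.res {R : Type*} [CommRing R] {L : (ℝ → R) → R → Prop} (h : Cv L)
    (f g : ℝ → R[X]) (f0 g0 : R[X]) (hf : ∀ k, L (fun e => (f e).coeff k) (f0.coeff k))
    (hg : ∀ k, L (fun e => (g e).coeff k) (g0.coeff k)) (m n : ℕ) :
    L (fun e => resultant (f e) (g e) m n) (resultant f0 g0 m n) := by
  unfold resultant
  refine h.det _ _ fun i j => ?_
  unfold sylvester
  simp only [Matrix.of_apply]
  induction j using Fin.addCases with
  | left j =>
    simp only [Fin.addCases_left]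
    by_cases hc : (i : ℕ) ∈ Set.Icc (j : ℕ) (j + n)
    · simp only [if_pos hc]
      exact hg _
    · simp only [if_neg hc]
      exact h.const 0
  | right j =>
    simp only [Fin.addCases_right]
    by_cases hc : (i : ℕ) ∈ Set.Icc (j : ℕ) (j + m)
    · simp only [if_pos hc]
      exact hf _
    · simp only [if_neg hc]
      exact h.const 0

variable (Fl : Filter ℝ)

/-- convergence of real functions along the filter -/
theorem cvR : Cv (fun (f : ℝ → ℝ) r => Tendsto f Fl (𝓝 r)) where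
  const r := tendsto_const_nhds
  add _ _ _ _ h1 h2 := h1.add h2
  mul _ _ _ _ h1 h2 := h1.mul h2
  neg _ _ h1 := h1.neg

/-- coefficientwise convergence -/
def CT (f : ℝ → ℝ[X]) (f0 : ℝ[X]) : Prop :=
  ∀ k, Tendsto (fun e => (f e).coeff k) Fl (𝓝 (f0.coeff k))

theorem cvX : Cv (CT Fl) where
  const r := fun k => tendsto_const_nhds
  add f g r s h1 h2 := fun k => by
    simp only [coeff_add]
    exact (h1 k).add (h2 k)
  mul f g r s h1 h2 := fun k => by
    simp only [coeff_mul]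
    exact tendsto_finsetSum _ fun i _ => (h1 _).mul (h2 _)
  neg f r h1 := fun k => by
    simp only [coeff_neg]
    exact (h1 k).neg

theorem CT.C {a : ℝ → ℝ} {a0 : ℝ} (h : Tendsto a Fl (𝓝 a0)) :
    CT Fl (fun e => Polynomial.C (a e)) (Polynomial.C a0) := by
  intro k
  simp only [coeff_C]
  by_cases hk : k = 0
  · simp only [if_pos hk]
    exact h
  · simp only [if_neg hk]
    exact tendsto_const_nhds

theorem CT.pow {f : ℝ → ℝ[X]} {f0 : ℝ[X]} (h : CT Fl f f0) (n : ℕ) :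
    CT Fl (fun e => f e ^ n) (f0 ^ n) := by
  have := (cvX Fl).prod (Finset.range n) (fun _ => f) (fun _ => f0) fun _ _ => h
  simpa using this

theorem CT.sub {f g : ℝ → ℝ[X]} {f0 g0 : ℝ[X]} (h : CT Fl f f0) (h' : CT Fl g g0) :
    CT Fl (fun e => f e - g e) (f0 - g0) := by
  have := (cvX Fl).add _ _ _ _ h ((cvX Fl).neg _ _ h')
  simpa [sub_eq_add_neg] using this

theorem CT.quad {a b c : ℝ → ℝ} {a0 b0 c0 : ℝ} (ha : Tendsto a Fl (𝓝 a0))
    (hb : Tendsto b Fl (𝓝 b0)) (hc : Tendsto c Fl (𝓝 c0)) :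
    CT Fl (fun e => Polynomial.C (a e) * X ^ 2 + Polynomial.C (b e) * X + Polynomial.C (c e))
      (Polynomial.C a0 * X ^ 2 + Polynomial.C b0 * X + Polynomial.C c0) := by
  refine (cvX Fl).add _ _ _ _ ((cvX Fl).add _ _ _ _ ((cvX Fl).mul _ _ _ _ (CT.C Fl ha) ?_)
    ((cvX Fl).mul _ _ _ _ (CT.C Fl hb) ?_)) (CT.C Fl hc)
  · exact (cvX Fl).const _
  · exact (cvX Fl).const _

/-- the polynomial `MM` -/
theorem CT.MM (l a m d m' d' : ℝ[X]) {v z : ℝ → ℝ[X]} {v0 z0 : ℝ[X]} (hv : CT Fl v v0)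
    (hz : CT Fl z z0) :
    CT Fl (fun e => TH.MM l a m d m' d' (v e) (z e)) (TH.MM l a m d m' d' v0 z0) := by
  have hC : ∀ r : ℝ[X], CT Fl (fun _ => r) r := (cvX Fl).const
  have hA : ∀ {f g : ℝ → ℝ[X]} {r s : ℝ[X]}, CT Fl f r → CT Fl g s →
      CT Fl (fun e => f e + g e) (r + s) := fun h1 h2 => (cvX Fl).add _ _ _ _ h1 h2
  have hM : ∀ {f g : ℝ → ℝ[X]} {r s : ℝ[X]}, CT Fl f r → CT Fl g s →
      CT Fl (fun e => f e * g e) (r * s) := fun h1 h2 => (cvX Fl).mul _ _ _ _ h1 h2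
  have hN : ∀ {f : ℝ → ℝ[X]} {r : ℝ[X]}, CT Fl f r → CT Fl (fun e => -f e) (-r) :=
    fun h1 => (cvX Fl).neg _ _ h1
  have hS : ∀ {f g : ℝ → ℝ[X]} {r s : ℝ[X]}, CT Fl f r → CT Fl g s →
      CT Fl (fun e => f e - g e) (r - s) := fun h1 h2 => CT.sub Fl h1 h2
  have hP : ∀ {f : ℝ → ℝ[X]} {r : ℝ[X]}, CT Fl f r → CT Fl (fun e => f e ^ 2) (r ^ 2) :=
    fun h1 => CT.pow Fl h1 2
  have lin : ∀ {z : ℝ → ℝ[X]} {z0 : ℝ[X]}, CT Fl z z0 → ∀ m : ℝ[X],
      CT Fl (fun e => -(l * z e + m)) (-(l * z0 + m)) := fun hz m => hN (hA (hM (hC _) hz) (hC _))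
  have cub : ∀ {z : ℝ → ℝ[X]} {z0 : ℝ[X]}, CT Fl z z0 →
      CT Fl (fun e => -(a * z e * (z e + 1))) (-(a * z0 * (z0 + 1))) :=
    fun hz => hN (hM (hM (hC _) hz) (hA hz (hC _)))
  have qd : ∀ {z : ℝ → ℝ[X]} {z0 : ℝ[X]}, CT Fl z z0 → ∀ m d : ℝ[X],
      CT Fl (fun e => l * z e ^ 2 + (a + l + m - d) * z e + m)
        (l * z0 ^ 2 + (a + l + m - d) * z0 + m) := fun hz m d =>
    hA (hA (hM (hC _) (hP hz)) (hM (hC _) hz)) (hC _)
  unfold TH.MM
  exact hS (hP (hS (hM (lin hv m) (cub hz)) (hM (lin hz m') (cub hv))))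
    (hM (hS (hM (lin hv m) (qd hz m' d')) (hM (lin hz m') (qd hv m d)))
      (hS (hM (qd hv m d) (cub hz)) (hM (qd hz m' d') (cub hv))))

end ContRx

open ContRx

theorem taskContR : TaskContR := by
  intro P Fl a b c a' b' c' α a0 b0 c0 a0' b0' c0' α0 ha hb hc ha' hb' hc' hα
  refine ⟨?_, ?_, ?_⟩
  · refine (cvR Fl).res _ _ _ _ (CT.quad Fl ha hb hc) ?_ 2 4
    exact CT.MM Fl _ _ _ _ _ _ (CT.C Fl hα) ((cvX Fl).const _)
  · refine (cvR Fl).res _ _ _ _ (CT.quad Fl ha hb hc) ?_ 2 4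
    exact CT.MM Fl _ _ _ _ _ _ ((cvX Fl).const _) (CT.C Fl hα)
  · refine (cvR Fl).res _ _ _ _ (CT.quad Fl ha hb hc) ?_ 2 8
    refine (cvX Fl).res _ _ _ _ ?_ (fun k => (cvX Fl).const _) 2 4
    intro k
    simp only [coeff_map]
    exact CT.C Fl (CT.quad Fl ha' hb' hc' k)

end Pool.Agent.H771R3.TH
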