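import Pool.Agent.H771R3.TH.Stmts

set_option autoImplicit false

/-!
Task E of the project TH: the norm function is nonnegative at the fixed points of the symmetry.
-/

namespace Pool.Agent.H771R3.TH

open Polynomial

namespace TaskEAux

/-- symmetric part of `MM / (z w)^2` -/
noncomputable def al (l a k k' mu nu : ℝ) (y u : ℂ) : ℂ :=
  (l : ℂ) ^ 2 * a ^ 2 * ((2 + y) ^ 2 * (u ^ 2 - 4 * nu) + (2 + u) ^ 2 * (y ^ 2 - 4 * mu)) / 4
    - l * a * ((l * y + k) * (l * u + k') * ((2 + y) * (2 + u)) / 2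
      - (l * u + k') ^ 2 * (1 + y + mu) - (l * y + k) ^ 2 * (1 + u + nu))

/-- coefficient of the antisymmetric part -/
noncomputable def be (l a k k' : ℝ) (y u : ℂ) : ℂ :=
  -((l : ℂ) ^ 2 * a ^ 2 * ((2 + y) * (2 + u)) / 2) + l * a * ((l * y + k) * (l * u + k')) / 2

noncomputable def HH (l a k k' mu nu : ℝ) (y u : ℂ) : ℂ :=
  (al l a k k' mu nu y u) ^ 2 - (be l a k k' y u) ^ 2 * ((y ^ 2 - 4 * mu) * (u ^ 2 - 4 * nu))

lemma MM_eq (l a mu d nu d' : ℝ) (z w : ℂ) (hz : z ≠ 0) (hw : w ≠ 0) :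
    MM (l : ℂ) a (l * mu) d (l * nu) d' z w =
      z ^ 2 * w ^ 2 * (al l a (a + l + l * mu - d) (a + l + l * nu - d') mu nu (z + mu / z) (w + nu / w)
        + be l a (a + l + l * mu - d) (a + l + l * nu - d') (z + mu / z) (w + nu / w) *
          ((z - mu / z) * (w - nu / w))) := by
  unfold MM al be
  push_cast
  field_simp
  ring

lemma conj_HH (l a k k' mu nu : ℝ) (y u : ℂ) :
    (starRingEnd ℂ) (HH l a k k' mu nu y u) =
      HH l a k k' mu nu ((starRingEnd ℂ) y) ((starRingEnd ℂ) u) := by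
  unfold HH al be
  simp only [map_sub, map_add, map_mul, map_pow, map_neg, map_div₀, Complex.conj_ofReal,
    map_ofNat, map_one]

/-- the product over an orbit pair -/
lemma four (l a mu d nu d' : ℝ) (hmu : mu ≠ 0) (hnu : nu ≠ 0) (r s : ℂ) (hr : r ≠ 0) (hs : s ≠ 0) :
    MM (l : ℂ) a (l * mu) d (l * nu) d' r s * MM (l : ℂ) a (l * mu) d (l * nu) d' r (nu / s) *
      (MM (l : ℂ) a (l * mu) d (l * nu) d' (mu / r) s *
        MM (l : ℂ) a (l * mu) d (l * nu) d' (mu / r) (nu / s)) =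
      (mu ^ 2 * nu ^ 2 * HH l a (a + l + l * mu - d) (a + l + l * nu - d') mu nu
        (r + mu / r) (s + nu / s)) ^ 2 := by
  have hmu' : (mu : ℂ) ≠ 0 := by exact_mod_cast hmu
  have hnu' : (nu : ℂ) ≠ 0 := by exact_mod_cast hnu
  have h1 : (mu : ℂ) / r ≠ 0 := div_ne_zero hmu' hr
  have h2 : (nu : ℂ) / s ≠ 0 := div_ne_zero hnu' hs
  rw [MM_eq l a mu d nu d' r s hr hs, MM_eq l a mu d nu d' r _ hr h2,
    MM_eq l a mu d nu d' _ s h1 hs, MM_eq l a mu d nu d' _ _ h1 h2]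
  have e1 : (mu : ℂ) / (mu / r) = r := by field_simp
  have e2 : (nu : ℂ) / (nu / s) = s := by field_simp
  rw [e1, e2, add_comm ((mu : ℂ) / r) r, add_comm ((nu : ℂ) / s) s]
  unfold HH
  generalize al l a (a + l + l * mu - d) (a + l + l * nu - d') mu nu (r + mu / r) (s + nu / s) = A
  generalize be l a (a + l + l * mu - d) (a + l + l * nu - d') (r + mu / r) (s + nu / s) = B
  have e3 : (r + mu / r) ^ 2 - 4 * mu = (r - mu / r) ^ 2 := by field_simp; ring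
  have e4 : (s + nu / s) ^ 2 - 4 * nu = (s - nu / s) ^ 2 := by field_simp; ring
  rw [e3, e4]
  have e5 : r ^ 2 * (mu / r) ^ 2 = (mu : ℂ) ^ 2 := by field_simp
  have e6 : s ^ 2 * (nu / s) ^ 2 = (nu : ℂ) ^ 2 := by field_simp
  rw [← e5, ← e6]
  ring

/-- the quadratic structure at the fixed point -/
lemma quad (l a f d nu d' : ℝ) : ∃ A2 A1 A0 : ℝ,
    A2 * f ^ 2 = -a * (l * f + l * f ^ 2) * (l * f ^ 2 * (l + l * f - a) - l * d * f) ∧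
    ∀ z : ℂ, MM (l : ℂ) a (l * f ^ 2) d (l * nu) d' f z =
      f ^ 2 * (A2 * (z ^ 2 + nu) ^ 2 + A1 * (z * (z ^ 2 + nu)) + A0 * z ^ 2) := by
  refine ⟨l ^ 2 * a ^ 2 * (1 + f) ^ 2 - l * a * ((2 * l * f + (a + l + l * f ^ 2 - d)) * l * (1 + f)
      - l ^ 2 * (1 + f) ^ 2),
    -(l * a * ((2 * l * f + (a + l + l * f ^ 2 - d)) * (1 + f) * (2 * l + (a + l + l * nu - d'))
      - 2 * l * (a + l + l * nu - d') * (1 + f) ^ 2 - (2 * l * f + (a + l + l * f ^ 2 - d)) ^ 2)),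
    -(4 * nu * l ^ 2 * a ^ 2 * (1 + f) ^ 2)
      - l * a * (2 * (2 * l * f + (a + l + l * f ^ 2 - d)) * (a + l + l * nu - d') * (1 + f)
      - (a + l + l * nu - d') ^ 2 * (1 + f) ^ 2
      - (2 * l * f + (a + l + l * f ^ 2 - d)) ^ 2 * (1 + nu)), by ring, fun z => ?_⟩
  unfold MM
  push_cast
  ring

/-- real or conjugate -/
def Cj (y0 y1 : ℂ) : Prop :=
  ((starRingEnd ℂ) y0 = y0 ∧ (starRingEnd ℂ) y1 = y1) ∨
    ((starRingEnd ℂ) y0 = y1 ∧ (starRingEnd ℂ) y1 = y0)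

lemma roots2 (A2 A1 A0 : ℝ) (hA : A2 ≠ 0) : ∃ y0 y1 : ℂ, Cj y0 y1 ∧
    ∀ y : ℂ, A2 * y ^ 2 + A1 * y + A0 = A2 * ((y - y0) * (y - y1)) := by
  have hA' : (A2 : ℂ) ≠ 0 := by exact_mod_cast hA
  by_cases hD : 0 ≤ A1 ^ 2 - 4 * A2 * A0
  · refine ⟨(((-A1 + √(A1 ^ 2 - 4 * A2 * A0)) / (2 * A2) : ℝ) : ℂ),
      (((-A1 - √(A1 ^ 2 - 4 * A2 * A0)) / (2 * A2) : ℝ) : ℂ), Or.inl ⟨Complex.conj_ofReal _,
      Complex.conj_ofReal _⟩, fun y => ?_⟩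
    have h1 : ((√(A1 ^ 2 - 4 * A2 * A0) : ℝ) : ℂ) ^ 2 = A1 ^ 2 - 4 * A2 * A0 := by
      exact_mod_cast Real.sq_sqrt hD
    push_cast
    generalize ((√(A1 ^ 2 - 4 * A2 * A0) : ℝ) : ℂ) = S at h1
    field_simp
    linear_combination h1
  · have hD' : 0 ≤ -(A1 ^ 2 - 4 * A2 * A0) := by linarith
    refine ⟨((-A1 / (2 * A2) : ℝ) : ℂ) + ((√(-(A1 ^ 2 - 4 * A2 * A0)) / (2 * A2) : ℝ) : ℂ) * Complex.I,
      ((-A1 / (2 * A2) : ℝ) : ℂ) - ((√(-(A1 ^ 2 - 4 * A2 * A0)) / (2 * A2) : ℝ) : ℂ) * Complex.I,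
      Or.inr ⟨?_, ?_⟩, fun y => ?_⟩
    · rw [map_add, map_mul, Complex.conj_ofReal, Complex.conj_ofReal, Complex.conj_I]
      ring
    · rw [map_sub, map_mul, Complex.conj_ofReal, Complex.conj_ofReal, Complex.conj_I]
      ring
    · have h1 : ((√(-(A1 ^ 2 - 4 * A2 * A0)) : ℝ) : ℂ) ^ 2 = -(A1 ^ 2 - 4 * A2 * A0) := by
        exact_mod_cast Real.sq_sqrt hD'
      push_cast
      generalize ((√(-(A1 ^ 2 - 4 * A2 * A0)) : ℝ) : ℂ) = S at h1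
      have hI := Complex.I_sq
      field_simp
      linear_combination -h1 + S ^ 2 * hI

lemma half (nu : ℝ) (hnu : nu ≠ 0) (y : ℂ) : ∃ r : ℂ, r ≠ 0 ∧ r + nu / r = y := by
  have hnu' : (nu : ℂ) ≠ 0 := by exact_mod_cast hnu
  obtain ⟨s, hs⟩ := IsAlgClosed.exists_pow_nat_eq (y ^ 2 - 4 * nu) (n := 2) (by norm_num)
  have h1 : ((y + s) / 2) ^ 2 - y * ((y + s) / 2) + nu = 0 := by linear_combination hs / 4
  have h2 : (y + s) / 2 ≠ 0 := by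
    intro h
    rw [h] at h1
    apply hnu'
    linear_combination h1
  refine ⟨(y + s) / 2, h2, ?_⟩
  generalize (y + s) / 2 = r at h1 h2
  field_simp
  linear_combination h1

/-- the factorisation of `MM` at the fixed point -/
lemma fac (l a f d nu d' : ℝ) (hnu : nu ≠ 0)
    (hc : -a * (l * f + l * f ^ 2) * (l * f ^ 2 * (l + l * f - a) - l * d * f) ≠ 0) :
    ∃ (c : ℝ) (r0 r1 : ℂ), r0 ≠ 0 ∧ r1 ≠ 0 ∧ Cj (r0 + nu / r0) (r1 + nu / r1) ∧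
      ∀ z : ℂ, MM (l : ℂ) a (l * f ^ 2) d (l * nu) d' f z =
        c * ((z - r0) * (z - nu / r0) * (z - r1) * (z - nu / r1)) := by
  obtain ⟨A2, A1, A0, h1, h2⟩ := quad l a f d nu d'
  have hA : A2 ≠ 0 := by
    rintro rfl
    apply hc
    rw [← h1, zero_mul]
  obtain ⟨y0, y1, hy, h3⟩ := roots2 A2 A1 A0 hA
  obtain ⟨r0, hr0, h4⟩ := half nu hnu y0
  obtain ⟨r1, hr1, h5⟩ := half nu hnu y1
  refine ⟨f ^ 2 * A2, r0, r1, hr0, hr1, by rw [h4, h5]; exact hy, fun z => ?_⟩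
  rw [h2 z]
  have h6 : ∀ z : ℂ, (A2 : ℂ) * (z ^ 2 + nu) ^ 2 + A1 * (z * (z ^ 2 + nu)) + A0 * z ^ 2 =
      A2 * ((z ^ 2 + nu - y0 * z) * (z ^ 2 + nu - y1 * z)) := by
    intro z
    by_cases hz : z = 0
    · subst hz; ring
    · have h7 := h3 ((z ^ 2 + nu) / z)
      field_simp at h7
      linear_combination h7
  rw [h6 z]
  have h8 : z ^ 2 + nu - y0 * z = (z - r0) * (z - nu / r0) := by
    rw [← h4]; field_simp; ring
  have h9 : z ^ 2 + nu - y1 * z = (z - r1) * (z - nu / r1) := by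
    rw [← h5]; field_simp; ring
  rw [h8, h9]
  push_cast
  ring

end TaskEAux

open TaskEAux in
theorem taskE : TaskE := by
  intro hProd hNat hLead P hP f hf h5 h7
  obtain ⟨hl, ha5, ha6, ha7, hm2, hm3, hm4⟩ := hP
  have hl0 : P.l ≠ 0 := hl.ne'
  have hf0 : f ≠ 0 := by
    rintro rfl
    rw [zero_pow two_ne_zero, mul_zero] at hf
    exact hm2.ne hf
  obtain ⟨-, -, -, -, -, -, -, -, -, -, hc5, hc7⟩ := hLead ℝ P f
  rw [hc5] at h5
  rw [hc7] at h7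
  set nu : ℝ := P.m3 / P.l with hnu
  set nu' : ℝ := P.m4 / P.l with hnu'
  have hnu0 : nu ≠ 0 := div_ne_zero hm3.ne' hl0
  have hnu0' : nu' ≠ 0 := div_ne_zero hm4.ne' hl0
  have em3 : P.m3 = P.l * nu := by rw [hnu]; field_simp
  have em4 : P.m4 = P.l * nu' := by rw [hnu']; field_simp
  obtain ⟨c5, r0, r1, hr0, hr1, hry, hr⟩ := fac P.l P.a5 f P.d25 nu P.d35 hnu0 (by
    intro h
    apply h5
    rw [← hf]
    linear_combination h)
  obtain ⟨c7, s0, s1, hs0, hs1, hsy, hs⟩ := fac P.l P.a7 f P.d27 nu' P.d47 hnu0' (by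
    intro h
    apply h7
    rw [← hf]
    linear_combination h)
  obtain ⟨-, -, -, -, -, hev5, hev7, -, -, -, -, -⟩ := hLead ℂ (PC P) (f : ℂ)
  have hP5 : M5p (PC P) (f : ℂ) = C (c5 : ℂ) * ∏ i, (X - C ((![r0, nu / r0, r1, nu / r1] : Fin 4 → ℂ) i)) := by
    apply Polynomial.funext
    intro z
    rw [hev5 z, Fin.prod_univ_four]
    simp only [eval_mul, eval_C, eval_sub, eval_X]
    have h := hr z
    have e : M5 (PC P) (f : ℂ) z = MM (P.l : ℂ) P.a5 P.m2 P.d25 P.m3 P.d35 f z := rfl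
    rw [e, ← hf, em3]
    push_cast
    exact h
  have hP7 : M7p (PC P) (f : ℂ) = C (c7 : ℂ) * ∏ i, (X - C ((![s0, nu' / s0, s1, nu' / s1] : Fin 4 → ℂ) i)) := by
    apply Polynomial.funext
    intro z
    rw [hev7 z, Fin.prod_univ_four]
    simp only [eval_mul, eval_C, eval_sub, eval_X]
    have h := hs z
    have e : M7 (PC P) (f : ℂ) z = MM (P.l : ℂ) P.a7 P.m2 P.d27 P.m4 P.d47 f z := rfl
    rw [e, ← hf, em4]
    push_cast
    exact h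
  have hG := hProd ℂ (PC P) (f : ℂ) _ _ _ _ hP5 hP7
  have hN : G (PC P) (f : ℂ) = ((G P f : ℝ) : ℂ) := hNat ℝ ℂ (algebraMap ℝ ℂ) P f
  have e6 : ∀ z w : ℂ, M6 (PC P) z w = MM (P.l : ℂ) P.a6 (P.l * nu) P.d36 (P.l * nu') P.d46 z w := by
    intro z w
    have e : M6 (PC P) z w = MM (P.l : ℂ) P.a6 P.m3 P.d36 P.m4 P.d46 z w := rfl
    rw [e, em3, em4]
    push_cast
    rfl
  set H : ℂ → ℂ → ℂ := HH P.l P.a6 (P.a6 + P.l + P.l * nu - P.d36) (P.a6 + P.l + P.l * nu' - P.d46) nu nu' with hH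
  set W : ℂ := H (r0 + nu / r0) (s0 + nu' / s0) * H (r0 + nu / r0) (s1 + nu' / s1) *
    (H (r1 + nu / r1) (s0 + nu' / s0) * H (r1 + nu / r1) (s1 + nu' / s1)) with hW
  have hWc : (starRingEnd ℂ) W = W := by
    rw [hW]
    simp only [map_mul]
    have hc : ∀ y u, (starRingEnd ℂ) (H y u) = H ((starRingEnd ℂ) y) ((starRingEnd ℂ) u) :=
      fun y u => conj_HH _ _ _ _ _ _ y u
    simp only [hc]
    rcases hry with ⟨a1, a2⟩ | ⟨a1, a2⟩ <;> rcases hsy with ⟨b1, b2⟩ | ⟨b1, b2⟩ <;>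
      rw [a1, a2, b1, b2] <;> ring
  obtain ⟨w, hw⟩ := Complex.conj_eq_iff_real.mp hWc
  have key : ((G P f : ℝ) : ℂ) = (((c5 ^ 8 * c7 ^ 8 * (nu ^ 8 * nu' ^ 8) * w) ^ 2 : ℝ) : ℂ) := by
    rw [← hN, hG]
    simp only [Fin.prod_univ_four, Matrix.cons_val_zero, Matrix.cons_val_one, Matrix.cons_val,
      e6]
    have f00 := four P.l P.a6 nu P.d36 nu' P.d46 hnu0 hnu0' r0 s0 hr0 hs0
    have f01 := four P.l P.a6 nu P.d36 nu' P.d46 hnu0 hnu0' r0 s1 hr0 hs1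
    have f10 := four P.l P.a6 nu P.d36 nu' P.d46 hnu0 hnu0' r1 s0 hr1 hs0
    have f11 := four P.l P.a6 nu P.d36 nu' P.d46 hnu0 hnu0' r1 s1 hr1 hs1
    rw [← hH] at f00 f01 f10 f11
    have e : ∀ (M : ℂ → ℂ → ℂ) (x0 x1 x2 x3 t0 t1 t2 t3 : ℂ) (F1 F2 F3 F4 : ℂ),
        M x0 t0 * M x0 t1 * (M x1 t0 * M x1 t1) = F1 →
        M x0 t2 * M x0 t3 * (M x1 t2 * M x1 t3) = F2 →
        M x2 t0 * M x2 t1 * (M x3 t0 * M x3 t1) = F3 →
        M x2 t2 * M x2 t3 * (M x3 t2 * M x3 t3) = F4 →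
        (M x0 t0 * M x0 t1 * M x0 t2 * M x0 t3) * (M x1 t0 * M x1 t1 * M x1 t2 * M x1 t3) *
        (M x2 t0 * M x2 t1 * M x2 t2 * M x2 t3) * (M x3 t0 * M x3 t1 * M x3 t2 * M x3 t3) =
        F1 * F2 * (F3 * F4) := by
      intro M x0 x1 x2 x3 t0 t1 t2 t3 F1 F2 F3 F4 g1 g2 g3 g4
      rw [← g1, ← g2, ← g3, ← g4]
      ring
    rw [e _ _ _ _ _ _ _ _ _ _ _ _ _ f00 f01 f10 f11]
    push_cast
    rw [← hw, hW]
    ring
  have key2 : G P f = (c5 ^ 8 * c7 ^ 8 * (nu ^ 8 * nu' ^ 8) * w) ^ 2 := by exact_mod_cast key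
  rw [key2]
  positivity

end Pool.Agent.H771R3.TH
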