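import Pool.Agent.H771R3.TH.Stmts

set_option autoImplicit false

/-! Task Ex (helper412): existence of a generic point. -/

namespace Pool.Agent.H771R3.TH

open Cardinal in
theorem exists_algInd (ι : Type) [Finite ι] : ∃ f : ι → ℝ, AlgebraicIndependent ℚ f := by
  obtain ⟨s, hs⟩ := exists_isTranscendenceBasis ℚ ℝ
  have hinf : Infinite s := by
    by_contra hfin
    rw [not_infinite_iff_finite] at hfin
    have halg : Algebra.IsAlgebraic (Algebra.adjoin ℚ (Set.range ((↑) : s → ℝ))) ℝ := hs.isAlgebraic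
    have h1 : #(Algebra.adjoin ℚ (Set.range ((↑) : s → ℝ))) ≤ ℵ₀ := by
      have h2 : #(MvPolynomial s ℚ) ≤ ℵ₀ := by
        refine MvPolynomial.cardinalMk_le_max.trans ?_
        refine max_le (max_le ?_ ?_) le_rfl
        · exact Cardinal.mk_le_aleph0
        · exact Cardinal.mk_le_aleph0
      refine le_trans ?_ h2
      have h3 := hs.1.aevalEquiv.symm.toEquiv.cardinal_eq
      exact h3.le
    have h4 : #ℝ ≤ max #(Algebra.adjoin ℚ (Set.range ((↑) : s → ℝ))) ℵ₀ :=
      Algebra.IsAlgebraic.cardinalMk_le_max _ _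
    have h5 : #ℝ ≤ ℵ₀ := h4.trans (max_le h1 le_rfl)
    rw [Cardinal.mk_real] at h5
    exact absurd h5 (not_le.2 Cardinal.aleph0_lt_continuum)
  obtain ⟨e⟩ : Nonempty (ι ↪ s) := by
    obtain ⟨n, ⟨e⟩⟩ := Finite.exists_equiv_fin ι
    exact ⟨e.toEmbedding.trans ⟨fun i : Fin n => (Infinite.natEmbedding s) i.1,
      fun i j h => Fin.ext ((Infinite.natEmbedding s).injective h)⟩⟩
  exact ⟨fun i => (e i : ℝ), hs.1.comp e e.injective⟩

theorem taskEx : TaskEx := by
  obtain ⟨f, hf⟩ := exists_algInd (Fin 8 × Fin 2)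
  exact ⟨fun i k => f (i, k), hf⟩

end Pool.Agent.H771R3.TH
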