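import Pool.Agent.H771R3.TH.Stmts

/-!
# Task Fin: finiteness of the set of solutions
-/

set_option autoImplicit false

namespace Pool.Agent.H771R3.TH

open Polynomial Filter Topology

theorem Fin_quad (p q r : ℂ) (h : p ≠ 0 ∨ q ≠ 0 ∨ r ≠ 0) :
    {x : ℂ | p * x ^ 2 + q * x + r = 0}.Finite := by
  have hne : (C p * X ^ 2 + C q * X + C r : ℂ[X]) ≠ 0 := by
    intro h0
    have c2 := congrArg (fun f => f.coeff 2) h0
    have c1 := congrArg (fun f => f.coeff 1) h0
    have c0 := congrArg (fun f => f.coeff 0) h0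
    simp [coeff_X, coeff_C] at c2 c1 c0
    rcases h with h | h | h
    exacts [h c2, h c1, h c0]
  refine (Polynomial.finite_setOfPred_isRoot hne).subset ?_
  intro x hx
  have hx' : p * x ^ 2 + q * x + r = 0 := hx
  change IsRoot _ x
  rw [IsRoot.def]
  simpa using hx'

theorem Fin_x (l a m d z : ℂ) (ha : a ≠ 0) (hm : m ≠ l) :
    {x : ℂ | z ≠ 0 ∧ F l a m d x z = 0}.Finite := by
  by_cases hz : z = 0
  · have : {x : ℂ | z ≠ 0 ∧ F l a m d x z = 0} = ∅ := by
      ext x
      simp [hz]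
    rw [this]
    exact Set.finite_empty
  · refine (Fin_quad (-(l * z + m)) (a * z + (1 + z) * (l * z + m) - d * z) (-((1 + z) * a * z))
      ?_).subset ?_
    · by_contra hcon
      push Not at hcon
      obtain ⟨h1, -, h3⟩ := hcon
      have h4 : z = -1 := by
        rcases mul_eq_zero.1 (neg_eq_zero.1 h3) with h5 | h5
        · rcases mul_eq_zero.1 h5 with h6 | h6
          · linear_combination h6
          · exact absurd h6 ha
        · exact absurd h5 hz
      rw [h4] at h1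
      apply hm
      linear_combination -h1
    · rintro x ⟨-, hx⟩
      change -(l * z + m) * x ^ 2 + (a * z + (1 + z) * (l * z + m) - d * z) * x +
        -((1 + z) * a * z) = 0
      unfold F at hx
      linear_combination hx

theorem Fin_z (l a m d x : ℂ) (hm : m ≠ 0) (ha : a ≠ l) :
    {z : ℂ | x ≠ 0 ∧ F l a m d x z = 0}.Finite := by
  by_cases hx : x = 0
  · have : {z : ℂ | x ≠ 0 ∧ F l a m d x z = 0} = ∅ := by
      ext z
      simp [hx]
    rw [this]
    exact Set.finite_empty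
  · refine (Fin_quad (-(a - l * x)) ((x - 1) * (a - l * x) + m * x - d * x) (-(m * x * (x - 1)))
      ?_).subset ?_
    · by_contra hcon
      push Not at hcon
      obtain ⟨h1, -, h3⟩ := hcon
      have h4 : x = 1 := by
        rcases mul_eq_zero.1 (neg_eq_zero.1 h3) with h5 | h5
        · rcases mul_eq_zero.1 h5 with h6 | h6
          · exact absurd h6 hm
          · exact absurd h6 hx
        · linear_combination h5
      rw [h4] at h1
      apply ha
      linear_combination -h1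
    · rintro z ⟨-, hz⟩
      change -(a - l * x) * z ^ 2 + ((x - 1) * (a - l * x) + m * x - d * x) * z +
        -(m * x * (x - 1)) = 0
      unfold F at hz
      linear_combination hz

theorem Fin_par (P : Par ℂ) (z : ℂ) : (P.map C).map (evalRingHom z) = P := by
  cases P
  simp [Par.map]

theorem taskFin : TaskFin := by
  intro hNat hSol P hP ⟨c, hc, hlim⟩
  -- genericity
  have hinj := hP.injective
  have hnz := fun i => hP.ne_zero i
  have toC : ∀ x y : ℝ, x ≠ y → (algebraMap ℝ ℂ) x ≠ (algebraMap ℝ ℂ) y := by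
    intro x y hxy h
    exact hxy ((algebraMap ℝ ℂ).injective h)
  have toC0 : ∀ x : ℝ, x ≠ 0 → (algebraMap ℝ ℂ) x ≠ 0 := by
    intro x hx h
    apply hx
    apply (algebraMap ℝ ℂ).injective
    rw [h, map_zero]
  have a5 : (PC P).a5 ≠ 0 := toC0 _ (by simpa using hnz 1)
  have a6 : (PC P).a6 ≠ 0 := toC0 _ (by simpa using hnz 2)
  have a7 : (PC P).a7 ≠ 0 := toC0 _ (by simpa using hnz 3)
  have m3 : (PC P).m3 ≠ 0 := toC0 _ (by simpa using hnz 5)
  have m4 : (PC P).m4 ≠ 0 := toC0 _ (by simpa using hnz 6)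
  have m2l : (PC P).m2 ≠ (PC P).l := toC _ _ (fun h => by
    have := hinj (a₁ := 4) (a₂ := 0) (by simpa using h)
    exact absurd this (by decide))
  have m3l : (PC P).m3 ≠ (PC P).l := toC _ _ (fun h => by
    have := hinj (a₁ := 5) (a₂ := 0) (by simpa using h)
    exact absurd this (by decide))
  have a5l : (PC P).a5 ≠ (PC P).l := toC _ _ (fun h => by
    have := hinj (a₁ := 1) (a₂ := 0) (by simpa using h)
    exact absurd this (by decide))
  have a7l : (PC P).a7 ≠ (PC P).l := toC _ _ (fun h => by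
    have := hinj (a₁ := 3) (a₂ := 0) (by simpa using h)
    exact absurd this (by decide))
  -- the polynomial
  set g : ℂ[X] := G ((PC P).map C) X with hg
  have hev : ∀ z : ℂ, g.eval z = G (PC P) z := by
    intro z
    have h1 := hNat ℂ[X] ℂ (evalRingHom z) ((PC P).map C) X
    rw [Fin_par, coe_evalRingHom, eval_X] at h1
    exact h1.symm
  have hg0 : g ≠ 0 := by
    intro h0
    apply hc
    have h1 : ∀ v : ℝ, G P v = 0 := by
      intro v
      have h2 := hNat ℝ ℂ (algebraMap ℝ ℂ) P v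
      have h3 := hev (algebraMap ℝ ℂ v)
      rw [h0, eval_zero] at h3
      have h4 : (algebraMap ℝ ℂ) (G P v) = 0 := by
        rw [← h2]
        exact h3.symm
      apply (algebraMap ℝ ℂ).injective
      rw [h4, map_zero]
    have h5 : (fun v => G P v / v ^ 14) = fun _ => 0 := by
      funext v
      rw [h1, zero_div]
    rw [h5] at hlim
    exact (tendsto_nhds_unique hlim tendsto_const_nhds)
  have hfin2 : {z : ℂ | IsRoot g z}.Finite := Polynomial.finite_setOfPred_isRoot hg0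
  -- the covering
  have hcov : {s : Fin 6 → ℂ | Sol (PC P) (s 0) (s 1) (s 2) (s 3) (s 4) (s 5)} ⊆
      ⋃ z2 ∈ {z : ℂ | IsRoot g z},
      ⋃ x5 ∈ {x : ℂ | z2 ≠ 0 ∧ F (PC P).l (PC P).a5 (PC P).m2 (PC P).d25 x z2 = 0},
      ⋃ x7 ∈ {x : ℂ | z2 ≠ 0 ∧ F (PC P).l (PC P).a7 (PC P).m2 (PC P).d27 x z2 = 0},
      ⋃ z3 ∈ {z : ℂ | x5 ≠ 0 ∧ F (PC P).l (PC P).a5 (PC P).m3 (PC P).d35 x5 z = 0},
      ⋃ z4 ∈ {z : ℂ | x7 ≠ 0 ∧ F (PC P).l (PC P).a7 (PC P).m4 (PC P).d47 x7 z = 0},
      ⋃ x6 ∈ {x : ℂ | z3 ≠ 0 ∧ F (PC P).l (PC P).a6 (PC P).m3 (PC P).d36 x z3 = 0},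
      {![x5, x6, x7, z2, z3, z4]} := by
    intro s hs
    have hs' : Sol (PC P) (s 0) (s 1) (s 2) (s 3) (s 4) (s 5) := hs
    have hG := hSol (PC P) _ _ _ _ _ _ hs'
    obtain ⟨⟨h0, h1, h2, h3, h4, h5⟩, e1, e2, e3, e4, e5, e6⟩ := hs'
    have hroot : IsRoot g (s 3) := by
      rw [IsRoot.def, hev]
      exact hG
    simp only [Set.mem_iUnion, Set.mem_singleton_iff]
    refine ⟨s 3, hroot, s 0, ⟨h3, e1⟩, s 2, ⟨h3, e6⟩, s 4, ⟨h0, e2⟩, s 5, ⟨h2, e5⟩, s 1,
      ⟨h4, e3⟩, ?_⟩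
    funext i
    fin_cases i <;> rfl
  refine Set.Finite.subset ?_ hcov
  refine hfin2.biUnion fun z2 _ => ?_
  refine (Fin_x _ _ _ _ z2 a5 m2l).biUnion fun x5 _ => ?_
  refine (Fin_x _ _ _ _ z2 a7 m2l).biUnion fun x7 _ => ?_
  refine (Fin_z _ _ _ _ x5 m3 a5l).biUnion fun z3 _ => ?_
  refine (Fin_z _ _ _ _ x7 m4 a7l).biUnion fun z4 _ => ?_
  refine (Fin_x _ _ _ _ z3 a6 m3l).biUnion fun x6 _ => ?_
  exact Set.finite_singleton _

end Pool.Agent.H771R3.TH
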