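import Pool.Agent.H771R3.TH.Stmts

set_option autoImplicit false

/-! Common zeros at `v = -1`: the dimension count. -/

namespace Pool.Agent.H771R3.TH

namespace G2aux

/-- generated by twelve numbers -/
def Small (K : IntermediateField ℚ ℂ) : Prop :=
  ∃ s : Fin 12 → ℂ, K = IntermediateField.adjoin ℚ (Set.range s)

lemma ex12 (s0 s1 s2 s3 s4 s5 s6 s7 s8 s9 s10 s11 : ℂ) :
    ∃ K : IntermediateField ℚ ℂ, Small K ∧ s0 ∈ K ∧ s1 ∈ K ∧ s2 ∈ K ∧ s3 ∈ K ∧ s4 ∈ K ∧ s5 ∈ K ∧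
      s6 ∈ K ∧ s7 ∈ K ∧ s8 ∈ K ∧ s9 ∈ K ∧ s10 ∈ K ∧ s11 ∈ K := by
  set s : Fin 12 → ℂ := ![s0, s1, s2, s3, s4, s5, s6, s7, s8, s9, s10, s11] with hs
  have h : ∀ i, s i ∈ IntermediateField.adjoin ℚ (Set.range s) := fun i =>
    IntermediateField.subset_adjoin ℚ _ ⟨i, rfl⟩
  exact ⟨_, ⟨s, rfl⟩, h 0, h 1, h 2, h 3, h 4, h 5, h 6, h 7, h 8, h 9, h 10, h 11⟩

lemma d_mem (K : IntermediateField ℚ ℂ) {l a m d x z : ℂ} (hl : l ∈ K) (ha : a ∈ K) (hm : m ∈ K)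
    (hx : x ∈ K) (hz : z ∈ K) (hx0 : x ≠ 0) (hz0 : z ≠ 0) (hF : F l a m d x z = 0) : d ∈ K := by
  have h : d = (x - 1 - z) * (a * z - l * x * z - m * x) / (x * z) := by
    rw [eq_div_iff (mul_ne_zero hx0 hz0)]
    unfold F at hF
    linear_combination -hF
  rw [h]
  exact K.div_mem (K.mul_mem (K.sub_mem (K.sub_mem hx K.one_mem) hz)
    (K.sub_mem (K.sub_mem (K.mul_mem ha hz) (K.mul_mem (K.mul_mem hl hx) hz)) (K.mul_mem hm hx)))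
    (K.mul_mem hx hz)

/-- at `v = -1` -/
lemma at_neg {l a m d x : ℂ} (h : F l a m d x (-1) = 0) : x = 0 ∨ (l - m) * x = a - d := by
  unfold F at h
  have h1 : x * ((l - m) * x - (a - d)) = 0 := by linear_combination h
  rcases mul_eq_zero.1 h1 with h2 | h2
  · exact Or.inl h2
  · exact Or.inr (sub_eq_zero.1 h2)

/-- at `x = 0` -/
lemma at_zero {l a m d z : ℂ} (ha : a ≠ 0) (h : F l a m d 0 z = 0) : z = 0 ∨ z = -1 := by
  unfold F at h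
  have h1 : a * (z * (z + 1)) = 0 := by linear_combination -h
  rcases mul_eq_zero.1 h1 with h2 | h2
  · exact absurd h2 ha
  rcases mul_eq_zero.1 h2 with h3 | h3
  · exact Or.inl h3
  · exact Or.inr (by linear_combination h3)

/-- not all thirteen numbers are in a field generated by twelve -/
def Hyp (l a5 a6 a7 m2 m3 m4 d25 d27 d35 d36 d46 d47 : ℂ) : Prop :=
  ∀ K : IntermediateField ℚ ℂ, Small K → l ∈ K → a5 ∈ K → a6 ∈ K → a7 ∈ K → m2 ∈ K → m3 ∈ K →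
    m4 ∈ K → d25 ∈ K → d27 ∈ K → d35 ∈ K → d36 ∈ K → d46 ∈ K → d47 ∈ K → False

lemma half {l a5 a6 a7 m2 m3 m4 d25 d27 d35 d36 d46 d47 z w : ℂ}
    (H : Hyp l a5 a6 a7 m2 m3 m4 d25 d27 d35 d36 d46 d47)
    (h5 : ∃ x, F l a5 m2 d25 x (-1) = 0 ∧ F l a5 m3 d35 x z = 0)
    (h7 : ∃ x, F l a7 m2 d27 x (-1) = 0 ∧ F l a7 m4 d47 x w = 0)
    (h6 : (∃ x, F l a6 m3 d36 x z = 0 ∧ F l a6 m4 d46 x w = 0) ∨
      (l * z + m3 = 0 ∧ l * w + m4 = 0)) : z = 0 ∨ z = -1 := by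
  -- inequalities
  have ha5 : a5 ≠ 0 := by
    intro h
    obtain ⟨K, hK, h0, h1, h2, h3, h4, h5, h6, h7, h8, h9, h10, h11⟩ :=
      ex12 l a6 a7 m2 m3 m4 d25 d27 d35 d36 d46 d47
    exact H K hK h0 (h ▸ K.zero_mem) h1 h2 h3 h4 h5 h6 h7 h8 h9 h10 h11
  have ha6 : a6 ≠ 0 := by
    intro h
    obtain ⟨K, hK, h0, h1, h2, h3, h4, h5, h6, h7, h8, h9, h10, h11⟩ :=
      ex12 l a5 a7 m2 m3 m4 d25 d27 d35 d36 d46 d47
    exact H K hK h0 h1 (h ▸ K.zero_mem) h2 h3 h4 h5 h6 h7 h8 h9 h10 h11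
  have ha7 : a7 ≠ 0 := by
    intro h
    obtain ⟨K, hK, h0, h1, h2, h3, h4, h5, h6, h7, h8, h9, h10, h11⟩ :=
      ex12 l a5 a6 m2 m3 m4 d25 d27 d35 d36 d46 d47
    exact H K hK h0 h1 h2 (h ▸ K.zero_mem) h3 h4 h5 h6 h7 h8 h9 h10 h11
  have hm4 : m4 ≠ 0 := by
    intro h
    obtain ⟨K, hK, h0, h1, h2, h3, h4, h5, h6, h7, h8, h9, h10, h11⟩ :=
      ex12 l a5 a6 a7 m2 m3 d25 d27 d35 d36 d46 d47
    exact H K hK h0 h1 h2 h3 h4 h5 (h ▸ K.zero_mem) h6 h7 h8 h9 h10 h11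
  have hl0 : l ≠ 0 := by
    intro h
    obtain ⟨K, hK, h0, h1, h2, h3, h4, h5, h6, h7, h8, h9, h10, h11⟩ :=
      ex12 a5 a6 a7 m2 m3 m4 d25 d27 d35 d36 d46 d47
    exact H K hK (h ▸ K.zero_mem) h0 h1 h2 h3 h4 h5 h6 h7 h8 h9 h10 h11
  have hlm2 : l - m2 ≠ 0 := by
    intro h
    obtain ⟨K, hK, h0, h1, h2, h3, h4, h5, h6, h7, h8, h9, h10, h11⟩ :=
      ex12 a5 a6 a7 m2 m3 m4 d25 d27 d35 d36 d46 d47
    exact H K hK ((sub_eq_zero.1 h) ▸ h3) h0 h1 h2 h3 h4 h5 h6 h7 h8 h9 h10 h11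
  have hlm4 : l - m4 ≠ 0 := by
    intro h
    obtain ⟨K, hK, h0, h1, h2, h3, h4, h5, h6, h7, h8, h9, h10, h11⟩ :=
      ex12 a5 a6 a7 m2 m3 m4 d25 d27 d35 d36 d46 d47
    exact H K hK ((sub_eq_zero.1 h) ▸ h5) h0 h1 h2 h3 h4 h5 h6 h7 h8 h9 h10 h11
  by_contra hz
  rw [not_or] at hz
  obtain ⟨hz0, hz1⟩ := hz
  -- the point 5
  obtain ⟨x5, e5, f5⟩ := h5
  have hx5 : x5 ≠ 0 := by
    rintro rfl
    rcases at_zero ha5 f5 with h | h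
    · exact hz0 h
    · exact hz1 h
  have hx5e : x5 = (a5 - d25) / (l - m2) := by
    rcases at_neg e5 with h | h
    · exact absurd h hx5
    · rw [eq_div_iff hlm2, mul_comm]; exact h
  have mem5 : ∀ K : IntermediateField ℚ ℂ, l ∈ K → a5 ∈ K → m2 ∈ K → m3 ∈ K → d25 ∈ K → z ∈ K →
      d35 ∈ K := by
    intro K hl ha hm hm' hd hzK
    have hx5K : x5 ∈ K := hx5e ▸ K.div_mem (K.sub_mem ha hd) (K.sub_mem hl hm)
    exact d_mem K hl ha hm' hx5K hzK hx5 hz0 f5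
  rcases h6 with ⟨x6, e6, f6⟩ | ⟨e6, f6⟩
  · have hx6 : x6 ≠ 0 := by
      rintro rfl
      rcases at_zero ha6 e6 with h | h
      · exact hz0 h
      · exact hz1 h
    have mem6 : ∀ K : IntermediateField ℚ ℂ, l ∈ K → a6 ∈ K → m3 ∈ K → x6 ∈ K → z ∈ K →
        d36 ∈ K := fun K hl ha hm hx hzK => d_mem K hl ha hm hx hzK hx6 hz0 e6
    by_cases hw0 : w = 0
    · -- `w = 0`
      have hx61 : x6 = 1 := by
        rw [hw0] at f6
        unfold F at f6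
        have h1 : m4 * (x6 * (x6 - 1)) = 0 := by linear_combination -f6
        rcases mul_eq_zero.1 h1 with h2 | h2
        · exact absurd h2 hm4
        rcases mul_eq_zero.1 h2 with h3 | h3
        · exact absurd h3 hx6
        · exact sub_eq_zero.1 h3
      obtain ⟨K, hK, h0, h1, h2, h3, h4, h5, h6, h7, h8, h9, h10, h11⟩ :=
        ex12 l a5 a6 a7 m2 m3 m4 d25 d27 d46 d47 z
      exact H K hK h0 h1 h2 h3 h4 h5 h6 h7 h8 (mem5 K h0 h1 h4 h5 h7 h11)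
        (mem6 K h0 h2 h5 (hx61 ▸ K.one_mem) h11) h9 h10
    by_cases hw1 : w = -1
    · have hx6e : x6 = (a6 - d46) / (l - m4) := by
        rw [hw1] at f6
        rcases at_neg f6 with h | h
        · exact absurd h hx6
        · rw [eq_div_iff hlm4, mul_comm]; exact h
      obtain ⟨K, hK, h0, h1, h2, h3, h4, h5, h6, h7, h8, h9, h10, h11⟩ :=
        ex12 l a5 a6 a7 m2 m3 m4 d25 d27 d46 d47 z
      exact H K hK h0 h1 h2 h3 h4 h5 h6 h7 h8 (mem5 K h0 h1 h4 h5 h7 h11)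
        (mem6 K h0 h2 h5 (hx6e ▸ K.div_mem (K.sub_mem h2 h9) (K.sub_mem h0 h6)) h11) h9 h10
    · -- the general case
      obtain ⟨x7, e7, f7⟩ := h7
      have hx7 : x7 ≠ 0 := by
        rintro rfl
        rcases at_zero ha7 f7 with h | h
        · exact hw0 h
        · exact hw1 h
      have hx7e : x7 = (a7 - d27) / (l - m2) := by
        rcases at_neg e7 with h | h
        · exact absurd h hx7
        · rw [eq_div_iff hlm2, mul_comm]; exact h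
      obtain ⟨K, hK, h0, h1, h2, h3, h4, h5, h6, h7, h8, h9, h10, h11⟩ :=
        ex12 l a5 a6 a7 m2 m3 m4 d25 d27 z w x6
      have hx7K : x7 ∈ K := hx7e ▸ K.div_mem (K.sub_mem h3 h8) (K.sub_mem h0 h4)
      exact H K hK h0 h1 h2 h3 h4 h5 h6 h7 h8 (mem5 K h0 h1 h4 h5 h7 h9)
        (mem6 K h0 h2 h5 h11 h9) (d_mem K h0 h2 h6 h11 h10 hx6 hw0 f6)
        (d_mem K h0 h3 h6 hx7K h10 hx7 hw0 f7)
  · have hze : z = -m3 / l := by
      rw [eq_div_iff hl0]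
      linear_combination e6
    obtain ⟨K, hK, h0, h1, h2, h3, h4, h5, h6, h7, h8, h9, h10, h11⟩ :=
      ex12 l a5 a6 a7 m2 m3 m4 d25 d27 d36 d46 d47
    exact H K hK h0 h1 h2 h3 h4 h5 h6 h7 h8
      (mem5 K h0 h1 h4 h5 h7 (hze ▸ K.div_mem (K.neg_mem h5) h0)) h9 h10 h11

end G2aux

open G2aux in
theorem taskG2 : TaskG2 := by
  intro hTr hRes P hG z w h5 h7 h6
  have H : Hyp (P.l : ℂ) P.a5 P.a6 P.a7 P.m2 P.m3 P.m4 P.d25 P.d27 P.d35 P.d36 P.d46 P.d47 := by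
    rintro K ⟨s, rfl⟩ k0 k1 k2 k3 k4 k5 k6 k7 k8 k9 k10 k11 k12
    have hA : AlgebraicIndependent ℚ (fun i => algebraMap ℝ ℂ
        ((![P.l, P.a5, P.a6, P.a7, P.m2, P.m3, P.m4, P.d25, P.d27, P.d35, P.d36, P.d46, P.d47] :
          Fin 13 → ℝ) i)) := by
      have h1 : AlgebraicIndependent ℚ
        (![P.l, P.a5, P.a6, P.a7, P.m2, P.m3, P.m4, P.d25, P.d27, P.d35, P.d36, P.d46, P.d47] :
          Fin 13 → ℝ) := hG
      exact h1.map' (f := IsScalarTower.toAlgHom ℚ ℝ ℂ) (algebraMap ℝ ℂ).injective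
    apply hTr _ s hA
    intro i
    fin_cases i
    · exact k0
    · exact k1
    · exact k2
    · exact k3
    · exact k4
    · exact k5
    · exact k6
    · exact k7
    · exact k8
    · exact k9
    · exact k10
    · exact k11
    · exact k12
  have hlm2 : (P.l : ℂ) - P.m2 ≠ 0 := by
    intro h
    obtain ⟨K, hK, h0, h1, h2, h3, h4, h5, h6, h7, h8, h9, h10, h11⟩ :=
      ex12 (P.a5 : ℂ) P.a6 P.a7 P.m2 P.m3 P.m4 P.d25 P.d27 P.d35 P.d36 P.d46 P.d47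
    exact H K hK ((sub_eq_zero.1 h) ▸ h3) h0 h1 h2 h3 h4 h5 h6 h7 h8 h9 h10 h11
  have g5 : ∃ x, F (P.l : ℂ) P.a5 P.m2 P.d25 x (-1) = 0 ∧ F (P.l : ℂ) P.a5 P.m3 P.d35 x z = 0 := by
    rcases hRes _ _ _ _ _ _ _ _ h5 with h | ⟨h, -⟩
    · exact h
    · exfalso
      apply hlm2
      have h' : (P.l : ℂ) * (-1) + P.m2 = 0 := h
      linear_combination -h'
  have g7 : ∃ x, F (P.l : ℂ) P.a7 P.m2 P.d27 x (-1) = 0 ∧ F (P.l : ℂ) P.a7 P.m4 P.d47 x w = 0 := by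
    rcases hRes _ _ _ _ _ _ _ _ h7 with h | ⟨h, -⟩
    · exact h
    · exfalso
      apply hlm2
      have h' : (P.l : ℂ) * (-1) + P.m2 = 0 := h
      linear_combination -h'
  have g6 : (∃ x, F (P.l : ℂ) P.a6 P.m3 P.d36 x z = 0 ∧ F (P.l : ℂ) P.a6 P.m4 P.d46 x w = 0) ∨
      ((P.l : ℂ) * z + P.m3 = 0 ∧ (P.l : ℂ) * w + P.m4 = 0) := hRes _ _ _ _ _ _ _ _ h6
  refine ⟨half H g5 g7 g6, ?_⟩
  refine half (z := w) (w := z) (a5 := P.a7) (a6 := P.a6) (a7 := P.a5) (m2 := P.m2) (m3 := P.m4)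
    (m4 := P.m3) (d25 := P.d27) (d27 := P.d25) (d35 := P.d47) (d36 := P.d46) (d46 := P.d36)
    (d47 := P.d35) (l := P.l) ?_ g7 g5 ?_
  · intro K hK h0 h1 h2 h3 h4 h5 h6 h7 h8 h9 h10 h11 h12
    exact H K hK h0 h3 h2 h1 h4 h6 h5 h8 h7 h12 h11 h10 h9
  · rcases g6 with ⟨x, e, f⟩ | ⟨e, f⟩
    · exact Or.inl ⟨x, f, e⟩
    · exact Or.inr ⟨f, e⟩

end Pool.Agent.H771R3.TH
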