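import Pool.Agent.H771R3.TH.Stmts

set_option autoImplicit false

/-!
Task Gen of project TH: the 13 squared edge lengths of a generic configuration are algebraically
independent over the rationals.
-/

namespace Pool.Agent.H771R3.TH

open MvPolynomial in
/-- the squared length of the edge `e` as a polynomial -/
noncomputable def fG (e : Fin 13) : MvPolynomial (Fin 8 × Fin 2) ℚ :=
  (X ((ed e).1, 0) - X ((ed e).2, 0)) ^ 2 + (X ((ed e).1, 1) - X ((ed e).2, 1)) ^ 2

theorem aeval_pderiv_fG (p : Fin 8 → Fin 2 → ℝ) (e : Fin 13) (v : Fin 8) (k : Fin 2) :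
    MvPolynomial.aeval (fun x : Fin 8 × Fin 2 => p x.1 x.2)
      (MvPolynomial.pderiv (v, k) (fG e)) =
    2 * (((if (ed e).1 = v then 1 else 0) - (if (ed e).2 = v then 1 else 0)) *
      (p (ed e).1 k - p (ed e).2 k)) := by
  unfold fG
  generalize (ed e).1 = i
  generalize (ed e).2 = j
  fin_cases k
  · by_cases hi : i = v <;> by_cases hj : j = v <;>
      simp [MvPolynomial.pderiv_X, Derivation.leibniz_pow, hi, hj]
  · by_cases hi : i = v <;> by_cases hj : j = v <;>
      simp [MvPolynomial.pderiv_X, Derivation.leibniz_pow, hi, hj]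

theorem taskGen : TaskGen := by
  intro hJ hS p hp
  have h := hJ (fun x => p x.1 x.2) fG hp ?_
  · unfold Gen
    convert h using 1
    funext e
    fin_cases e <;> simp [fG, par, sq, ed, Fin.sum_univ_two]
  · intro ω hω
    apply hS p hp ω
    intro v k
    have h1 := hω (v, k)
    simp only [aeval_pderiv_fG] at h1
    have h2 : (2 : ℝ) * ∑ e, ω e * (((if (ed e).1 = v then 1 else 0) -
        (if (ed e).2 = v then 1 else 0)) * (p (ed e).1 k - p (ed e).2 k)) = 0 := by
      rw [Finset.mul_sum]
      refine Eq.trans (Finset.sum_congr rfl fun e _ => ?_) h1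
      ring
    linarith

end Pool.Agent.H771R3.TH
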