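import Pool.Agent.H771R3.TH.Stmts

/-!
# TaskIVT: the sign argument (helper871)
-/

set_option autoImplicit false

namespace Pool.Agent.H771R3.TH

open Filter Topology

private theorem ivt_pos {g : ℝ → ℝ} (hg : Continuous g) {S : Set ℝ} (hS : S.OrdConnected)
    (hne : ∀ x ∈ S, g x ≠ 0) {x y : ℝ} (hx : x ∈ S) (hy : y ∈ S) (hgx : 0 < g x) : 0 < g y := by
  by_contra hcon
  push Not at hcon
  have h1 : (0 : ℝ) ∈ Set.uIcc (g x) (g y) := by
    rw [Set.mem_uIcc]
    exact Or.inr ⟨hcon, hgx.le⟩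
  obtain ⟨z, hz, hz0⟩ := intermediate_value_uIcc (hg.continuousOn (s := Set.uIcc x y)) h1
  exact hne z (hS.uIcc_subset hx hy hz) hz0

private theorem ivt_neg {g : ℝ → ℝ} (hg : Continuous g) {S : Set ℝ} (hS : S.OrdConnected)
    (hne : ∀ x ∈ S, g x ≠ 0) {x y : ℝ} (hx : x ∈ S) (hy : y ∈ S) (hgx : g x < 0) : g y < 0 := by
  have h := ivt_pos (g := fun x => -g x) hg.neg hS (fun z hz => neg_ne_zero.2 (hne z hz)) hx hy
    (by linarith)
  linarith

private theorem ivt_right {h : ℝ → ℝ} {a c : ℝ} (ht : Tendsto h (𝓝[≠] a) (𝓝 c)) {U : Set ℝ}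
    (hU : U ∈ 𝓝 c) {b : ℝ} (hb : a < b) : ∃ v, a < v ∧ v < b ∧ h v ∈ U := by
  have h1 : Tendsto h (𝓝[>] a) (𝓝 c) :=
    ht.mono_left (nhdsWithin_mono a fun x hx => (ne_of_gt hx))
  have h2 : ∀ᶠ v in 𝓝[>] a, h v ∈ U := h1.eventually hU
  have h3 : ∀ᶠ v in 𝓝[>] a, v ∈ Set.Ioo a b := Ioo_mem_nhdsGT hb
  obtain ⟨v, hv, hv'⟩ := (h3.and h2).exists
  exact ⟨v, hv.1, hv.2, hv'⟩

private theorem ivt_left {h : ℝ → ℝ} {a c : ℝ} (ht : Tendsto h (𝓝[≠] a) (𝓝 c)) {U : Set ℝ}
    (hU : U ∈ 𝓝 c) {b : ℝ} (hb : b < a) : ∃ v, b < v ∧ v < a ∧ h v ∈ U := by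
  have h1 : Tendsto h (𝓝[<] a) (𝓝 c) :=
    ht.mono_left (nhdsWithin_mono a fun x hx => (ne_of_lt hx))
  have h2 : ∀ᶠ v in 𝓝[<] a, h v ∈ U := h1.eventually hU
  have h3 : ∀ᶠ v in 𝓝[<] a, v ∈ Set.Ioo b a := Ioo_mem_nhdsLT hb
  obtain ⟨v, hv, hv'⟩ := (h3.and h2).exists
  exact ⟨v, hv.1, hv.2, hv'⟩

theorem taskIVT : TaskIVT := by
  intro g l m hg hl hm hlm hA hB hC hD
  by_contra hcon
  push Not at hcon
  have hz : ∀ v, v ≠ 0 → v ≠ -1 → l * v + m ≠ 0 → g v ≠ 0 := hcon
  obtain ⟨c14, hc14, ht14⟩ := hC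
  obtain ⟨c5, hc5, ht5⟩ := hD
  set f := Real.sqrt (m / l) with hf
  have hml : 0 < m / l := div_pos hm hl
  have hf0 : 0 < f := Real.sqrt_pos.2 hml
  have hf2 : f ^ 2 = m / l := Real.sq_sqrt hml.le
  have hlf : l * f ^ 2 = m := by rw [hf2]; field_simp
  have hml' : l * (m / l) = m := by field_simp
  -- `g` is positive on `(0, ∞)`
  have hpos : ∀ v, 0 < v → 0 < g v := by
    intro v hv
    refine ivt_pos hg (S := Set.Ioi 0) Set.ordConnected_Ioi ?_ (x := f) hf0 hv ?_
    · intro x hx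
      have hx' : 0 < x := hx
      refine hz x hx'.ne' (by linarith) (by positivity)
    · refine lt_of_le_of_ne (hA f hlf) (Ne.symm (hz f hf0.ne' (by linarith) ?_))
      positivity
  -- `c14 > 0`
  have hc14' : 0 < c14 := by
    rcases lt_or_gt_of_ne hc14 with h | h
    · exfalso
      obtain ⟨v, hv1, _, hv3⟩ := ivt_right ht14 (Iio_mem_nhds h) (show (0 : ℝ) < 1 by norm_num)
      have : 0 < g v / v ^ 14 := div_pos (hpos v hv1) (by positivity)
      exact absurd hv3 (not_lt.2 this.le)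
    · exact h
  -- just left of `0`
  have hleft0 : ∀ b : ℝ, b < 0 → ∃ v, b < v ∧ v < 0 ∧ 0 < g v := by
    intro b hb
    obtain ⟨v, hv1, hv2, hv3⟩ := ivt_left ht14 (Ioi_mem_nhds hc14') hb
    refine ⟨v, hv1, hv2, ?_⟩
    have h14 : 0 < v ^ 14 := by
      have : v ^ 14 = (v ^ 7) ^ 2 := by ring
      rw [this]
      have h7 : v ^ 7 ≠ 0 := pow_ne_zero _ hv2.ne
      positivity
    have h15 : (0 : ℝ) < g v / v ^ 14 := hv3
    rw [lt_div_iff₀ h14, zero_mul] at h15
    exact h15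
  have hodd : ∀ v : ℝ, v < -1 → (v + 1) ^ 5 < 0 := by
    intro v hv
    have : Odd 5 := by decide
    exact this.pow_neg (by linarith)
  have hfneg : 0 ≤ g (-f) := hA (-f) (by rw [neg_sq]; exact hlf)
  rcases lt_or_gt_of_ne hlm with hlt | hgt
  · -- l < m : `-m/l < -f < -1`
    have h1 : 1 < m / l := by rw [lt_div_iff₀ hl]; linarith
    have hf1 : 1 < f := by
      by_contra h
      push Not at h
      nlinarith
    have hfm : f < m / l := by rw [← hf2]; nlinarith
    have hS : ∀ x ∈ Set.Ioo (-1 : ℝ) 0, g x ≠ 0 := by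
      intro x hx
      refine hz x hx.2.ne (ne_of_gt hx.1) ?_
      have : 0 < l * (x + 1) := mul_pos hl (by linarith [hx.1])
      intro h
      linarith
    obtain ⟨v0, hv1, hv2, hv3⟩ := hleft0 (-1) (by norm_num)
    have hposI : ∀ x ∈ Set.Ioo (-1 : ℝ) 0, 0 < g x := fun x hx =>
      ivt_pos hg Set.ordConnected_Ioo hS ⟨hv1, hv2⟩ hx hv3
    have hc5' : 0 < c5 := by
      rcases lt_or_gt_of_ne hc5 with h | h
      · exfalso
        obtain ⟨v, hv1, hv2, hv3⟩ := ivt_right ht5 (Iio_mem_nhds h)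
          (show (-1 : ℝ) < 0 by norm_num)
        have : 0 < g v / (v + 1) ^ 5 := div_pos (hposI v ⟨hv1, hv2⟩)
          (by have : 0 < v + 1 := by linarith
              positivity)
        exact absurd hv3 (not_lt.2 this.le)
      · exact h
    obtain ⟨v, hv1, hv2, hv3⟩ := ivt_left ht5 (Ioi_mem_nhds hc5')
      (show -(m / l) < -1 by linarith)
    have hgv : g v < 0 := by
      have h5 := hodd v hv2
      have h6 : (0 : ℝ) < g v / (v + 1) ^ 5 := hv3
      rcases div_pos_iff.1 h6 with h7 | h7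
      · linarith [h7.2]
      · exact h7.1
    have hS2 : ∀ x ∈ Set.Ioo (-(m / l)) (-1 : ℝ), g x ≠ 0 := by
      intro x hx
      refine hz x (by linarith [hx.2]) hx.2.ne ?_
      have : 0 < l * (x + m / l) := mul_pos hl (by linarith [hx.1])
      intro h
      rw [mul_add, hml', h] at this
      exact lt_irrefl _ this
    have := ivt_neg hg Set.ordConnected_Ioo hS2 ⟨hv1, hv2⟩
      (⟨by linarith, by linarith⟩ : -f ∈ Set.Ioo (-(m / l)) (-1 : ℝ)) hgv
    linarith
  · -- m < l : `-1 < -f < -m/l`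
    have h1 : m / l < 1 := by rw [div_lt_iff₀ hl]; linarith
    have hf1 : f < 1 := by
      by_contra h
      push Not at h
      nlinarith
    have hfm : m / l < f := by rw [← hf2]; nlinarith
    -- a point far to the left with `g > 0`
    obtain ⟨w, hw1, hw2, hw3⟩ := hleft0 (-(m / l)) (by linarith)
    set v0 := m / (l * w) with hv0
    have hw0 : w ≠ 0 := hw2.ne
    have hlw : l * w < 0 := mul_neg_of_pos_of_neg hl hw2
    have hv00 : v0 < 0 := div_neg_of_pos_of_neg hm hlw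
    have hwv : m / (l * v0) = w := by
      rw [hv0]; field_simp
    have hv01 : v0 < -1 := by
      rw [hv0, div_lt_iff_of_neg hlw]
      have : l * (-(m / l)) < l * w := mul_lt_mul_of_pos_left hw1 hl
      rw [mul_neg, hml'] at this
      linarith
    have hgv0 : 0 < g v0 := by
      have h2 := hB v0 hv00.ne
      rw [hwv] at h2
      have h3 : 0 < l ^ 64 * v0 ^ 128 * g w := by
        have : v0 ^ 128 = (v0 ^ 64) ^ 2 := by ring
        have h4 : v0 ^ 64 ≠ 0 := pow_ne_zero _ hv00.ne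
        rw [this]
        positivity
      rw [h2] at h3
      exact (pos_iff_pos_of_mul_pos h3).1 (by positivity)
    have hS : ∀ x ∈ Set.Iio (-1 : ℝ), g x ≠ 0 := by
      intro x hx
      have hx' : x < -1 := hx
      refine hz x (by linarith) hx'.ne ?_
      intro h
      have : l * x < l * (-1) := mul_lt_mul_of_pos_left hx' hl
      linarith
    have hposI : ∀ x ∈ Set.Iio (-1 : ℝ), 0 < g x := fun x hx =>
      ivt_pos hg Set.ordConnected_Iio hS (show v0 ∈ Set.Iio (-1 : ℝ) from hv01) hx hgv0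
    have hc5' : c5 < 0 := by
      rcases lt_or_gt_of_ne hc5 with h | h
      · exact h
      · exfalso
        obtain ⟨v, _, hv2, hv3⟩ := ivt_left ht5 (Ioi_mem_nhds h) (show (-2 : ℝ) < -1 by norm_num)
        have h7 : g v / (v + 1) ^ 5 < 0 := div_neg_of_pos_of_neg (hposI v hv2) (hodd v hv2)
        exact absurd hv3 (not_lt.2 h7.le)
    obtain ⟨v, hv1, hv2, hv3⟩ := ivt_right ht5 (Iio_mem_nhds hc5')
      (show (-1 : ℝ) < -(m / l) by linarith)
    have hgv : g v < 0 := by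
      have h5 : 0 < (v + 1) ^ 5 := by
        have : 0 < v + 1 := by linarith
        positivity
      have h6 : g v / (v + 1) ^ 5 < 0 := hv3
      rw [div_lt_iff₀ h5, zero_mul] at h6
      exact h6
    have hS2 : ∀ x ∈ Set.Ioo (-1 : ℝ) (-(m / l)), g x ≠ 0 := by
      intro x hx
      refine hz x (by linarith [hx.2]) (ne_of_gt hx.1) ?_
      have : l * (x + m / l) < 0 := mul_neg_of_pos_of_neg hl (by linarith [hx.2])
      intro h
      rw [mul_add, hml', h] at this
      exact lt_irrefl _ this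
    have := ivt_neg hg Set.ordConnected_Ioo hS2 ⟨hv1, hv2⟩
      (⟨by linarith, by linarith⟩ : -f ∈ Set.Ioo (-1 : ℝ) (-(m / l))) hgv
    linarith

end Pool.Agent.H771R3.TH
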