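import Pool.Agent.H771R3.TH.Stmts

set_option autoImplicit false

/-!
# TASK Jac: the Jacobian criterion of algebraic independence
-/

namespace Pool.Agent.H771R3.TH

namespace TJac

open MvPolynomial

variable {σ ι : Type*}

/-- chain rule -/
lemma chain [Fintype ι] (f : ι → MvPolynomial σ ℚ) (s : σ) (H : MvPolynomial ι ℚ) :
    pderiv s (aeval f H) = ∑ e, aeval f (pderiv e H) * pderiv s (f e) := by
  classical
  induction H using MvPolynomial.induction_on with
  | C a => simp
  | add p q hp hq =>
    rw [map_add, map_add, hp, hq, ← Finset.sum_add_distrib]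
    refine Finset.sum_congr rfl fun e _ => ?_
    rw [map_add, map_add, add_mul]
  | mul_X p j hp =>
    rw [map_mul, aeval_X, pderiv_mul, hp]
    have h1 : ∀ e, aeval f (pderiv e (p * X j)) * pderiv s (f e) =
        (aeval f (pderiv e p) * pderiv s (f e)) * f j +
          aeval f p * (if e = j then pderiv s (f e) else 0) := by
      intro e
      rw [pderiv_mul, pderiv_X, map_add, map_mul, map_mul, aeval_X]
      by_cases h : e = j
      · subst h
        simp
        ring
      · have h2 : (Pi.single e 1 : ι → MvPolynomial ι ℚ) j = 0 := by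
          rw [Pi.single_apply, if_neg (fun h3 => h h3.symm)]
        rw [h2, if_neg h, map_zero]
        ring
    rw [Finset.sum_congr rfl (fun e _ => h1 e), Finset.sum_add_distrib, ← Finset.sum_mul,
      ← Finset.mul_sum, Finset.sum_ite_eq']
    simp

/-- a polynomial whose derivatives all vanish is constant -/
lemma const_of_pderiv (H : MvPolynomial ι ℚ) (h : ∀ e, pderiv e H = 0) : H = C (coeff 0 H) := by
  classical
  ext m
  rw [coeff_C]
  by_cases hm : m = 0
  · rw [hm, if_pos rfl]
  · rw [if_neg (fun h1 => hm h1.symm)]
    obtain ⟨e, he⟩ : ∃ e, m e ≠ 0 := by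
      by_contra hcon
      push Not at hcon
      exact hm (Finsupp.ext hcon)
    have h1 : m - Finsupp.single e 1 + Finsupp.single e 1 = m := by
      ext i
      by_cases hi : i = e
      · subst hi
        simp
        omega
      · simp [Finsupp.single_apply, Ne.symm hi]
    have h2 := coeff_pderiv (i := e) H (m - Finsupp.single e 1)
    rw [h e, coeff_zero, h1] at h2
    have h3 : (((m - Finsupp.single e 1 : ι →₀ ℕ) e : ℕ) : ℚ) + 1 ≠ 0 := by positivity
    rcases mul_eq_zero.1 h2.symm with h4 | h4
    · exact h4
    · exact absurd h4 h3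

theorem main [Fintype ι] (p : σ → ℝ) (f : ι → MvPolynomial σ ℚ) (hp : AlgebraicIndependent ℚ p)
    (hJ : ∀ ω : ι → ℝ, (∀ s, ∑ e, ω e * aeval p (pderiv s (f e)) = 0) → ω = 0) :
    AlgebraicIndependent ℚ (fun e => aeval p (f e)) := by
  classical
  rw [algebraicIndependent_iff]
  have key : ∀ n : ℕ, ∀ H : MvPolynomial ι ℚ, (∀ m : ι →₀ ℕ, n ≤ m.degree → coeff m H = 0) →
      aeval (fun e => aeval p (f e)) H = 0 → H = 0 := by
    intro n
    induction n with
    | zero =>
      intro H hH _
      ext m
      rw [hH m (Nat.zero_le _), coeff_zero]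
    | succ n ih =>
      intro H hH hH0
      have h1 : aeval p (aeval f H) = 0 := by
        rw [comp_aeval_apply]
        exact hH0
      have h2 : aeval f H = 0 := (algebraicIndependent_iff.1 hp) _ h1
      have h3 : (fun e => aeval (fun e => aeval p (f e)) (pderiv e H)) = (0 : ι → ℝ) := by
        apply hJ
        intro s
        have h4 := chain f s H
        rw [h2, map_zero] at h4
        have h5 := congrArg (aeval p) h4
        rw [map_zero, map_sum] at h5
        rw [h5]
        refine Finset.sum_congr rfl fun e _ => ?_
        rw [map_mul, comp_aeval_apply]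
      have h6 : ∀ e, pderiv e H = 0 := by
        intro e
        apply ih
        · intro m hm
          rw [coeff_pderiv, hH, zero_mul]
          rw [map_add, Finsupp.degree_single]
          omega
        · exact congrFun h3 e
      have h7 := const_of_pderiv H h6
      rw [h7] at hH0
      rw [algHom_C] at hH0
      have h8 : coeff 0 H = 0 := by
        have h9 : (algebraMap ℚ ℝ) (coeff 0 H) = 0 := hH0
        exact (map_eq_zero _).1 h9
      rw [h7, h8, C_0]
  intro H hH
  apply key (H.totalDegree + 1) H _ hH
  intro m hm
  by_contra hne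
  have h1 := le_totalDegree (mem_support_iff.2 hne)
  have h2 : m.degree = m.sum fun _ e => e := rfl
  rw [h2] at hm
  omega

end TJac

theorem taskJac : TaskJac := by
  intro p f hp hJ
  exact TJac.main p f hp hJ

end Pool.Agent.H771R3.TH
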