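import Pool.Agent.H771R3.TH.Stmts

set_option autoImplicit false

/-! Task L0: the order of vanishing at `v = 0`. -/

namespace Pool.Agent.H771R3.TH

open Polynomial Filter Topology

namespace L0

theorem split4 (f : ℝ[X]) (hf : f.natDegree ≤ 4) (r : Fin 4 → ℝ) (hr : Function.Injective r)
    (h0 : ∀ i, f.eval (r i) = 0) : f = C (f.coeff 4) * ∏ i, (X - C (r i)) := by
  have hm : (∏ i : Fin 4, (X - C (r i))).Monic := monic_prod_of_monic _ _ (fun i _ => monic_X_sub_C _)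
  have hd : (∏ i : Fin 4, (X - C (r i))).natDegree = 4 := by
    rw [natDegree_prod_of_monic _ _ (fun i _ => monic_X_sub_C _)]
    simp
  have hg : (f - C (f.coeff 4) * ∏ i, (X - C (r i))) = 0 := by
    refine eq_zero_of_natDegree_lt_card_of_eval_eq_zero _ hr (fun i => ?_) ?_
    · rw [eval_sub, h0 i, eval_mul, eval_prod, Finset.prod_eq_zero (Finset.mem_univ i) (by simp)]
      simp
    · rw [Fintype.card_fin]
      have h1 : (f - C (f.coeff 4) * ∏ i, (X - C (r i))).natDegree ≤ 4 := by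
        refine (natDegree_sub_le _ _).trans (max_le hf ?_)
        exact (natDegree_C_mul_le _ _).trans hd.le
      have h2 : (f - C (f.coeff 4) * ∏ i, (X - C (r i))).coeff 4 = 0 := by
        rw [coeff_sub, coeff_C_mul]
        have : (∏ i : Fin 4, (X - C (r i))).coeff 4 = 1 := by
          have h3 := hm.coeff_natDegree
          rwa [hd] at h3
        rw [this, mul_one, sub_self]
      rcases Nat.lt_or_ge (f - C (f.coeff 4) * ∏ i, (X - C (r i))).natDegree 4 with h3 | h3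
      · exact h3
      · have h4 : (f - C (f.coeff 4) * ∏ i, (X - C (r i))).natDegree = 4 := le_antisymm h1 h3
        have h5 : (f - C (f.coeff 4) * ∏ i, (X - C (r i))) = 0 := by
          rw [← leadingCoeff_eq_zero, leadingCoeff, h4, h2]
        rw [h5] at h4
        simp at h4
  exact sub_eq_zero.1 hg

/-- the exponents -/
def kk : Fin 4 → Fin 4 → ℕ := ![![0, 0, 0, 0], ![0, 2, 2, 1], ![0, 2, 3, 1], ![0, 1, 1, 1]]

theorem lim_mul {f : ℝ → ℝ} {z : ℝ} (h : Tendsto (fun e => f e / e) (𝓝[≠] 0) (𝓝 z)) :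
    Tendsto f (𝓝[≠] 0) (𝓝 0) := by
  have h1 : Tendsto (fun e : ℝ => e) (𝓝[≠] 0) (𝓝 0) := tendsto_nhdsWithin_of_tendsto_nhds tendsto_id
  have h2 := h.mul h1
  rw [mul_zero] at h2
  refine h2.congr' ?_
  filter_upwards [self_mem_nhdsWithin] with e he
  exact div_mul_cancel₀ _ he

theorem lim_add {f : ℝ → ℝ} {z : ℝ} (h : Tendsto (fun e => (f e + 1) / e) (𝓝[≠] 0) (𝓝 z)) :
    Tendsto f (𝓝[≠] 0) (𝓝 (-1)) := by
  have h1 := (lim_mul h).sub_const 1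
  simpa using h1

theorem lim_first {f : ℝ → ℝ} {a z : ℝ} (h : Tendsto (fun e => (f e - a * e) / e ^ 2) (𝓝[≠] 0) (𝓝 z)) :
    Tendsto (fun e => f e / e) (𝓝[≠] 0) (𝓝 a) := by
  have h1 : Tendsto (fun e : ℝ => e) (𝓝[≠] 0) (𝓝 0) := tendsto_nhdsWithin_of_tendsto_nhds tendsto_id
  have h2 := (h.mul h1).add_const a
  rw [mul_zero, zero_add] at h2
  refine h2.congr' ?_
  filter_upwards [self_mem_nhdsWithin] with e he
  have he' : e ≠ 0 := he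
  field_simp
  ring

theorem ev_ne {f g : ℝ → ℝ} {a b : ℝ} (hf : Tendsto f (𝓝[≠] 0) (𝓝 a))
    (hg : Tendsto g (𝓝[≠] 0) (𝓝 b)) (hab : a ≠ b) : ∀ᶠ e in 𝓝[≠] (0 : ℝ), f e ≠ g e := by
  have h := (hf.sub hg).eventually_ne (sub_ne_zero.2 hab)
  filter_upwards [h] with e he
  exact fun h1 => he (by rw [h1, sub_self])

/-- four branches -/
theorem branches (hRoot : TaskRoot) (hA : TaskBr0a) (hB : TaskBr0b) (l a m d m' d' : ℝ)
    (hm : m ≠ 0) (ha : a ≠ 0) (hm' : m' ≠ 0) (hal : a ≠ l) (hd' : d' ≠ m')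
    (h1 : a - d' - (l - m') ≠ 0) (h2 : d - m ≠ d' - m')
    (h3 : (m' - d') / (a - l) ≠ 0) (h4 : (m' - d') / (a - l) ≠ -1)
    (h5 : m' * (d - m) / (m * (d' - m')) ≠ m' / m) :
    ∃ rs rb rd rc : ℝ → ℝ,
      Tendsto rs (𝓝[≠] 0) (𝓝 ((m' - d') / (a - l))) ∧
      Tendsto (fun e => rb e / e) (𝓝[≠] 0) (𝓝 (m' * (d - m) / (m * (d' - m')))) ∧
      Tendsto (fun e => (rd e - m' / m * e) / e ^ 2) (𝓝[≠] 0) (𝓝 (m' * (d - d') / m ^ 2)) ∧
      Tendsto (fun e => (rc e + 1) / e) (𝓝[≠] 0) (𝓝 ((a - d') / m)) ∧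
      ∀ᶠ e in 𝓝[≠] (0 : ℝ), (∀ i, MM l a m d m' d' e ((![rs e, rb e, rd e, rc e] : Fin 4 → ℝ) i) = 0) ∧
        Function.Injective (![rs e, rb e, rd e, rc e] : Fin 4 → ℝ) := by
  obtain ⟨rs, rc, hrs, hrc, hz1⟩ := hA hRoot l a m d m' d' hm ha hm' hal hd' h1
  obtain ⟨rb, rd, hrb, hrd, hz2⟩ := hB hRoot l a m d m' d' hm ha hm' hd' h2
  refine ⟨rs, rb, rd, rc, hrs, hrb, hrd, hrc, ?_⟩
  have hrd1 := lim_first hrd
  have e1 := ev_ne hrs (lim_mul hrb) h3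
  have e2 := ev_ne hrs (lim_mul hrd1) h3
  have e3 := ev_ne hrs (lim_add hrc) h4
  have e4 := ev_ne hrb hrd1 h5
  have e5 := ev_ne (lim_mul hrb) (lim_add hrc) (by norm_num)
  have e6 := ev_ne (lim_mul hrd1) (lim_add hrc) (by norm_num)
  filter_upwards [hz1, hz2, e1, e2, e3, e4, e5, e6] with e g1 g2 g3 g4 g5 g6 g7 g8
  refine ⟨?_, ?_⟩
  · intro i
    fin_cases i
    · exact g1.1
    · exact g2.1
    · exact g2.2
    · exact g1.2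
  · have g6' : rb e ≠ rd e := fun h => g6 (by rw [h])
    intro i j hij
    fin_cases i <;> fin_cases j <;> simp_all [eq_comm]

theorem cont6 (P : Par ℝ) : Continuous (fun p : ℝ × ℝ => M6 P p.1 p.2) := by
  unfold M6 MM
  fun_prop

theorem T0aux (g : ℝ × ℝ → ℝ) (hg : Continuous g) {z w : ℝ → ℝ} {z0 w0 : ℝ}
    (hz : Tendsto z (𝓝[≠] 0) (𝓝 z0)) (hw : Tendsto w (𝓝[≠] 0) (𝓝 w0)) :
    Tendsto (fun e => g (z e, w e) / e ^ 0) (𝓝[≠] 0) (𝓝 (g (z0, w0))) := by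
  have h1 : Tendsto (fun e => (z e, w e)) (𝓝[≠] 0) (𝓝 (z0, w0)) := hz.prodMk_nhds hw
  refine ((hg.tendsto (z0, w0)).comp h1).congr (fun e => ?_)
  rw [pow_zero, div_one]
  rfl

theorem T0 (P : Par ℝ) {z w : ℝ → ℝ} {z0 w0 : ℝ} (hz : Tendsto z (𝓝[≠] 0) (𝓝 z0))
    (hw : Tendsto w (𝓝[≠] 0) (𝓝 w0)) :
    Tendsto (fun e => M6 P (z e) (w e) / e ^ 0) (𝓝[≠] 0) (𝓝 (M6 P z0 w0)) :=
  T0aux (fun p : ℝ × ℝ => M6 P p.1 p.2) (cont6 P) hz hw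

theorem T1 {f : ℝ → ℝ} {a : ℝ} (h : Tendsto (fun e => f e / e) (𝓝[≠] 0) (𝓝 a)) :
    Tendsto (fun e => f e / e ^ 1) (𝓝[≠] 0) (𝓝 a) := by
  simpa only [pow_one] using h

theorem sum_kk : ∑ i, ∑ j, kk i j = 14 := by decide

end L0

open L0 in
theorem taskL0 : TaskL0 := by
  intro hRoot hA hB hLim hNV hProd hLead P hP
  obtain ⟨⟨n1, n2, n3, n4, n5⟩, ⟨q1, q2, q3⟩, ⟨t1, t2, t3, t4⟩, u1, u2,
    ⟨w1, w2, w3, w4, w5, w6⟩, ⟨c1, c2, c3, c4, c5, c6, c7, c8, c9, c10, c11, c12, c13, c14,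
    c15⟩⟩ := hNV P hP
  obtain ⟨rs, rb, rd, rc, hrs, hrb, hrd, hrc, hr⟩ := branches hRoot hA hB P.l P.a5 P.m2 P.d25
    P.m3 P.d35 c5 c2 c6 c8 c10 c12 c14 w1 w2 w3
  obtain ⟨ss, sb, sd, sc, hss, hsb, hsd, hsc, hs⟩ := branches hRoot hA hB P.l P.a7 P.m2 P.d27
    P.m4 P.d47 c5 c4 c7 c9 c11 c13 c15 w4 w5 w6
  obtain ⟨LA, LB, LC, LD, LE⟩ := hLim P.l P.a6 P.m3 P.d36 P.m4 P.d46
  have hrd1 := lim_first hrd
  have hsd1 := lim_first hsd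
  have key : ∀ i j : Fin 4, ∃ L : ℝ, L ≠ 0 ∧ Tendsto (fun e =>
      M6 P ((![rs e, rb e, rd e, rc e] : Fin 4 → ℝ) i) ((![ss e, sb e, sd e, sc e] : Fin 4 → ℝ) j) /
        e ^ (kk i j)) (𝓝[≠] 0) (𝓝 L) := by
    intro i j
    fin_cases i <;> fin_cases j
    · exact ⟨_, n1, T0 P hrs hss⟩
    · exact ⟨_, n2, T0 P hrs (lim_mul hsb)⟩
    · exact ⟨_, n2, T0 P hrs (lim_mul hsd1)⟩
    · exact ⟨_, n3, T0 P hrs (lim_add hsc)⟩
    · exact ⟨_, n4, T0 P (lim_mul hrb) hss⟩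
    · exact ⟨_, q1, LA rb sb _ _ hrb hsb⟩
    · exact ⟨_, q2, LA rb sd _ _ hrb hsd1⟩
    · exact ⟨_, neg_ne_zero.2 t1, T1 (LB rb sc _ _ hrb hsc)⟩
    · exact ⟨_, n4, T0 P (lim_mul hrd1) hss⟩
    · exact ⟨_, q3, LA rd sb _ _ hrd1 hsb⟩
    · refine ⟨_, ?_, LE rd sd (1 / P.m2) (P.m3 * (P.d25 - P.d35) / P.m2 ^ 2)
        (P.m4 * (P.d27 - P.d47) / P.m2 ^ 2) ?_ ?_⟩
      · have h1 : P.a6 * P.m3 * P.m4 * (1 / P.m2) * (P.m3 - P.m4 + P.d46 - P.d36) *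
            ((P.m3 * (P.m4 * (P.d27 - P.d47) / P.m2 ^ 2) - P.m4 * (P.m3 * (P.d25 - P.d35) / P.m2 ^ 2))
              + P.m3 * P.m4 * (1 / P.m2) ^ 2 * (P.d46 - P.d36)) =
            (P.a6 * P.m3 * P.m4 * P.m3 * P.m4 / P.m2 ^ 3) * ((P.m3 - P.m4 + P.d46 - P.d36) *
              (P.d35 - P.d25 - P.d47 + P.d27 + P.d46 - P.d36)) := by
          field_simp
          ring
        rw [h1]
        exact mul_ne_zero (div_ne_zero (mul_ne_zero (mul_ne_zero (mul_ne_zero (mul_ne_zero c3 c6)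
          c7) c6) c7) (pow_ne_zero _ c5)) u2
      · refine hrd.congr (fun e => ?_)
        congr 2
        ring
      · refine hsd.congr (fun e => ?_)
        congr 2
        ring
    · exact ⟨_, neg_ne_zero.2 t2, T1 (LB rd sc _ _ hrd1 hsc)⟩
    · exact ⟨_, n5, T0 P (lim_add hrc) hss⟩
    · exact ⟨_, neg_ne_zero.2 t3, T1 (LC rc sb _ _ hrc hsb)⟩
    · exact ⟨_, neg_ne_zero.2 t4, T1 (LC rc sd _ _ hrc hsd1)⟩
    · exact ⟨_, neg_ne_zero.2 u1, T1 (LD rc sc _ _ hrc hsc)⟩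
  choose L hL hLt using key
  set p : ℝ → ℝ := fun v => (M5p P v).coeff 4 with hp
  set q : ℝ → ℝ := fun v => (M7p P v).coeff 4 with hq
  have hpv : ∀ v, p v = -P.a5 * (P.l * v + P.m2) * (P.m2 * (P.l + P.l * v - P.a5) -
      P.l * P.d25 * v) := fun v => (hLead ℝ P v).2.2.2.2.2.2.2.2.2.2.1
  have hqv : ∀ v, q v = -P.a7 * (P.l * v + P.m2) * (P.m2 * (P.l + P.l * v - P.a7) -
      P.l * P.d27 * v) := fun v => (hLead ℝ P v).2.2.2.2.2.2.2.2.2.2.2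
  have hpt : Tendsto p (𝓝[≠] 0) (𝓝 (-P.a5 * P.m2 * (P.m2 * (P.l - P.a5)))) := by
    have h1 : Continuous p := by
      rw [show p = _ from funext hpv]
      fun_prop
    have h2 := h1.tendsto 0
    rw [hpv 0] at h2
    have h3 : -P.a5 * (P.l * 0 + P.m2) * (P.m2 * (P.l + P.l * 0 - P.a5) - P.l * P.d25 * 0) =
        -P.a5 * P.m2 * (P.m2 * (P.l - P.a5)) := by ring
    rw [h3] at h2
    exact tendsto_nhdsWithin_of_tendsto_nhds h2
  have hqt : Tendsto q (𝓝[≠] 0) (𝓝 (-P.a7 * P.m2 * (P.m2 * (P.l - P.a7)))) := by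
    have h1 : Continuous q := by
      rw [show q = _ from funext hqv]
      fun_prop
    have h2 := h1.tendsto 0
    rw [hqv 0] at h2
    have h3 : -P.a7 * (P.l * 0 + P.m2) * (P.m2 * (P.l + P.l * 0 - P.a7) - P.l * P.d27 * 0) =
        -P.a7 * P.m2 * (P.m2 * (P.l - P.a7)) := by ring
    rw [h3] at h2
    exact tendsto_nhdsWithin_of_tendsto_nhds h2
  have hp0 : -P.a5 * P.m2 * (P.m2 * (P.l - P.a5)) ≠ 0 :=
    mul_ne_zero (mul_ne_zero (neg_ne_zero.2 c2) c5) (mul_ne_zero c5 (sub_ne_zero.2 c8.symm))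
  have hq0 : -P.a7 * P.m2 * (P.m2 * (P.l - P.a7)) ≠ 0 :=
    mul_ne_zero (mul_ne_zero (neg_ne_zero.2 c4) c5) (mul_ne_zero c5 (sub_ne_zero.2 c9.symm))
  refine ⟨(-P.a5 * P.m2 * (P.m2 * (P.l - P.a5))) ^ 16 * (-P.a7 * P.m2 * (P.m2 * (P.l - P.a7))) ^ 16 *
    ∏ i, ∏ j, L i j, mul_ne_zero (mul_ne_zero (pow_ne_zero _ hp0) (pow_ne_zero _ hq0))
      (Finset.prod_ne_zero_iff.2 fun i _ => Finset.prod_ne_zero_iff.2 fun j _ => hL i j), ?_⟩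
  have hlim : Tendsto (fun e => p e ^ 16 * q e ^ 16 * ∏ i, ∏ j,
      (M6 P ((![rs e, rb e, rd e, rc e] : Fin 4 → ℝ) i) ((![ss e, sb e, sd e, sc e] : Fin 4 → ℝ) j) /
        e ^ (kk i j))) (𝓝[≠] 0) (𝓝 ((-P.a5 * P.m2 * (P.m2 * (P.l - P.a5))) ^ 16 *
        (-P.a7 * P.m2 * (P.m2 * (P.l - P.a7))) ^ 16 * ∏ i, ∏ j, L i j)) :=
    ((hpt.pow 16).mul (hqt.pow 16)).mul
      (tendsto_finsetProd _ fun i _ => tendsto_finsetProd _ fun j _ => hLt i j)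
  refine hlim.congr' ?_
  filter_upwards [hr, hs, self_mem_nhdsWithin] with e g1 g2 g3
  have he : e ≠ 0 := g3
  have k1 : M5p P e = C (p e) * ∏ i, (X - C ((![rs e, rb e, rd e, rc e] : Fin 4 → ℝ) i)) :=
    split4 _ (hLead ℝ P e).1 _ g1.2 (fun i => by
      rw [(hLead ℝ P e).2.2.2.2.2.1]
      exact g1.1 i)
  have k2 : M7p P e = C (q e) * ∏ i, (X - C ((![ss e, sb e, sd e, sc e] : Fin 4 → ℝ) i)) :=
    split4 _ (hLead ℝ P e).2.1 _ g2.2 (fun i => by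
      rw [(hLead ℝ P e).2.2.2.2.2.2.1]
      exact g2.1 i)
  rw [hProd ℝ P e _ _ _ _ k1 k2]
  simp only [Finset.prod_div_distrib, Finset.prod_pow_eq_pow_sum]
  rw [sum_kk]
  ring

end Pool.Agent.H771R3.TH
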