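import Pool.Agent.H771R3.TH.Stmts

set_option autoImplicit false

/-! Task L1 of project TH (helper128): order of vanishing at `v = -1`. -/

namespace Pool.Agent.H771R3.TH

open Polynomial Filter Topology

namespace L1aux

/-- cofactor of a quartic with two distinct roots -/
theorem cofactor (A4 A3 A2 A1 A0 α β : ℝ) (hne : α ≠ β)
    (hα : A4 * α ^ 4 + A3 * α ^ 3 + A2 * α ^ 2 + A1 * α + A0 = 0)
    (hβ : A4 * β ^ 4 + A3 * β ^ 3 + A2 * β ^ 2 + A1 * β + A0 = 0) :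
    (C A4 * X ^ 4 + C A3 * X ^ 3 + C A2 * X ^ 2 + C A1 * X + C A0 : ℝ[X]) =
      (X - C α) * (X - C β) * (C A4 * X ^ 2 + C (A3 + (α + β) * A4) * X +
        C (A2 + (α + β) * (A3 + (α + β) * A4) - α * β * A4)) := by
  set B := A3 + (α + β) * A4 with hB
  set D := A2 + (α + β) * B - α * β * A4 with hD
  have h1 : (α - β) * (A1 - (α * β * B - (α + β) * D)) = 0 := by
    rw [hD, hB]
    linear_combination hα - hβ
  have h2 : A1 = α * β * B - (α + β) * D := by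
    rcases mul_eq_zero.mp h1 with h | h
    · exact absurd (sub_eq_zero.mp h) hne
    · linarith
  have h3 : A0 = α * β * D := by
    have h4 : A0 = -(A4 * α ^ 4 + A3 * α ^ 3 + A2 * α ^ 2 + A1 * α) := by linarith
    rw [h4, h2, hD, hB]
    ring
  have h5 : A3 = B - (α + β) * A4 := by rw [hB]; ring
  have h6 : A2 = D - (α + β) * B + α * β * A4 := by rw [hD]; ring
  rw [h2, h3, h5, h6]
  simp only [map_add, map_sub, map_mul]
  ring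

section
variable (l a m d m' d' : ℝ)

def K4 (v : ℝ) : ℝ := (a * (l*v+m))^2 - (-(l*v+m)*l) * (a*(l*v*(v+1) - (l*v^2+(a+l+m-d)*v+m)))
def K3 (v : ℝ) : ℝ := 2 * (a*(l*v+m)) * (a*((l*v+m) - l*v*(v+1)))
  - (-(l*v+m)*l) * (a*((a+l+m'-d')*v*(v+1) - (l*v^2+(a+l+m-d)*v+m)))
  - (-(l*v+m)*(a+l+m'-d') + l*(l*v^2+(a+l+m-d)*v+m)) * (a*(l*v*(v+1) - (l*v^2+(a+l+m-d)*v+m)))
def K2 (v : ℝ) : ℝ := (a*((l*v+m) - l*v*(v+1)))^2 + 2 * (a*(l*v+m)) * (-a*m'*v*(v+1))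
  - (-(l*v+m)*l) * (a*m'*v*(v+1))
  - (-(l*v+m)*(a+l+m'-d') + l*(l*v^2+(a+l+m-d)*v+m)) *
      (a*((a+l+m'-d')*v*(v+1) - (l*v^2+(a+l+m-d)*v+m)))
  - (m'*((l*v^2+(a+l+m-d)*v+m)-(l*v+m))) * (a*(l*v*(v+1) - (l*v^2+(a+l+m-d)*v+m)))
def K1 (v : ℝ) : ℝ := 2 * (a*((l*v+m) - l*v*(v+1))) * (-a*m'*v*(v+1))
  - (-(l*v+m)*(a+l+m'-d') + l*(l*v^2+(a+l+m-d)*v+m)) * (a*m'*v*(v+1))
  - (m'*((l*v^2+(a+l+m-d)*v+m)-(l*v+m))) *
      (a*((a+l+m'-d')*v*(v+1) - (l*v^2+(a+l+m-d)*v+m)))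
def K0 (v : ℝ) : ℝ := (-a*m'*v*(v+1))^2
  - (m'*((l*v^2+(a+l+m-d)*v+m)-(l*v+m))) * (a*m'*v*(v+1))

theorem MM_real (v z : ℝ) : MM l a m d m' d' v z =
    K4 l a m d v * z ^ 4 + K3 l a m d m' d' v * z ^ 3 + K2 l a m d m' d' v * z ^ 2 +
      K1 l a m d m' d' v * z + K0 l a m d m' v := by
  simp only [MM, K4, K3, K2, K1, K0]
  ring

theorem MM_poly (v : ℝ) : (MM (C l) (C a) (C m) (C d) (C m') (C d') (C v) X : ℝ[X]) =
    C (K4 l a m d v) * X ^ 4 + C (K3 l a m d m' d' v) * X ^ 3 + C (K2 l a m d m' d' v) * X ^ 2 +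
      C (K1 l a m d m' d' v) * X + C (K0 l a m d m' v) := by
  simp only [MM, K4, K3, K2, K1, K0, map_add, map_sub, map_mul, map_pow, map_neg, map_one,
    map_ofNat]
  ring

theorem cont4 : Continuous (K4 l a m d) := by unfold K4; fun_prop
theorem cont3 : Continuous (K3 l a m d m' d') := by unfold K3; fun_prop
theorem cont2 : Continuous (K2 l a m d m' d') := by unfold K2; fun_prop

end

theorem tendsto_of_div {r : ℝ → ℝ} {c : ℝ} (h : Tendsto (fun e => r e / e) (𝓝[≠] 0) (𝓝 c)) :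
    Tendsto r (𝓝[≠] 0) (𝓝 0) := by
  have h1 : Tendsto (fun e : ℝ => r e / e * e) (𝓝[≠] 0) (𝓝 (c * 0)) :=
    h.mul (tendsto_id.mono_left nhdsWithin_le_nhds)
  rw [mul_zero] at h1
  refine h1.congr' ?_
  filter_upwards [self_mem_nhdsWithin] with e he
  exact div_mul_cancel₀ _ he

/-- the two branches and the cofactor near `v = -1` -/
theorem split (hRoot : TaskRoot) (hBr : TaskBr1) (l a m d m' d' : ℝ) (h1 : l ≠ m) (h2 : a ≠ 0)
    (h3 : m' ≠ 0) (h4 : a ≠ d) (h5 : l - m - a + d ≠ 0)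
    (h6 : (l - m') * (a - d) - (l - m) * (a - d') ≠ 0) :
    ∃ (r s a2 a1 a0 : ℝ → ℝ) (b2 b1 b0 : ℝ),
      Tendsto (fun e => r e / e) (𝓝[≠] 0) (𝓝 (m' / (a - d))) ∧
      Tendsto (fun e => (s e + 1) / e) (𝓝[≠] 0) (𝓝 ((a - d') / (a - d))) ∧
      Tendsto r (𝓝[≠] 0) (𝓝 0) ∧ Tendsto s (𝓝[≠] 0) (𝓝 (-1)) ∧
      Tendsto a2 (𝓝[≠] 0) (𝓝 b2) ∧ Tendsto a1 (𝓝[≠] 0) (𝓝 b1) ∧
      Tendsto a0 (𝓝[≠] 0) (𝓝 b0) ∧
      (∀ᶠ e in 𝓝[≠] (0 : ℝ), (MM (C l) (C a) (C m) (C d) (C m') (C d') (C (-1 + e)) X : ℝ[X]) =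
        (X - C (r e)) * (X - C (s e)) * (C (a2 e) * X ^ 2 + C (a1 e) * X + C (a0 e))) ∧
      (MM (C l) (C a) (C m) (C d) (C m') (C d') (C (-1)) X : ℝ[X]) =
        X * (X + 1) * (C b2 * X ^ 2 + C b1 * X + C b0) := by
  obtain ⟨r, s, hr, hs, hrs⟩ := hBr hRoot l a m d m' d' h1 h2 h3 h4 h5 h6
  have hr0 : Tendsto r (𝓝[≠] 0) (𝓝 0) := tendsto_of_div hr
  have hs0 : Tendsto s (𝓝[≠] 0) (𝓝 (-1)) := by
    have h := (tendsto_of_div hs).sub_const 1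
    simpa using h
  have hlin : Tendsto (fun e : ℝ => -1 + e) (𝓝[≠] 0) (𝓝 (-1)) := by
    have h : Tendsto (fun e : ℝ => -1 + e) (𝓝 0) (𝓝 (-1 + 0)) :=
      (continuous_const.add continuous_id).tendsto 0
    rw [add_zero] at h
    exact h.mono_left nhdsWithin_le_nhds
  have k4 : Tendsto (fun e : ℝ => K4 l a m d (-1 + e)) (𝓝[≠] 0) (𝓝 (K4 l a m d (-1))) :=
    ((cont4 l a m d).tendsto (-1)).comp hlin
  have k3 : Tendsto (fun e : ℝ => K3 l a m d m' d' (-1 + e)) (𝓝[≠] 0)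
      (𝓝 (K3 l a m d m' d' (-1))) := ((cont3 l a m d m' d').tendsto (-1)).comp hlin
  have k2 : Tendsto (fun e : ℝ => K2 l a m d m' d' (-1 + e)) (𝓝[≠] 0)
      (𝓝 (K2 l a m d m' d' (-1))) := ((cont2 l a m d m' d').tendsto (-1)).comp hlin
  have hB := k3.add ((hr0.add hs0).mul k4)
  have hD := (k2.add ((hr0.add hs0).mul hB)).sub ((hr0.mul hs0).mul k4)
  refine ⟨r, s, _, _, _, _, _, _, hr, hs, hr0, hs0, k4, hB, hD, ?_, ?_⟩
  · have hne : ∀ᶠ e in 𝓝[≠] (0 : ℝ), r e ≠ s e := by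
      have h := (hr0.sub hs0).eventually_ne (show (0 : ℝ) - -1 ≠ 0 by norm_num)
      filter_upwards [h] with e he heq
      exact he (by rw [heq]; ring)
    filter_upwards [hrs, hne] with e he hne
    rw [MM_poly]
    refine cofactor _ _ _ _ _ _ _ hne ?_ ?_
    · rw [← MM_real]; exact he.1
    · rw [← MM_real]; exact he.2
  · rw [MM_poly]
    have h := cofactor (K4 l a m d (-1)) (K3 l a m d m' d' (-1)) (K2 l a m d m' d' (-1))
      (K1 l a m d m' d' (-1)) (K0 l a m d m' (-1)) 0 (-1) (by norm_num)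
      (by rw [← MM_real]; simp [MM]) (by rw [← MM_real]; simp [MM])
    rw [h]
    simp only [map_zero, sub_zero, map_neg, map_one, sub_neg_eq_add]

theorem divs (x1 x2 x3 x4 R1 R2 R5 e : ℝ) (he : e ≠ 0) :
    x1 / e ^ 2 * (x2 / e) * (x3 / e) * (x4 / e) * R1 * R2 * R5 =
      x1 * x2 * x3 * x4 * R1 * R2 * R5 / e ^ 5 := by
  field_simp

theorem natDeg2 (a b c : ℝ) : (C a * X ^ 2 + C b * X + C c : ℝ[X]).natDegree ≤ 2 :=
  natDegree_quadratic_le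

end L1aux

open L1aux in
theorem taskL1 : TaskL1 := by
  intro hRoot hBr hLim hNV hG2 hTr hRes1 hNVR hCont hProd hLead P hP
  obtain ⟨n1, n2, n3, n4, hl, ha5, ha6, ha7, hm2, hm3, hm4, e1, e2, e3, e4, e5, e6, e7⟩ := hNV P hP
  obtain ⟨r, s, a2, a1, a0, b2, b1, b0, hr, hs, hr0, hs0, ta2, ta1, ta0, hfac, hfac0⟩ :=
    split hRoot hBr P.l P.a5 P.m2 P.d25 P.m3 P.d35 e1 ha5 hm3 e2 e4 e6
  obtain ⟨r', s', a2', a1', a0', b2', b1', b0', hr', hs', hr0', hs0', ta2', ta1', ta0', hfac',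
    hfac0'⟩ := split hRoot hBr P.l P.a7 P.m2 P.d27 P.m4 P.d47 e1 ha7 hm4 e3 e5 e7
  obtain ⟨L00, L01, L10, L11, -⟩ := hLim P.l P.a6 P.m3 P.d36 P.m4 P.d46
  have t00 := L00 r r' _ _ hr hr'
  have t01 := L01 r s' _ _ hr hs'
  have t10 := L10 s r' _ _ hs hr'
  have t11 := L11 s s' _ _ hs hs'
  obtain ⟨v1, v2, v3, v4, v5⟩ := hNVR hG2 hTr hRes1 hLead P hP
    (C b2 * X ^ 2 + C b1 * X + C b0) (C b2' * X ^ 2 + C b1' * X + C b0')
    (natDeg2 _ _ _) (natDeg2 _ _ _) hfac0 hfac0'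
  have c1 := (hCont P (𝓝[≠] 0) a2' a1' a0' a2 a1 a0 r _ _ _ _ _ _ _ ta2' ta1' ta0' ta2 ta1 ta0
    hr0).1
  have c2 := (hCont P (𝓝[≠] 0) a2' a1' a0' a2 a1 a0 s _ _ _ _ _ _ _ ta2' ta1' ta0' ta2 ta1 ta0
    hs0).1
  have c3 := (hCont P (𝓝[≠] 0) a2 a1 a0 a2' a1' a0' r' _ _ _ _ _ _ _ ta2 ta1 ta0 ta2' ta1' ta0'
    hr0').2.1
  have c4 := (hCont P (𝓝[≠] 0) a2 a1 a0 a2' a1' a0' s' _ _ _ _ _ _ _ ta2 ta1 ta0 ta2' ta1' ta0'
    hs0').2.1
  have c5 := (hCont P (𝓝[≠] 0) a2 a1 a0 a2' a1' a0' s' _ _ _ _ _ _ _ ta2 ta1 ta0 ta2' ta1' ta0'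
    hs0').2.2
  have hall := ((((((t00.mul t01).mul t10).mul t11).mul (c1.mul c2)).mul (c3.mul c4)).mul c5)
  have hshift : Tendsto (fun v : ℝ => v + 1) (𝓝[≠] (-1)) (𝓝[≠] 0) := by
    refine tendsto_nhdsWithin_iff.mpr ⟨?_, ?_⟩
    · have h : Tendsto (fun v : ℝ => v + 1) (𝓝 (-1)) (𝓝 (-1 + 1)) :=
        (continuous_id.add continuous_const).tendsto (-1)
      rw [neg_add_cancel] at h
      exact h.mono_left nhdsWithin_le_nhds
    · filter_upwards [self_mem_nhdsWithin] with v hv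
      intro h
      apply hv
      have : v + 1 = 0 := h
      simp only [Set.mem_singleton_iff]
      linarith
  refine ⟨_, ?_, (hall.comp hshift).congr' ?_⟩
  rotate_left
  · have hev : ∀ᶠ v in 𝓝[≠] (-1 : ℝ), G P (-1 + (v + 1)) = M6 P (r (v+1)) (r' (v+1)) *
        M6 P (r (v+1)) (s' (v+1)) * M6 P (s (v+1)) (r' (v+1)) * M6 P (s (v+1)) (s' (v+1)) *
        (resultant (C (a2' (v+1)) * X ^ 2 + C (a1' (v+1)) * X + C (a0' (v+1)))
            (M6p P (r (v+1))) 2 4 *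
          resultant (C (a2' (v+1)) * X ^ 2 + C (a1' (v+1)) * X + C (a0' (v+1)))
            (M6p P (s (v+1))) 2 4) *
        (resultant (C (a2 (v+1)) * X ^ 2 + C (a1 (v+1)) * X + C (a0 (v+1)))
            (M6q P (r' (v+1))) 2 4 *
          resultant (C (a2 (v+1)) * X ^ 2 + C (a1 (v+1)) * X + C (a0 (v+1)))
            (M6q P (s' (v+1))) 2 4) *
        resultant (C (a2 (v+1)) * X ^ 2 + C (a1 (v+1)) * X + C (a0 (v+1)))
          (resultant ((C (a2' (v+1)) * X ^ 2 + C (a1' (v+1)) * X + C (a0' (v+1))).map C)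
            (M6p (P.map C) X) 2 4) 2 8 := by
      filter_upwards [hshift.eventually hfac, hshift.eventually hfac'] with v h h'
      exact hProd ℝ P (-1 + (v + 1)) _ _ _ _ _ _ (natDeg2 _ _ _) (natDeg2 _ _ _) h h'
    filter_upwards [hev, self_mem_nhdsWithin] with v h hv
    have hv1 : v + 1 ≠ 0 := by
      intro h0
      apply hv
      simp only [Set.mem_singleton_iff]
      linarith
    have hvv : -1 + (v + 1) = v := by ring
    rw [hvv] at h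
    rw [h]
    exact divs _ _ _ _ _ _ _ _ hv1
  · exact mul_ne_zero (mul_ne_zero (mul_ne_zero (mul_ne_zero (mul_ne_zero (mul_ne_zero
      n1 (neg_ne_zero.mpr n2)) (neg_ne_zero.mpr n3)) (neg_ne_zero.mpr n4)) (mul_ne_zero v1 v2))
      (mul_ne_zero v3 v4)) v5

end Pool.Agent.H771R3.TH
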