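import Mathlib
import Pool.Agent.H771R3.TH.Stmts

/-!
Project H771-TH (helper771), task Lead (helper174).
-/

set_option autoImplicit false

namespace Pool.Agent.H771R3.TH

open Polynomial

section
variable {K : Type} [CommRing K]

/-- all coefficients have degree at most `k` -/
def QL (k : ℕ) (f : K[X][X]) : Prop := ∀ j, (f.coeff j).natDegree ≤ k

theorem QL.mono {k k' : ℕ} {f : K[X][X]} (h : QL k f) (hk : k ≤ k') : QL k' f :=
  fun j => (h j).trans hk

theorem QL.add {k : ℕ} {f g : K[X][X]} (hf : QL k f) (hg : QL k g) : QL k (f + g) := by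
  intro j
  rw [coeff_add]
  exact natDegree_add_le_of_degree_le (hf j) (hg j)

theorem QL.neg {k : ℕ} {f : K[X][X]} (hf : QL k f) : QL k (-f) := by
  intro j
  rw [coeff_neg, natDegree_neg]
  exact hf j

theorem QL.sub {k : ℕ} {f g : K[X][X]} (hf : QL k f) (hg : QL k g) : QL k (f - g) := by
  rw [sub_eq_add_neg]
  exact hf.add hg.neg

theorem QL.mul {k k' : ℕ} {f g : K[X][X]} (hf : QL k f) (hg : QL k' g) :
    QL (k + k') (f * g) := by
  intro j
  rw [coeff_mul]
  apply natDegree_sum_le_of_forall_le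
  intro p _
  exact natDegree_mul_le_of_le (hf _) (hg _)

theorem QL.cc (c : K) : QL 0 (C (C c) : K[X][X]) := by
  intro j
  rw [coeff_C]
  split_ifs <;> simp

theorem QL.cx : QL 1 (C X : K[X][X]) := by
  intro j
  rw [coeff_C]
  split_ifs
  · exact natDegree_X_le
  · simp

theorem QL.x : QL 0 (X : K[X][X]) := by
  intro j
  rw [coeff_X]
  split_ifs <;> simp

theorem QL.one : QL 0 (1 : K[X][X]) := by
  intro j
  rw [coeff_one]
  split_ifs <;> simp

theorem ql_MM (l a m d m' d' : K) :
    QL 4 (MM (C (C l)) (C (C a)) (C (C m)) (C (C d)) (C (C m')) (C (C d')) (C X) X :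
      K[X][X]) := by
  have hp : QL 1 (-(C (C l) * C X + C (C m)) : K[X][X]) :=
    (((QL.cc l).mul QL.cx).add ((QL.cc m).mono (by norm_num))).neg
  have hp' : QL 0 (-(C (C l) * X + C (C m')) : K[X][X]) :=
    (((QL.cc l).mul QL.x).add (QL.cc m')).neg
  have hr : QL 2 (-(C (C a) * C X * (C X + 1)) : K[X][X]) :=
    (((QL.cc a).mul QL.cx).mul (QL.cx.add (QL.one.mono (by norm_num)))).neg
  have hr' : QL 0 (-(C (C a) * X * (X + 1)) : K[X][X]) :=
    (((QL.cc a).mul QL.x).mul (QL.x.add QL.one)).neg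
  have hq : QL 2 (C (C l) * (C X) ^ 2 + (C (C a) + C (C l) + C (C m) - C (C d)) * C X +
      C (C m) : K[X][X]) := by
    rw [pow_two]
    refine QL.add (QL.add ?_ ?_) ((QL.cc m).mono (by norm_num))
    · exact ((QL.cc l).mul (QL.cx.mul QL.cx)).mono (by norm_num)
    · exact (((((QL.cc a).add (QL.cc l)).add (QL.cc m)).sub (QL.cc d)).mul QL.cx).mono
        (by norm_num)
  have hq' : QL 0 (C (C l) * X ^ 2 + (C (C a) + C (C l) + C (C m') - C (C d')) * X +
      C (C m') : K[X][X]) := by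
    rw [pow_two]
    refine QL.add (QL.add ?_ ?_) (QL.cc m')
    · exact ((QL.cc l).mul (QL.x.mul QL.x))
    · exact (((((QL.cc a).add (QL.cc l)).add (QL.cc m')).sub (QL.cc d')).mul QL.x)
  have hA := ((hp.mul hr').mono (show 1 + 0 ≤ 2 by norm_num)).sub
    ((hp'.mul hr).mono (show 0 + 2 ≤ 2 by norm_num))
  have hB := ((hp.mul hq').mono (show 1 + 0 ≤ 2 by norm_num)).sub
    ((hp'.mul hq).mono (show 0 + 2 ≤ 2 by norm_num))
  have hD := ((hq.mul hr').mono (show 2 + 0 ≤ 2 by norm_num)).sub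
    ((hq'.mul hr).mono (show 0 + 2 ≤ 2 by norm_num))
  unfold MM
  rw [pow_two]
  exact (hA.mul hA).sub (hB.mul hD)

theorem nd_MMz (l a m d m' d' v : K) :
    (MM (C l) (C a) (C m) (C d) (C m') (C d') (C v) X : K[X]).natDegree ≤ 4 := by
  unfold MM
  compute_degree

theorem nd_MMv (l a m d m' d' z : K) :
    (MM (C l) (C a) (C m) (C d) (C m') (C d') X (C z) : K[X]).natDegree ≤ 4 := by
  unfold MM
  compute_degree

theorem co_MMz (l a m d m' d' v : K) :
    (MM (C l) (C a) (C m) (C d) (C m') (C d') (C v) X : K[X]).coeff 4 =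
      -a * (l * v + m) * (m * (l + l * v - a) - l * d * v) := by
  have h : (MM (C l) (C a) (C m) (C d) (C m') (C d') (C v) X : K[X]) =
      (C (a * (l * v + m)) * X ^ 2 + C (a * (l * v + m) - l * a * v * (v + 1)) * X +
        C (-(m' * a * v * (v + 1)))) ^ 2 -
      (C (-(l * (l * v + m))) * X ^ 2 +
        C (-(l * v + m) * (a + l + m' - d') + l * (l * v ^ 2 + (a + l + m - d) * v + m)) * X +
        C (-(l * v + m) * m' + m' * (l * v ^ 2 + (a + l + m - d) * v + m))) *
      (C (-(a * ((a + m - d) * v + m))) * X ^ 2 +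
        C (-(a * (l * v ^ 2 + (a + l + m - d) * v + m)) + (a + l + m' - d') * a * v * (v + 1)) * X
        + C (m' * a * v * (v + 1))) := by
    unfold MM
    simp only [map_add, map_sub, map_mul, map_neg, map_pow, map_one]
    ring
  rw [h]
  have e : ∀ p q r : K, (C p * X ^ 2 + C q * X + C r : K[X]).natDegree ≤ 2 := by
    intro p q r
    compute_degree
  have e2 : ∀ p q r : K, (C p * X ^ 2 + C q * X + C r : K[X]).coeff 2 = p := by
    intro p q r
    simp
  rw [coeff_sub, pow_two, show (4 : ℕ) = 2 + 2 from rfl,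
    coeff_mul_add_eq_of_natDegree_le (e _ _ _) (e _ _ _), coeff_mul_add_eq_of_natDegree_le (e _ _ _) (e _ _ _),
    e2, e2, e2]
  ring

theorem map_MM {L M : Type} [CommRing L] [CommRing M] (φ : L →+* M)
    (l a m d m' d' v z : L) :
    φ (MM l a m d m' d' v z) = MM (φ l) (φ a) (φ m) (φ d) (φ m') (φ d') (φ v) (φ z) := by
  unfold MM
  simp only [map_add, map_sub, map_mul, map_neg, map_pow, map_one]

theorem nd_resultant (f g : K[X][X]) (hf : QL 0 f) (hg : QL 4 g) :
    (resultant f g 4 4).natDegree ≤ 16 := by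
  unfold resultant
  rw [Matrix.det_apply]
  apply natDegree_sum_le_of_forall_le
  intro σ _
  refine (natDegree_smul_le _ _).trans ?_
  refine (natDegree_prod_le _ _).trans ?_
  rw [Fin.sum_univ_add (a := 4) (b := 4)]
  have h1 : ∀ i : Fin 4, ((sylvester f g 4 4) (σ (Fin.castAdd 4 i)) (Fin.castAdd 4 i)).natDegree
      ≤ 4 := by
    intro i
    unfold sylvester
    rw [Matrix.of_apply, Fin.addCases_left]
    split_ifs
    · exact hg _
    · simp
  have h2 : ∀ i : Fin 4, ((sylvester f g 4 4) (σ (Fin.natAdd 4 i)) (Fin.natAdd 4 i)).natDegree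
      ≤ 0 := by
    intro i
    unfold sylvester
    rw [Matrix.of_apply, Fin.addCases_right]
    split_ifs
    · exact hf _
    · simp
  calc _ ≤ (∑ _i : Fin 4, 4) + ∑ _i : Fin 4, 0 :=
        add_le_add (Finset.sum_le_sum fun i _ => h1 i) (Finset.sum_le_sum fun i _ => h2 i)
    _ = 16 := by simp

end

theorem taskLead : TaskLead := by
  intro K _ P v
  refine ⟨nd_MMz _ _ _ _ _ _ _, nd_MMz _ _ _ _ _ _ _, nd_MMz _ _ _ _ _ _ _,
    nd_MMv _ _ _ _ _ _ _, ?_, ?_, ?_, ?_, ?_, ?_, co_MMz _ _ _ _ _ _ _, co_MMz _ _ _ _ _ _ _⟩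
  · apply nd_resultant
    · have h : M7p (P.map C) (C v) = (M7p P v).map C := by
        rw [← coe_mapRingHom, M7p, M7p, M7, M7, map_MM]
        simp [Par.map]
      rw [h]
      intro j
      rw [coeff_map]
      exact (natDegree_C _).le
    · exact ql_MM _ _ _ _ _ _
  · intro z
    rw [← coe_evalRingHom, M5p, M5, map_MM]
    simp [Par.map, M5]
  · intro z
    rw [← coe_evalRingHom, M7p, M7, map_MM]
    simp [Par.map, M7]
  · intro z
    rw [← coe_evalRingHom, M6p, M6, map_MM]
    simp [Par.map, M6]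
  · intro z
    rw [← coe_evalRingHom, M6q, M6, map_MM]
    simp [Par.map, M6]
  · intro z
    have h7 : (M7p (P.map C) (C v)).map (evalRingHom z) = M7p P v := by
      rw [← coe_mapRingHom, M7p, M7p, M7, M7, map_MM]
      simp [Par.map]
    have h6 : (M6p (P.map C) X).map (evalRingHom z) = M6p P z := by
      rw [← coe_mapRingHom, M6p, M6p, M6, M6, map_MM]
      simp [Par.map]
    rw [← coe_evalRingHom, Up, U, ← resultant_map_map, h7, h6, U]

end Pool.Agent.H771R3.TH
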