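import Pool.Agent.H771R3.TH.Stmts

set_option autoImplicit false

namespace Pool.Agent.H771R3.TH

open Polynomial Filter Topology

theorem lim_aux (N : ℝ → ℝ → ℝ → ℝ) (hN : Continuous (fun p : ℝ × ℝ × ℝ => N p.1 p.2.1 p.2.2))
    {Z W : ℝ → ℝ} {ζ ω : ℝ} (hZ : Tendsto Z (𝓝[≠] 0) (𝓝 ζ)) (hW : Tendsto W (𝓝[≠] 0) (𝓝 ω)) :
    Tendsto (fun e => N e (Z e) (W e)) (𝓝[≠] 0) (𝓝 (N 0 ζ ω)) := by
  have h0 : Tendsto (fun e : ℝ => e) (𝓝[≠] 0) (𝓝 0) := tendsto_nhdsWithin_of_tendsto_nhds tendsto_id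
  have h1 := (hN.tendsto (0, ζ, ω)).comp (h0.prodMk_nhds (hZ.prodMk_nhds hW))
  exact h1

theorem lim_fin (N : ℝ → ℝ → ℝ → ℝ) (hN : Continuous (fun p : ℝ × ℝ × ℝ => N p.1 p.2.1 p.2.2))
    {Z W : ℝ → ℝ} {ζ ω : ℝ} (hZ : Tendsto Z (𝓝[≠] 0) (𝓝 ζ)) (hW : Tendsto W (𝓝[≠] 0) (𝓝 ω))
    (f : ℝ → ℝ) (c : ℝ) (hc : N 0 ζ ω = c) (hf : ∀ e : ℝ, e ≠ 0 → f e = N e (Z e) (W e)) :
    Tendsto f (𝓝[≠] 0) (𝓝 c) := by
  rw [← hc]
  refine (lim_aux N hN hZ hW).congr' ?_
  filter_upwards [self_mem_nhdsWithin] with e he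
  exact (hf e he).symm

theorem taskLim : TaskLim := by
  intro l a m d m' d'
  refine ⟨?_, ?_, ?_, ?_, ?_⟩
  · intro z w ζ ω hz hw
    refine lim_fin (fun e Z W =>
      (-(l * (e * Z) + m) * (-(a * W * (e * W + 1))) -
        -(l * (e * W) + m') * (-(a * Z * (e * Z + 1)))) ^ 2 -
      (l ^ 2 * e ^ 2 * Z * W * (Z - W) + l * e * Z * W * ((a + l + m - d) - (a + l + m' - d')) +
        l * e * (m' * Z ^ 2 - m * W ^ 2) + Z * m' * ((a + l + m - d) - l) -
        W * m * ((a + l + m' - d') - l)) *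
      ((l * (e * Z) ^ 2 + (a + l + m - d) * (e * Z) + m) * (-(a * W * (e * W + 1))) -
        (l * (e * W) ^ 2 + (a + l + m' - d') * (e * W) + m') * (-(a * Z * (e * Z + 1)))))
      (by fun_prop) hz hw _ _ (by ring) ?_
    intro e he
    have h1 : z e = e * (z e / e) := by field_simp
    have h2 : w e = e * (w e / e) := by field_simp
    generalize z e / e = Z at *
    generalize w e / e = W at *
    rw [h1, h2, div_eq_iff (pow_ne_zero 2 he)]
    unfold MM
    ring
  · intro z w ζ ω hz hw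
    refine lim_fin (fun e Z W =>
      e * (-(l * (e * Z) + m) * (-(a * (-1 + e * W) * W)) -
        -(l * (-1 + e * W) + m') * (-(a * Z * (e * Z + 1)))) ^ 2 -
      (-(l * (e * Z) + m) * (l * (-1 + e * W) ^ 2 + (a + l + m' - d') * (-1 + e * W) + m') -
        -(l * (-1 + e * W) + m') * (l * (e * Z) ^ 2 + (a + l + m - d) * (e * Z) + m)) *
      ((l * (e * Z) ^ 2 + (a + l + m - d) * (e * Z) + m) * (-(a * (-1 + e * W) * W)) -
        (l * (-1 + e * W) ^ 2 + (a + l + m' - d') * (-1 + e * W) + m') *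
          (-(a * Z * (e * Z + 1)))))
      (by fun_prop) hz hw _ _ (by ring) ?_
    intro e he
    have h1 : z e = e * (z e / e) := by field_simp
    have h2 : w e = -1 + e * ((w e + 1) / e) := by field_simp; ring
    generalize z e / e = Z at *
    generalize (w e + 1) / e = W at *
    rw [h1, h2, div_eq_iff he]
    unfold MM
    ring
  · intro z w ζ ω hz hw
    refine lim_fin (fun e Z W =>
      e * (-(l * (-1 + e * Z) + m) * (-(a * W * (e * W + 1))) -
        -(l * (e * W) + m') * (-(a * (-1 + e * Z) * Z))) ^ 2 -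
      (-(l * (-1 + e * Z) + m) * (l * (e * W) ^ 2 + (a + l + m' - d') * (e * W) + m') -
        -(l * (e * W) + m') * (l * (-1 + e * Z) ^ 2 + (a + l + m - d) * (-1 + e * Z) + m)) *
      ((l * (-1 + e * Z) ^ 2 + (a + l + m - d) * (-1 + e * Z) + m) * (-(a * W * (e * W + 1))) -
        (l * (e * W) ^ 2 + (a + l + m' - d') * (e * W) + m') *
          (-(a * (-1 + e * Z) * Z))))
      (by fun_prop) hz hw _ _ (by ring) ?_
    intro e he
    have h1 : z e = -1 + e * ((z e + 1) / e) := by field_simp; ring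
    have h2 : w e = e * (w e / e) := by field_simp
    generalize (z e + 1) / e = Z at *
    generalize w e / e = W at *
    rw [h1, h2, div_eq_iff he]
    unfold MM
    ring
  · intro z w ζ ω hz hw
    refine lim_fin (fun e Z W =>
      e * (-(l * (-1 + e * Z) + m) * (-(a * (-1 + e * W) * W)) -
        -(l * (-1 + e * W) + m') * (-(a * (-1 + e * Z) * Z))) ^ 2 -
      (-(l * (-1 + e * Z) + m) * (l * (-1 + e * W) ^ 2 + (a + l + m' - d') * (-1 + e * W) + m') -
        -(l * (-1 + e * W) + m') * (l * (-1 + e * Z) ^ 2 + (a + l + m - d) * (-1 + e * Z) + m)) *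
      ((l * (-1 + e * Z) ^ 2 + (a + l + m - d) * (-1 + e * Z) + m) * (-(a * (-1 + e * W) * W)) -
        (l * (-1 + e * W) ^ 2 + (a + l + m' - d') * (-1 + e * W) + m') *
          (-(a * (-1 + e * Z) * Z))))
      (by fun_prop) hz hw _ _ (by ring) ?_
    intro e he
    have h1 : z e = -1 + e * ((z e + 1) / e) := by field_simp; ring
    have h2 : w e = -1 + e * ((w e + 1) / e) := by field_simp; ring
    generalize (z e + 1) / e = Z at *
    generalize (w e + 1) / e = W at *
    rw [h1, h2, div_eq_iff he]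
    unfold MM
    ring
  · intro z w t η η' hz hw
    refine lim_fin (fun e Z W =>
      e * (a * (l * e * (m * t + e * Z) * (m' * t + e * W) * ((m' * t + e * W) - (m * t + e * Z)) +
        (m * W - m' * Z) + m * (m' * t + e * W) ^ 2 - m' * (m * t + e * Z) ^ 2)) ^ 2 -
      (l ^ 2 * e ^ 2 * (m * t + e * Z) * (m' * t + e * W) * ((m * t + e * Z) - (m' * t + e * W)) +
        l * e * (m * t + e * Z) * (m' * t + e * W) * ((a + l + m - d) - (a + l + m' - d')) +
        l * e * (m' * (m * t + e * Z) ^ 2 - m * (m' * t + e * W) ^ 2) +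
        (m * t + e * Z) * m' * ((a + l + m - d) - l) -
        (m' * t + e * W) * m * ((a + l + m' - d') - l)) *
      (-(a * ((m * W - m' * Z) + m * (m' * t + e * W) ^ 2 - m' * (m * t + e * Z) ^ 2 +
        (l * e * (m * t + e * Z) ^ 2 + (a + l + m - d) * (m * t + e * Z)) * (m' * t + e * W) *
          (e * (m' * t + e * W) + 1) -
        (l * e * (m' * t + e * W) ^ 2 + (a + l + m' - d') * (m' * t + e * W)) * (m * t + e * Z) *
          (e * (m * t + e * Z) + 1)))))
      (by fun_prop) hz hw _ _ (by ring) ?_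
    intro e he
    have h1 : z e = m * t * e + e ^ 2 * ((z e - m * t * e) / e ^ 2) := by field_simp; ring
    have h2 : w e = m' * t * e + e ^ 2 * ((w e - m' * t * e) / e ^ 2) := by field_simp; ring
    generalize (z e - m * t * e) / e ^ 2 = Z at *
    generalize (w e - m' * t * e) / e ^ 2 = W at *
    rw [h1, h2, div_eq_iff (pow_ne_zero 3 he)]
    unfold MM
    ring

end Pool.Agent.H771R3.TH
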