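import Pool.Agent.H771R3.TH.Stmts

set_option autoImplicit false

namespace Pool.Agent.H771R3.TH

/-- `F = 0` determines `d` inside the field of the other quantities -/
theorem mem_of_F {K : IntermediateField ℚ ℂ} {l a m d x z : ℂ} (hl : l ∈ K) (ha : a ∈ K)
    (hm : m ∈ K) (hx : x ∈ K) (hz : z ∈ K) (hx0 : x ≠ 0) (hz0 : z ≠ 0)
    (h : F l a m d x z = 0) : d ∈ K := by
  have hd : d = (x - 1 - z) * (a * z - l * x * z - m * x) / (x * z) := by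
    rw [eq_div_iff (mul_ne_zero hx0 hz0)]
    unfold F at h
    linear_combination -h
  rw [hd]
  refine K.div_mem (K.mul_mem (K.sub_mem (K.sub_mem hx K.one_mem) hz)
    (K.sub_mem (K.sub_mem (K.mul_mem ha hz) (K.mul_mem (K.mul_mem hl hx) hz)) (K.mul_mem hm hx)))
    (K.mul_mem hx hz)

/-- genericity over `ℂ` -/
theorem gen_complex {P : Par ℝ} (hG : Gen P) :
    AlgebraicIndependent ℚ (![(P.l : ℂ), (P.a5 : ℂ), (P.a6 : ℂ), (P.a7 : ℂ), (P.m2 : ℂ), (P.m3 : ℂ),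
      (P.m4 : ℂ), (P.d25 : ℂ), (P.d27 : ℂ), (P.d35 : ℂ), (P.d36 : ℂ), (P.d46 : ℂ),
      (P.d47 : ℂ)] : Fin 13 → ℂ) := by
  have h := AlgebraicIndependent.map' (f := IsScalarTower.toAlgHom ℚ ℝ ℂ) hG
    (by intro a b hab; exact Complex.ofReal_injective (by simpa using hab))
  convert h using 1
  funext i
  fin_cases i <;> rfl

theorem taskNF : TaskNF := by
  intro hTr P hG x5 x6 x7 z2 z3 z4 hS hm
  obtain ⟨⟨hx5, hx6, hx7, hz2, hz3, hz4⟩, h25, h35, h36, h46, h47, h27⟩ := hS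
  have hA := gen_complex hG
  set s : Fin 12 → ℂ := ![(P.l : ℂ), (P.a5 : ℂ), (P.a6 : ℂ), (P.a7 : ℂ), (P.m3 : ℂ), (P.m4 : ℂ),
    x5, x6, x7, z2, z3, z4] with hs
  set K := IntermediateField.adjoin ℚ (Set.range s) with hK
  have hmem : ∀ i, s i ∈ K := fun i => IntermediateField.subset_adjoin _ _ ⟨i, rfl⟩
  have kl : (P.l : ℂ) ∈ K := hmem 0
  have ka5 : (P.a5 : ℂ) ∈ K := hmem 1
  have ka6 : (P.a6 : ℂ) ∈ K := hmem 2
  have ka7 : (P.a7 : ℂ) ∈ K := hmem 3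
  have km3 : (P.m3 : ℂ) ∈ K := hmem 4
  have km4 : (P.m4 : ℂ) ∈ K := hmem 5
  have kx5 : x5 ∈ K := hmem 6
  have kx6 : x6 ∈ K := hmem 7
  have kx7 : x7 ∈ K := hmem 8
  have kz2 : z2 ∈ K := hmem 9
  have kz3 : z3 ∈ K := hmem 10
  have kz4 : z4 ∈ K := hmem 11
  have km2 : (P.m2 : ℂ) ∈ K := by
    rw [← hm]; exact K.mul_mem kl (K.pow_mem kz2 2)
  have k25 : (P.d25 : ℂ) ∈ K := mem_of_F kl ka5 km2 kx5 kz2 hx5 hz2 h25
  have k35 : (P.d35 : ℂ) ∈ K := mem_of_F kl ka5 km3 kx5 kz3 hx5 hz3 h35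
  have k36 : (P.d36 : ℂ) ∈ K := mem_of_F kl ka6 km3 kx6 kz3 hx6 hz3 h36
  have k46 : (P.d46 : ℂ) ∈ K := mem_of_F kl ka6 km4 kx6 kz4 hx6 hz4 h46
  have k47 : (P.d47 : ℂ) ∈ K := mem_of_F kl ka7 km4 kx7 kz4 hx7 hz4 h47
  have k27 : (P.d27 : ℂ) ∈ K := mem_of_F kl ka7 km2 kx7 kz2 hx7 hz2 h27
  refine hTr _ s hA ?_
  intro i
  fin_cases i
  · exact kl
  · exact ka5
  · exact ka6
  · exact ka7
  · exact km2
  · exact km3
  · exact km4
  · exact k25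
  · exact k27
  · exact k35
  · exact k36
  · exact k46
  · exact k47

end Pool.Agent.H771R3.TH
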