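import Pool.Agent.H771R3.TH.Stmts

/-!
Project TH, task NV0 (volunteer helper26): nonvanishing of explicit rational functions of the 13
algebraically independent parameters. Every numerator is a polynomial with rational coefficients,
which is evaluated at one integer point.
-/

set_option autoImplicit false

namespace Pool.Agent.H771R3.TH

namespace NV0

open MvPolynomial

/-- the generic parameters -/
noncomputable def PX : Par (MvPolynomial (Fin 13) ℚ) :=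
  ⟨X 0, X 1, X 2, X 3, X 4, X 5, X 6, X 7, X 8, X 9, X 10, X 11, X 12⟩

/-- a polynomial expression natural in ring homomorphisms that is nonzero at one rational point is
nonzero at every generic real point -/
theorem gen_ne {P : Par ℝ} (hP : Gen P) (Q0 : Par ℚ)
    (N : ∀ (K : Type) [CommRing K], Par K → K)
    (hnat : ∀ (K L : Type) [CommRing K] [CommRing L] (f : K →+* L) (Q : Par K),
      N L (Q.map f) = f (N K Q))
    (h0 : N ℚ Q0 ≠ 0) : N ℝ P ≠ 0 := by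
  intro h
  let g : Fin 13 → ℝ := ![P.l, P.a5, P.a6, P.a7, P.m2, P.m3, P.m4, P.d25, P.d27, P.d35, P.d36,
    P.d46, P.d47]
  let c : Fin 13 → ℚ := ![Q0.l, Q0.a5, Q0.a6, Q0.a7, Q0.m2, Q0.m3, Q0.m4, Q0.d25, Q0.d27, Q0.d35,
    Q0.d36, Q0.d46, Q0.d47]
  have hg : Function.Injective (aeval g : MvPolynomial (Fin 13) ℚ →ₐ[ℚ] ℝ) := hP
  have e1 : PX.map (aeval g : MvPolynomial (Fin 13) ℚ →ₐ[ℚ] ℝ).toRingHom = P := by
    simp only [Par.map, PX, AlgHom.toRingHom_eq_coe, RingHom.coe_coe, aeval_X]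
    rfl
  have e2 : PX.map (aeval c : MvPolynomial (Fin 13) ℚ →ₐ[ℚ] ℚ).toRingHom = Q0 := by
    simp only [Par.map, PX, AlgHom.toRingHom_eq_coe, RingHom.coe_coe, aeval_X]
    rfl
  have h1 : N _ PX = 0 := by
    apply hg
    have := hnat _ _ (aeval g : MvPolynomial (Fin 13) ℚ →ₐ[ℚ] ℝ).toRingHom PX
    rw [e1, h] at this
    rw [map_zero]
    exact this.symm
  apply h0
  have := hnat _ _ (aeval c : MvPolynomial (Fin 13) ℚ →ₐ[ℚ] ℚ).toRingHom PX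
  rw [e2, h1, map_zero] at this
  exact this

/-- the integer point -/
def Q0 : Par ℚ := ⟨2, 3, 5, 8, 11, 13, 17, 19, 25, 30, 35, 38, 43⟩

/-- homogeneous form of `MM` -/
def MMh {K : Type} [CommRing K] (l a m d m' d' A B C D : K) : K :=
  ((l * A + m * B) * B * (a * C * (C + D)) - (l * C + m' * D) * D * (a * A * (A + B))) ^ 2 -
    (-((l * A + m * B) * B * (l * C ^ 2 + (a + l + m' - d') * (C * D) + m' * D ^ 2)) +
      (l * C + m' * D) * D * (l * A ^ 2 + (a + l + m - d) * (A * B) + m * B ^ 2)) *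
    (-((l * A ^ 2 + (a + l + m - d) * (A * B) + m * B ^ 2) * (a * C * (C + D))) +
      (l * C ^ 2 + (a + l + m' - d') * (C * D) + m' * D ^ 2) * (a * A * (A + B)))

theorem MM_eq (l a m d m' d' A B C D : ℝ) (hB : B ≠ 0) (hD : D ≠ 0) :
    MM l a m d m' d' (A / B) (C / D) * (B ^ 4 * D ^ 4) = MMh l a m d m' d' A B C D := by
  unfold MM MMh
  field_simp
  ring

/-- homogeneous form of `M6` -/
def M6h {K : Type} [CommRing K] (P : Par K) (A B C D : K) : K :=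
  MMh P.l P.a6 P.m3 P.d36 P.m4 P.d46 A B C D

theorem M6_ne {P : Par ℝ} {A B C D : ℝ} (hB : B ≠ 0) (hD : D ≠ 0) (h : M6h P A B C D ≠ 0) :
    M6 P (A / B) (C / D) ≠ 0 := by
  intro h'
  apply h
  unfold M6h
  rw [← MM_eq _ _ _ _ _ _ _ _ _ _ hB hD]
  unfold M6 at h'
  rw [h', zero_mul]

theorem M6_ne1 {P : Par ℝ} {A B C : ℝ} (hB : B ≠ 0) (h : M6h P A B C 1 ≠ 0) :
    M6 P (A / B) C ≠ 0 := by
  have := M6_ne (P := P) (A := A) (B := B) (C := C) (D := 1) hB one_ne_zero h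
  rwa [div_one] at this

theorem M6_ne2 {P : Par ℝ} {A C D : ℝ} (hD : D ≠ 0) (h : M6h P A 1 C D ≠ 0) :
    M6 P A (C / D) ≠ 0 := by
  have := M6_ne (P := P) (A := A) (B := 1) (C := C) (D := D) one_ne_zero hD h
  rwa [div_one] at this

end NV0

open NV0 in
theorem taskNV0 : TaskNV0 := by
  intro P hP
  have g := fun N hnat h0 => gen_ne hP NV0.Q0 N hnat h0
  -- simple factors
  have hl : P.l ≠ 0 := g (fun K _ Q => Q.l) (by intros; rfl) (by norm_num [NV0.Q0])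
  have ha5 : P.a5 ≠ 0 := g (fun K _ Q => Q.a5) (by intros; rfl) (by norm_num [NV0.Q0])
  have ha6 : P.a6 ≠ 0 := g (fun K _ Q => Q.a6) (by intros; rfl) (by norm_num [NV0.Q0])
  have ha7 : P.a7 ≠ 0 := g (fun K _ Q => Q.a7) (by intros; rfl) (by norm_num [NV0.Q0])
  have hm2 : P.m2 ≠ 0 := g (fun K _ Q => Q.m2) (by intros; rfl) (by norm_num [NV0.Q0])
  have hm3 : P.m3 ≠ 0 := g (fun K _ Q => Q.m3) (by intros; rfl) (by norm_num [NV0.Q0])
  have hm4 : P.m4 ≠ 0 := g (fun K _ Q => Q.m4) (by intros; rfl) (by norm_num [NV0.Q0])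
  have h5l : P.a5 - P.l ≠ 0 := g (fun K _ Q => Q.a5 - Q.l)
    (by intros; simp [Par.map]) (by norm_num [NV0.Q0])
  have h7l : P.a7 - P.l ≠ 0 := g (fun K _ Q => Q.a7 - Q.l)
    (by intros; simp [Par.map]) (by norm_num [NV0.Q0])
  have h35 : P.d35 - P.m3 ≠ 0 := g (fun K _ Q => Q.d35 - Q.m3)
    (by intros; simp [Par.map]) (by norm_num [NV0.Q0])
  have h47 : P.d47 - P.m4 ≠ 0 := g (fun K _ Q => Q.d47 - Q.m4)
    (by intros; simp [Par.map]) (by norm_num [NV0.Q0])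
  have hs1 : P.a5 - P.d35 - (P.l - P.m3) ≠ 0 := g (fun K _ Q => Q.a5 - Q.d35 - (Q.l - Q.m3))
    (by intros; simp [Par.map]) (by norm_num [NV0.Q0])
  have hs2 : P.a7 - P.d47 - (P.l - P.m4) ≠ 0 := g (fun K _ Q => Q.a7 - Q.d47 - (Q.l - Q.m4))
    (by intros; simp [Par.map]) (by norm_num [NV0.Q0])
  have hs3 : P.d25 - P.m2 - (P.d35 - P.m3) ≠ 0 := g (fun K _ Q => Q.d25 - Q.m2 - (Q.d35 - Q.m3))
    (by intros; simp [Par.map]) (by norm_num [NV0.Q0])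
  have hs4 : P.d27 - P.m2 - (P.d47 - P.m4) ≠ 0 := g (fun K _ Q => Q.d27 - Q.m2 - (Q.d47 - Q.m4))
    (by intros; simp [Par.map]) (by norm_num [NV0.Q0])
  have hz1 : P.m3 - P.d35 ≠ 0 := g (fun K _ Q => Q.m3 - Q.d35)
    (by intros; simp [Par.map]) (by norm_num [NV0.Q0])
  have hz2 : P.m3 - P.d35 + (P.a5 - P.l) ≠ 0 := g (fun K _ Q => Q.m3 - Q.d35 + (Q.a5 - Q.l))
    (by intros; simp [Par.map]) (by norm_num [NV0.Q0])
  have hw1 : P.m4 - P.d47 ≠ 0 := g (fun K _ Q => Q.m4 - Q.d47)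
    (by intros; simp [Par.map]) (by norm_num [NV0.Q0])
  have hw2 : P.m4 - P.d47 + (P.a7 - P.l) ≠ 0 := g (fun K _ Q => Q.m4 - Q.d47 + (Q.a7 - Q.l))
    (by intros; simp [Par.map]) (by norm_num [NV0.Q0])
  have hbd1 : P.d25 - P.m2 - (P.d35 - P.m3) ≠ 0 := hs3
  -- M6 values
  have hM1 : M6h P (P.m3 - P.d35) (P.a5 - P.l) (P.m4 - P.d47) (P.a7 - P.l) ≠ 0 :=
    g (fun K _ Q => M6h Q (Q.m3 - Q.d35) (Q.a5 - Q.l) (Q.m4 - Q.d47) (Q.a7 - Q.l))
      (by intros; simp [Par.map, M6h, MMh]) (by norm_num [NV0.Q0, M6h, MMh])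
  have hM2 : M6h P (P.m3 - P.d35) (P.a5 - P.l) 0 1 ≠ 0 :=
    g (fun K _ Q => M6h Q (Q.m3 - Q.d35) (Q.a5 - Q.l) 0 1)
      (by intros; simp [Par.map, M6h, MMh]) (by norm_num [NV0.Q0, M6h, MMh])
  have hM3 : M6h P (P.m3 - P.d35) (P.a5 - P.l) (-1) 1 ≠ 0 :=
    g (fun K _ Q => M6h Q (Q.m3 - Q.d35) (Q.a5 - Q.l) (-1) 1)
      (by intros; simp [Par.map, M6h, MMh]) (by norm_num [NV0.Q0, M6h, MMh])
  have hM4 : M6h P 0 1 (P.m4 - P.d47) (P.a7 - P.l) ≠ 0 :=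
    g (fun K _ Q => M6h Q 0 1 (Q.m4 - Q.d47) (Q.a7 - Q.l))
      (by intros; simp [Par.map, M6h, MMh]) (by norm_num [NV0.Q0, M6h, MMh])
  have hM5 : M6h P (-1) 1 (P.m4 - P.d47) (P.a7 - P.l) ≠ 0 :=
    g (fun K _ Q => M6h Q (-1) 1 (Q.m4 - Q.d47) (Q.a7 - Q.l))
      (by intros; simp [Par.map, M6h, MMh]) (by norm_num [NV0.Q0, M6h, MMh])
  -- numerators of the quadratic forms
  have hf1 : P.d46 - P.m4 ≠ 0 := g (fun K _ Q => Q.d46 - Q.m4)
    (by intros; simp [Par.map]) (by norm_num [NV0.Q0])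
  have hq1 : (P.d27 - P.m2) * (P.d35 - P.m3) - (P.d25 - P.m2) * (P.d47 - P.m4) ≠ 0 :=
    g (fun K _ Q => (Q.d27 - Q.m2) * (Q.d35 - Q.m3) - (Q.d25 - Q.m2) * (Q.d47 - Q.m4))
      (by intros; simp [Par.map]) (by norm_num [NV0.Q0])
  have hq2 : (P.d46 - P.m4) * (P.d27 - P.m2) * (P.d35 - P.m3) -
      (P.d36 - P.m3) * (P.d25 - P.m2) * (P.d47 - P.m4) ≠ 0 :=
    g (fun K _ Q => (Q.d46 - Q.m4) * (Q.d27 - Q.m2) * (Q.d35 - Q.m3) -
      (Q.d36 - Q.m3) * (Q.d25 - Q.m2) * (Q.d47 - Q.m4))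
      (by intros; simp [Par.map]) (by norm_num [NV0.Q0])
  have hq3 : (P.d35 - P.m3) - (P.d25 - P.m2) ≠ 0 :=
    g (fun K _ Q => (Q.d35 - Q.m3) - (Q.d25 - Q.m2))
      (by intros; simp [Par.map]) (by norm_num [NV0.Q0])
  have hq4 : (P.d46 - P.m4) * (P.d35 - P.m3) - (P.d36 - P.m3) * (P.d25 - P.m2) ≠ 0 :=
    g (fun K _ Q => (Q.d46 - Q.m4) * (Q.d35 - Q.m3) - (Q.d36 - Q.m3) * (Q.d25 - Q.m2))
      (by intros; simp [Par.map]) (by norm_num [NV0.Q0])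
  have hq5 : (P.d27 - P.m2) - (P.d47 - P.m4) ≠ 0 :=
    g (fun K _ Q => (Q.d27 - Q.m2) - (Q.d47 - Q.m4))
      (by intros; simp [Par.map]) (by norm_num [NV0.Q0])
  have hq6 : (P.d46 - P.m4) * (P.d27 - P.m2) - (P.d36 - P.m3) * (P.d47 - P.m4) ≠ 0 :=
    g (fun K _ Q => (Q.d46 - Q.m4) * (Q.d27 - Q.m2) - (Q.d36 - Q.m3) * (Q.d47 - Q.m4))
      (by intros; simp [Par.map]) (by norm_num [NV0.Q0])
  have hr0 : (P.a6 - P.d46) - (P.l - P.m4) ≠ 0 :=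
    g (fun K _ Q => (Q.a6 - Q.d46) - (Q.l - Q.m4))
      (by intros; simp [Par.map]) (by norm_num [NV0.Q0])
  have hr1 : (P.a7 - P.d47) * (P.d35 - P.m3) - (P.a6 - P.d46) * (P.d25 - P.m2) ≠ 0 :=
    g (fun K _ Q => (Q.a7 - Q.d47) * (Q.d35 - Q.m3) - (Q.a6 - Q.d46) * (Q.d25 - Q.m2))
      (by intros; simp [Par.map]) (by norm_num [NV0.Q0])
  have hr2 : (P.a7 - P.d47) - (P.a6 - P.d46) ≠ 0 :=
    g (fun K _ Q => (Q.a7 - Q.d47) - (Q.a6 - Q.d46))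
      (by intros; simp [Par.map]) (by norm_num [NV0.Q0])
  have ht0 : (P.a6 - P.d36) - (P.l - P.m3) ≠ 0 :=
    g (fun K _ Q => (Q.a6 - Q.d36) - (Q.l - Q.m3))
      (by intros; simp [Par.map]) (by norm_num [NV0.Q0])
  have ht1 : (P.a5 - P.d35) * (P.d47 - P.m4) - (P.a6 - P.d36) * (P.d27 - P.m2) ≠ 0 :=
    g (fun K _ Q => (Q.a5 - Q.d35) * (Q.d47 - Q.m4) - (Q.a6 - Q.d36) * (Q.d27 - Q.m2))
      (by intros; simp [Par.map]) (by norm_num [NV0.Q0])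
  have ht2 : (P.a5 - P.d35) - (P.a6 - P.d36) ≠ 0 :=
    g (fun K _ Q => (Q.a5 - Q.d35) - (Q.a6 - Q.d36))
      (by intros; simp [Par.map]) (by norm_num [NV0.Q0])
  have hu0 : (P.l - P.m4) * (P.a6 - P.d36) - (P.l - P.m3) * (P.a6 - P.d46) ≠ 0 :=
    g (fun K _ Q => (Q.l - Q.m4) * (Q.a6 - Q.d36) - (Q.l - Q.m3) * (Q.a6 - Q.d46))
      (by intros; simp [Par.map]) (by norm_num [NV0.Q0])
  have hu1 : (P.a6 - P.d46) * (P.a5 - P.d35) - (P.a6 - P.d36) * (P.a7 - P.d47) ≠ 0 :=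
    g (fun K _ Q => (Q.a6 - Q.d46) * (Q.a5 - Q.d35) - (Q.a6 - Q.d36) * (Q.a7 - Q.d47))
      (by intros; simp [Par.map]) (by norm_num [NV0.Q0])
  have hv0 : P.m3 - P.m4 + P.d46 - P.d36 ≠ 0 :=
    g (fun K _ Q => Q.m3 - Q.m4 + Q.d46 - Q.d36)
      (by intros; simp [Par.map]) (by norm_num [NV0.Q0])
  have hv1 : P.d35 - P.d25 - P.d47 + P.d27 + P.d46 - P.d36 ≠ 0 :=
    g (fun K _ Q => Q.d35 - Q.d25 - Q.d47 + Q.d27 + Q.d46 - Q.d36)
      (by intros; simp [Par.map]) (by norm_num [NV0.Q0])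
  intro zs ws zb wb zd wd zc wc q q1 q2
  refine ⟨⟨M6_ne h5l h7l hM1, M6_ne1 h5l hM2, M6_ne1 h5l hM3, M6_ne2 h7l hM4, M6_ne2 h7l hM5⟩,
    ⟨?_, ?_, ?_⟩, ⟨?_, ?_, ?_, ?_⟩, ?_, mul_ne_zero hv0 hv1, ⟨?_, ?_, ?_, ?_, ?_, ?_⟩,
    ⟨hl, ha5, ha6, ha7, hm2, hm3, hm4, sub_ne_zero.mp h5l, sub_ne_zero.mp h7l, sub_ne_zero.mp h35,
      sub_ne_zero.mp h47, hs1, hs2, sub_ne_zero.mp hs3, sub_ne_zero.mp hs4⟩⟩
  · intro h
    have key : P.a6 * (P.m3 * P.m4) ^ 2 *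
        ((P.d27 - P.m2) * (P.d35 - P.m3) - (P.d25 - P.m2) * (P.d47 - P.m4)) *
        ((P.d46 - P.m4) * (P.d27 - P.m2) * (P.d35 - P.m3) -
          (P.d36 - P.m3) * (P.d25 - P.m2) * (P.d47 - P.m4)) =
        q zb wb * (P.m2 * (P.d47 - P.m4) * (P.d35 - P.m3)) ^ 2 := by
      simp only [q, zb, wb]
      field_simp
    rw [h, zero_mul] at key
    exact mul_ne_zero (mul_ne_zero (mul_ne_zero ha6 (pow_ne_zero 2 (mul_ne_zero hm3 hm4))) hq1)
      hq2 key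
  · intro h
    have key : P.a6 * (P.m3 * P.m4) ^ 2 * ((P.d35 - P.m3) - (P.d25 - P.m2)) *
        ((P.d46 - P.m4) * (P.d35 - P.m3) - (P.d36 - P.m3) * (P.d25 - P.m2)) =
        q zb wd * (P.m2 * (P.d35 - P.m3)) ^ 2 := by
      simp only [q, zb, wd]
      field_simp
    rw [h, zero_mul] at key
    exact mul_ne_zero (mul_ne_zero (mul_ne_zero ha6 (pow_ne_zero 2 (mul_ne_zero hm3 hm4))) hq3)
      hq4 key
  · intro h
    have key : P.a6 * (P.m3 * P.m4) ^ 2 * ((P.d27 - P.m2) - (P.d47 - P.m4)) *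
        ((P.d46 - P.m4) * (P.d27 - P.m2) - (P.d36 - P.m3) * (P.d47 - P.m4)) =
        q zd wb * (P.m2 * (P.d47 - P.m4)) ^ 2 := by
      simp only [q, zd, wb]
      field_simp
    rw [h, zero_mul] at key
    exact mul_ne_zero (mul_ne_zero (mul_ne_zero ha6 (pow_ne_zero 2 (mul_ne_zero hm3 hm4))) hq5)
      hq6 key
  · intro h
    have key : P.m3 ^ 2 * P.a6 * ((P.a6 - P.d46) - (P.l - P.m4)) *
        ((P.a7 - P.d47) * (P.d35 - P.m3) - (P.a6 - P.d46) * (P.d25 - P.m2)) =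
        q1 zb wc * (P.m2 * (P.d35 - P.m3)) := by
      simp only [q1, zb, wc]
      field_simp
    rw [h, zero_mul] at key
    exact mul_ne_zero (mul_ne_zero (mul_ne_zero (pow_ne_zero 2 hm3) ha6) hr0) hr1 key
  · intro h
    have key : P.m3 ^ 2 * P.a6 * ((P.a6 - P.d46) - (P.l - P.m4)) *
        ((P.a7 - P.d47) - (P.a6 - P.d46)) = q1 zd wc * P.m2 := by
      simp only [q1, zd, wc]
      field_simp
    rw [h, zero_mul] at key
    exact mul_ne_zero (mul_ne_zero (mul_ne_zero (pow_ne_zero 2 hm3) ha6) hr0) hr2 key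
  · intro h
    have key : P.m4 ^ 2 * P.a6 * ((P.a6 - P.d36) - (P.l - P.m3)) *
        ((P.a5 - P.d35) * (P.d47 - P.m4) - (P.a6 - P.d36) * (P.d27 - P.m2)) =
        q2 zc wb * (P.m2 * (P.d47 - P.m4)) := by
      simp only [q2, zc, wb]
      field_simp
    rw [h, zero_mul] at key
    exact mul_ne_zero (mul_ne_zero (mul_ne_zero (pow_ne_zero 2 hm4) ha6) ht0) ht1 key
  · intro h
    have key : P.m4 ^ 2 * P.a6 * ((P.a6 - P.d36) - (P.l - P.m3)) *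
        ((P.a5 - P.d35) - (P.a6 - P.d36)) = q2 zc wd * P.m2 := by
      simp only [q2, zc, wd]
      field_simp
    rw [h, zero_mul] at key
    exact mul_ne_zero (mul_ne_zero (mul_ne_zero (pow_ne_zero 2 hm4) ha6) ht0) ht2 key
  · intro h
    have key : P.a6 * ((P.l - P.m4) * (P.a6 - P.d36) - (P.l - P.m3) * (P.a6 - P.d46)) *
        ((P.a6 - P.d46) * (P.a5 - P.d35) - (P.a6 - P.d36) * (P.a7 - P.d47)) =
        P.a6 * ((P.l - P.m4) * (P.a6 - P.d36) - (P.l - P.m3) * (P.a6 - P.d46)) *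
          ((P.a6 - P.d46) * zc - (P.a6 - P.d36) * wc) * P.m2 := by
      simp only [zc, wc]
      field_simp
    rw [h, zero_mul] at key
    exact mul_ne_zero (mul_ne_zero ha6 hu0) hu1 key
  · exact div_ne_zero hz1 h5l
  · intro h
    apply hz2
    have h' : (P.m3 - P.d35) / (P.a5 - P.l) = -1 := h
    rw [div_eq_iff h5l] at h'
    linarith
  · intro h
    apply hq3
    have key : P.m3 * ((P.d35 - P.m3) - (P.d25 - P.m2)) =
        (zd - zb) * (P.m2 * (P.d35 - P.m3)) := by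
      simp only [zd, zb]
      field_simp
    rw [h, sub_self, zero_mul] at key
    exact (mul_eq_zero.mp key).resolve_left hm3
  · exact div_ne_zero hw1 h7l
  · intro h
    apply hw2
    have h' : (P.m4 - P.d47) / (P.a7 - P.l) = -1 := h
    rw [div_eq_iff h7l] at h'
    linarith
  · intro h
    apply hq5
    have key : P.m4 * ((P.d27 - P.m2) - (P.d47 - P.m4)) =
        (wb - wd) * (P.m2 * (P.d47 - P.m4)) := by
      simp only [wd, wb]
      field_simp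
    rw [h, sub_self, zero_mul] at key
    exact (mul_eq_zero.mp key).resolve_left hm4

end Pool.Agent.H771R3.TH
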