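import Pool.Agent.H771R3.TH.Stmts

/-! Task NV1 of project TH (helper610). -/

set_option autoImplicit false

namespace Pool.Agent.H771R3.TH

namespace NV1Aux

open MvPolynomial

theorem gen_poly {P : Par ℝ} (h : Gen P) (p : MvPolynomial (Fin 13) ℚ)
    (hc : eval (![2, 7, 11, 31, 5, 17, 3, 23, 101, 43, 59, 71, 13] : Fin 13 → ℚ) p ≠ 0) :
    eval₂Hom (algebraMap ℚ ℝ) ![P.l, P.a5, P.a6, P.a7, P.m2, P.m3, P.m4, P.d25, P.d27, P.d35,
      P.d36, P.d46, P.d47] p ≠ 0 := by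
  intro h0
  have h1 : p = 0 := (injective_iff_map_eq_zero _).1 h p h0
  rw [h1] at hc
  simp at hc

end NV1Aux

open NV1Aux MvPolynomial in
theorem taskNV1 : TaskNV1 := by
  intro P h
  have hl : P.l ≠ 0 := by
    have := gen_poly h (X 0) (by simp)
    simpa [-coe_eval₂Hom] using this
  have ha5 : P.a5 ≠ 0 := by
    have := gen_poly h (X 1) (by simp)
    simpa [-coe_eval₂Hom] using this
  have ha6 : P.a6 ≠ 0 := by
    have := gen_poly h (X 2) (by simp)
    simpa [-coe_eval₂Hom] using this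
  have ha7 : P.a7 ≠ 0 := by
    have := gen_poly h (X 3) (by simp)
    simpa [-coe_eval₂Hom] using this
  have hm2 : P.m2 ≠ 0 := by
    have := gen_poly h (X 4) (by simp)
    simpa [-coe_eval₂Hom] using this
  have hm3 : P.m3 ≠ 0 := by
    have := gen_poly h (X 5) (by simp)
    simpa [-coe_eval₂Hom] using this
  have hm4 : P.m4 ≠ 0 := by
    have := gen_poly h (X 6) (by simp)
    simpa [-coe_eval₂Hom] using this
  have h25 : P.a5 - P.d25 ≠ 0 := by
    have := gen_poly h (X 1 - X 7) (by simp; norm_num)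
    simpa [-coe_eval₂Hom] using this
  have h27 : P.a7 - P.d27 ≠ 0 := by
    have := gen_poly h (X 3 - X 8) (by simp; norm_num)
    simpa [-coe_eval₂Hom] using this
  have he1 : P.a5 - P.d25 - (P.a7 - P.d27) ≠ 0 := by
    have := gen_poly h (X 1 - X 7 - (X 3 - X 8)) (by simp; norm_num)
    simpa [-coe_eval₂Hom] using this
  have he1b : (P.d46 - P.m4) * (P.a5 - P.d25) - (P.d36 - P.m3) * (P.a7 - P.d27) ≠ 0 := by
    have := gen_poly h ((X 11 - X 6) * (X 1 - X 7) - (X 10 - X 5) * (X 3 - X 8))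
      (by simp; norm_num)
    simpa [-coe_eval₂Hom] using this
  have he2a : (P.a6 - P.d46) - (P.l - P.m4) ≠ 0 := by
    have := gen_poly h ((X 2 - X 11) - (X 0 - X 6)) (by simp; norm_num)
    simpa [-coe_eval₂Hom] using this
  have he2b : (P.a7 - P.d47) * (P.a5 - P.d25) - (P.a6 - P.d46) * (P.a7 - P.d27) ≠ 0 := by
    have := gen_poly h ((X 3 - X 12) * (X 1 - X 7) - (X 2 - X 11) * (X 3 - X 8))
      (by simp; norm_num)
    simpa [-coe_eval₂Hom] using this
  have he3a : (P.a6 - P.d36) - (P.l - P.m3) ≠ 0 := by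
    have := gen_poly h ((X 2 - X 10) - (X 0 - X 5)) (by simp; norm_num)
    simpa [-coe_eval₂Hom] using this
  have he3b : (P.a5 - P.d35) * (P.a7 - P.d27) - (P.a6 - P.d36) * (P.a5 - P.d25) ≠ 0 := by
    have := gen_poly h ((X 1 - X 9) * (X 3 - X 8) - (X 2 - X 10) * (X 1 - X 7))
      (by simp; norm_num)
    simpa [-coe_eval₂Hom] using this
  have he4a : (P.l - P.m4) * (P.a6 - P.d36) - (P.l - P.m3) * (P.a6 - P.d46) ≠ 0 := by
    have := gen_poly h ((X 0 - X 6) * (X 2 - X 10) - (X 0 - X 5) * (X 2 - X 11))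
      (by simp; norm_num)
    simpa [-coe_eval₂Hom] using this
  have he4b : (P.a6 - P.d46) * (P.a5 - P.d35) * (P.a7 - P.d27) -
      (P.a6 - P.d36) * (P.a7 - P.d47) * (P.a5 - P.d25) ≠ 0 := by
    have := gen_poly h ((X 2 - X 11) * (X 1 - X 9) * (X 3 - X 8) -
      (X 2 - X 10) * (X 3 - X 12) * (X 1 - X 7)) (by simp; norm_num)
    simpa [-coe_eval₂Hom] using this
  have hlm : P.l - P.m2 ≠ 0 := by
    have := gen_poly h (X 0 - X 4) (by simp; norm_num)
    simpa [-coe_eval₂Hom] using this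
  have hf1 : P.l - P.m2 - P.a5 + P.d25 ≠ 0 := by
    have := gen_poly h (X 0 - X 4 - X 1 + X 7) (by simp; norm_num)
    simpa [-coe_eval₂Hom] using this
  have hf2 : P.l - P.m2 - P.a7 + P.d27 ≠ 0 := by
    have := gen_poly h (X 0 - X 4 - X 3 + X 8) (by simp; norm_num)
    simpa [-coe_eval₂Hom] using this
  have hg1 : (P.l - P.m3) * (P.a5 - P.d25) - (P.l - P.m2) * (P.a5 - P.d35) ≠ 0 := by
    have := gen_poly h ((X 0 - X 5) * (X 1 - X 7) - (X 0 - X 4) * (X 1 - X 9))
      (by simp; norm_num)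
    simpa [-coe_eval₂Hom] using this
  have hg2 : (P.l - P.m4) * (P.a7 - P.d27) - (P.l - P.m2) * (P.a7 - P.d47) ≠ 0 := by
    have := gen_poly h ((X 0 - X 6) * (X 3 - X 8) - (X 0 - X 4) * (X 3 - X 12))
      (by simp; norm_num)
    simpa [-coe_eval₂Hom] using this
  intro za wa zc wc
  refine ⟨?_, ?_, ?_, ?_, hl, ha5, ha6, ha7, hm2, hm3, hm4, sub_ne_zero.1 hlm, sub_ne_zero.1 h25,
    sub_ne_zero.1 h27, hf1, hf2, hg1, hg2⟩
  · have e1 : P.m3 * wa - P.m4 * za = P.m3 * P.m4 * (P.a5 - P.d25 - (P.a7 - P.d27)) /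
        ((P.a5 - P.d25) * (P.a7 - P.d27)) := by
      simp only [za, wa]
      field_simp
      try ring
    have e2 : P.m3 * (P.d46 - P.m4) * wa - P.m4 * (P.d36 - P.m3) * za = P.m3 * P.m4 *
        ((P.d46 - P.m4) * (P.a5 - P.d25) - (P.d36 - P.m3) * (P.a7 - P.d27)) /
        ((P.a5 - P.d25) * (P.a7 - P.d27)) := by
      simp only [za, wa]
      field_simp
      try ring
    rw [e1, e2]
    exact mul_ne_zero (mul_ne_zero ha6 (div_ne_zero (mul_ne_zero (mul_ne_zero hm3 hm4) he1)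
      (mul_ne_zero h25 h27))) (div_ne_zero (mul_ne_zero (mul_ne_zero hm3 hm4) he1b)
      (mul_ne_zero h25 h27))
  · have e1 : P.m3 * wc - (P.a6 - P.d46) * za = P.m3 *
        ((P.a7 - P.d47) * (P.a5 - P.d25) - (P.a6 - P.d46) * (P.a7 - P.d27)) /
        ((P.a5 - P.d25) * (P.a7 - P.d27)) := by
      simp only [za, wc]
      field_simp
      try ring
    rw [e1]
    exact mul_ne_zero (mul_ne_zero (mul_ne_zero hm3 ha6) he2a)
      (div_ne_zero (mul_ne_zero hm3 he2b) (mul_ne_zero h25 h27))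
  · have e1 : P.m4 * zc - (P.a6 - P.d36) * wa = P.m4 *
        ((P.a5 - P.d35) * (P.a7 - P.d27) - (P.a6 - P.d36) * (P.a5 - P.d25)) /
        ((P.a5 - P.d25) * (P.a7 - P.d27)) := by
      simp only [zc, wa]
      field_simp
      try ring
    rw [e1]
    exact mul_ne_zero (mul_ne_zero (mul_ne_zero hm4 ha6) he3a)
      (div_ne_zero (mul_ne_zero hm4 he3b) (mul_ne_zero h25 h27))
  · have e1 : (P.a6 - P.d46) * zc - (P.a6 - P.d36) * wc =
        ((P.a6 - P.d46) * (P.a5 - P.d35) * (P.a7 - P.d27) -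
          (P.a6 - P.d36) * (P.a7 - P.d47) * (P.a5 - P.d25)) /
        ((P.a5 - P.d25) * (P.a7 - P.d27)) := by
      simp only [zc, wc]
      field_simp
      try ring
    rw [e1]
    exact mul_ne_zero (mul_ne_zero ha6 he4a) (div_ne_zero he4b (mul_ne_zero h25 h27))

end Pool.Agent.H771R3.TH
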