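import Pool.Agent.H771R3.TH.Stmts

set_option autoImplicit false

/-! TaskNat of H771-TH: naturality of `G`. -/

namespace Pool.Agent.H771R3.TH

open Polynomial

section nat
variable {K L : Type} [CommRing K] [CommRing L]

theorem Nat_MM (φ : K →+* L) (l a m d m' d' v z : K) :
    MM (φ l) (φ a) (φ m) (φ d) (φ m') (φ d') (φ v) (φ z) = φ (MM l a m d m' d' v z) := by
  simp only [MM, map_sub, map_mul, map_add, map_neg, map_pow, map_one]

theorem Nat_M5 (φ : K →+* L) (P : Par K) (v z : K) : M5 (P.map φ) (φ v) (φ z) = φ (M5 P v z) :=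
  Nat_MM φ _ _ _ _ _ _ _ _

theorem Nat_M7 (φ : K →+* L) (P : Par K) (v z : K) : M7 (P.map φ) (φ v) (φ z) = φ (M7 P v z) :=
  Nat_MM φ _ _ _ _ _ _ _ _

theorem Nat_M6 (φ : K →+* L) (P : Par K) (v z : K) : M6 (P.map φ) (φ v) (φ z) = φ (M6 P v z) :=
  Nat_MM φ _ _ _ _ _ _ _ _

theorem Nat_mapC (φ : K →+* L) (P : Par K) :
    (P.map (C : K →+* K[X])).map (mapRingHom φ) = (P.map φ).map (C : L →+* L[X]) := by
  simp [Par.map]

theorem Nat_M5p (φ : K →+* L) (P : Par K) (v : K) :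
    M5p (P.map φ) (φ v) = (M5p P v).map φ := by
  have h := Nat_M5 (mapRingHom φ) (P.map (C : K →+* K[X])) (C v) X
  rw [Nat_mapC] at h
  simpa [M5p] using h

theorem Nat_M7p (φ : K →+* L) (P : Par K) (v : K) :
    M7p (P.map φ) (φ v) = (M7p P v).map φ := by
  have h := Nat_M7 (mapRingHom φ) (P.map (C : K →+* K[X])) (C v) X
  rw [Nat_mapC] at h
  simpa [M7p] using h

theorem Nat_M6p (φ : K →+* L) (P : Par K) (v : K) :
    M6p (P.map φ) (φ v) = (M6p P v).map φ := by
  have h := Nat_M6 (mapRingHom φ) (P.map (C : K →+* K[X])) (C v) X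
  rw [Nat_mapC] at h
  simpa [M6p] using h

theorem Nat_U (φ : K →+* L) (P : Par K) (v z : K) :
    U (P.map φ) (φ v) (φ z) = φ (U P v z) := by
  unfold U
  rw [Nat_M7p, Nat_M6p, resultant_map_map]

theorem Nat_Up (φ : K →+* L) (P : Par K) (v : K) :
    Up (P.map φ) (φ v) = (Up P v).map φ := by
  have h := Nat_U (mapRingHom φ) (P.map (C : K →+* K[X])) (C v) X
  rw [Nat_mapC] at h
  simpa [Up] using h

theorem Nat_G (φ : K →+* L) (P : Par K) (v : K) : G (P.map φ) (φ v) = φ (G P v) := by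
  unfold G
  rw [Nat_M5p, Nat_Up, resultant_map_map]

end nat

theorem taskNat : TaskNat := by
  intro K L _ _ φ P v
  exact Nat_G φ P v

end Pool.Agent.H771R3.TH
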