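import Pool.Agent.H771R3.TH.Stmts

/-! TASK NormA (helper568). -/

set_option autoImplicit false

namespace Pool.Agent.H771R3.TH

theorem taskNormA : TaskNormA := by
  intro P hl ha5 ha6 ha7 hm2 hm3 hm4 q hq
  obtain ⟨X, hX⟩ : ∃ X : Fin 8 → ℂ, ∀ i, X i = q i 0 + Complex.I * q i 1 := ⟨_, fun _ => rfl⟩
  obtain ⟨Y, hY⟩ : ∃ Y : Fin 8 → ℂ, ∀ i, Y i = q i 0 - Complex.I * q i 1 := ⟨_, fun _ => rfl⟩
  have hsum : ∀ i j, ∑ k, (q i k - q j k) ^ 2 = (X i - X j) * (Y i - Y j) := by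
    intro i j
    rw [Fin.sum_univ_two, hX, hX, hY, hY]
    have hI : Complex.I ^ 2 = -1 := Complex.I_sq
    linear_combination (q i 1 - q j 1) ^ 2 * hI
  have h0 : (X 0 - X 1) * (Y 0 - Y 1) = P.l := by rw [← hsum]; exact hq 0
  have hs : X 1 - X 0 ≠ 0 := by
    intro h
    apply hl
    rw [← h0]
    have : X 0 - X 1 = 0 := by linear_combination -h
    rw [this, zero_mul]
  obtain ⟨s, hsdef⟩ : ∃ s, s = X 1 - X 0 := ⟨_, rfl⟩
  rw [← hsdef] at hs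
  obtain ⟨x, hx⟩ : ∃ x : Fin 8 → ℂ, ∀ i, x i = (X i - X 0) / s := ⟨_, fun _ => rfl⟩
  obtain ⟨y, hy⟩ : ∃ y : Fin 8 → ℂ, ∀ i, y i = (Y i - Y 0) * s := ⟨_, fun _ => rfl⟩
  have hxy : ∀ i j, ∑ k, (q i k - q j k) ^ 2 = (x i - x j) * (y i - y j) := by
    intro i j
    rw [hsum, hx, hx, hy, hy]
    field_simp
    ring
  have hx0 : x 0 = 0 := by rw [hx]; simp
  have hy0 : y 0 = 0 := by rw [hy]; simp
  have hx1 : x 1 = 1 := by rw [hx, ← hsdef]; exact div_self hs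
  have hy1 : y 1 = P.l := by
    have h := hxy 0 1
    rw [hx0, hy0, hx1, show ∑ k, (q 0 k - q 1 k) ^ 2 = P.l from hq 0] at h
    linear_combination -h
  have h5 : x 5 * y 5 = P.a5 := by
    have h := hxy 0 5
    rw [hx0, hy0, show ∑ k, (q 0 k - q 5 k) ^ 2 = P.a5 from hq 1] at h
    linear_combination -h
  have h6 : x 6 * y 6 = P.a6 := by
    have h := hxy 0 6
    rw [hx0, hy0, show ∑ k, (q 0 k - q 6 k) ^ 2 = P.a6 from hq 2] at h
    linear_combination -h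
  have h7 : x 7 * y 7 = P.a7 := by
    have h := hxy 0 7
    rw [hx0, hy0, show ∑ k, (q 0 k - q 7 k) ^ 2 = P.a7 from hq 3] at h
    linear_combination -h
  have h2 : (x 2 - 1) * (y 2 - P.l) = P.m2 := by
    have h := hxy 1 2
    rw [hx1, hy1, show ∑ k, (q 1 k - q 2 k) ^ 2 = P.m2 from hq 4] at h
    linear_combination -h
  have h3 : (x 3 - 1) * (y 3 - P.l) = P.m3 := by
    have h := hxy 1 3
    rw [hx1, hy1, show ∑ k, (q 1 k - q 3 k) ^ 2 = P.m3 from hq 5] at h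
    linear_combination -h
  have h4 : (x 4 - 1) * (y 4 - P.l) = P.m4 := by
    have h := hxy 1 4
    rw [hx1, hy1, show ∑ k, (q 1 k - q 4 k) ^ 2 = P.m4 from hq 6] at h
    linear_combination -h
  have e25 : (x 2 - x 5) * (y 2 - y 5) = P.d25 := by rw [← hxy]; exact hq 7
  have e27 : (x 2 - x 7) * (y 2 - y 7) = P.d27 := by rw [← hxy]; exact hq 8
  have e35 : (x 3 - x 5) * (y 3 - y 5) = P.d35 := by rw [← hxy]; exact hq 9
  have e36 : (x 3 - x 6) * (y 3 - y 6) = P.d36 := by rw [← hxy]; exact hq 10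
  have e46 : (x 4 - x 6) * (y 4 - y 6) = P.d46 := by rw [← hxy]; exact hq 11
  have e47 : (x 4 - x 7) * (y 4 - y 7) = P.d47 := by rw [← hxy]; exact hq 12
  have n5 : x 5 ≠ 0 := fun h => ha5 (by rw [← h5, h, zero_mul])
  have n6 : x 6 ≠ 0 := fun h => ha6 (by rw [← h6, h, zero_mul])
  have n7 : x 7 ≠ 0 := fun h => ha7 (by rw [← h7, h, zero_mul])
  have n2 : x 2 - 1 ≠ 0 := fun h => hm2 (by rw [← h2, h, zero_mul])
  have n3 : x 3 - 1 ≠ 0 := fun h => hm3 (by rw [← h3, h, zero_mul])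
  have n4 : x 4 - 1 ≠ 0 := fun h => hm4 (by rw [← h4, h, zero_mul])
  have key : ∀ a m d xx yy zx zy : ℂ, xx * yy = a → (zx - 1) * (zy - P.l) = m →
      (zx - xx) * (zy - yy) = d → F P.l a m d xx (zx - 1) = 0 := by
    intro a m d xx yy zx zy ha hm hd
    unfold F
    rw [← ha, ← hm, ← hd]
    ring
  refine ⟨x 5, x 6, x 7, x 2 - 1, x 3 - 1, x 4 - 1, ⟨⟨n5, n6, n7, n2, n3, n4⟩,
    key _ _ _ _ _ _ _ h5 h2 e25, key _ _ _ _ _ _ _ h5 h3 e35, key _ _ _ _ _ _ _ h6 h3 e36,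
    key _ _ _ _ _ _ _ h6 h4 e46, key _ _ _ _ _ _ _ h7 h4 e47, key _ _ _ _ _ _ _ h7 h2 e27⟩, ?_⟩
  have hXv : ∀ i, (![0, 1, 1 + (x 2 - 1), 1 + (x 3 - 1), 1 + (x 4 - 1), x 5, x 6, x 7] : Fin 8 → ℂ) i = x i := by
    intro i
    fin_cases i
    · exact hx0.symm
    · exact hx1.symm
    · change 1 + (x 2 - 1) = x 2; ring
    · change 1 + (x 3 - 1) = x 3; ring
    · change 1 + (x 4 - 1) = x 4; ring
    · rfl
    · rfl
    · rfl
  have hYv : ∀ i, (![0, P.l, P.l + P.m2 / (x 2 - 1), P.l + P.m3 / (x 3 - 1), P.l + P.m4 / (x 4 - 1),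
      P.a5 / x 5, P.a6 / x 6, P.a7 / x 7] : Fin 8 → ℂ) i = y i := by
    intro i
    fin_cases i
    · exact hy0.symm
    · exact hy1.symm
    · change P.l + P.m2 / (x 2 - 1) = y 2
      rw [← h2]; field_simp; ring
    · change P.l + P.m3 / (x 3 - 1) = y 3
      rw [← h3]; field_simp; ring
    · change P.l + P.m4 / (x 4 - 1) = y 4
      rw [← h4]; field_simp; ring
    · change P.a5 / x 5 = y 5
      rw [← h5]; field_simp
    · change P.a6 / x 6 = y 6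
      rw [← h6]; field_simp
    · change P.a7 / x 7 = y 7
      rw [← h7]; field_simp
  intro i j
  rw [hxy]
  unfold Dm
  rw [hXv, hXv, hYv, hYv]

end Pool.Agent.H771R3.TH
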