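import Pool.Agent.H771R3.TH.Stmts

set_option autoImplicit false

/-! TaskNormB (helper62) -/

namespace Pool.Agent.H771R3.TH

theorem normB_aux {l a m d x z : ℂ} (hx : x ≠ 0) (hz : z ≠ 0) (h : F l a m d x z = 0) :
    ((1 + z) - x) * ((l + m / z) - a / x) = d := by
  have hxz : x * z ≠ 0 := mul_ne_zero hx hz
  apply mul_right_cancel₀ hxz
  have e : ((1 + z) - x) * ((l + m / z) - a / x) * (x * z) =
      (x - 1 - z) * (a * z - l * x * z - m * x) := by
    field_simp
    ring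
  rw [e]
  unfold F at h
  linear_combination h

theorem taskNormB : TaskNormB := by
  intro P x5 x6 x7 z2 z3 z4 hS
  obtain ⟨⟨h5, h6, h7, h2, h3, h4⟩, f25, f35, f36, f46, f47, f27⟩ := hS
  refine ⟨?_, ?_⟩
  · refine ⟨fun i => ![
      ((![0, 1, 1 + z2, 1 + z3, 1 + z4, x5, x6, x7] : Fin 8 → ℂ) i +
        (![0, P.l, P.l + P.m2 / z2, P.l + P.m3 / z3, P.l + P.m4 / z4, P.a5 / x5, P.a6 / x6,
        P.a7 / x7] : Fin 8 → ℂ) i) / 2,
      ((![0, 1, 1 + z2, 1 + z3, 1 + z4, x5, x6, x7] : Fin 8 → ℂ) i -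
        (![0, P.l, P.l + P.m2 / z2, P.l + P.m3 / z3, P.l + P.m4 / z4, P.a5 / x5, P.a6 / x6,
        P.a7 / x7] : Fin 8 → ℂ) i) / 2 * Complex.I], fun i j => ?_⟩
    unfold Dm
    generalize (![0, 1, 1 + z2, 1 + z3, 1 + z4, x5, x6, x7] : Fin 8 → ℂ) = X
    generalize (![0, P.l, P.l + P.m2 / z2, P.l + P.m3 / z3, P.l + P.m4 / z4, P.a5 / x5,
      P.a6 / x6, P.a7 / x7] : Fin 8 → ℂ) = Y
    simp only [Fin.sum_univ_two, Matrix.cons_val_zero, Matrix.cons_val_one]
    have hI : Complex.I ^ 2 = -1 := Complex.I_sq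
    linear_combination (((X i - Y i) / 2 - (X j - Y j) / 2) ^ 2) * hI
  · intro e
    have e25 := normB_aux h5 h2 f25
    have e27 := normB_aux h7 h2 f27
    have e35 := normB_aux h5 h3 f35
    have e36 := normB_aux h6 h3 f36
    have e46 := normB_aux h6 h4 f46
    have e47 := normB_aux h7 h4 f47
    fin_cases e
    · change ((0 : ℂ) - 1) * (0 - P.l) = P.l
      ring
    · change ((0 : ℂ) - x5) * (0 - P.a5 / x5) = P.a5
      field_simp
      ring
    · change ((0 : ℂ) - x6) * (0 - P.a6 / x6) = P.a6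
      field_simp
      ring
    · change ((0 : ℂ) - x7) * (0 - P.a7 / x7) = P.a7
      field_simp
      ring
    · change ((1 : ℂ) - (1 + z2)) * (P.l - (P.l + P.m2 / z2)) = P.m2
      field_simp
      ring
    · change ((1 : ℂ) - (1 + z3)) * (P.l - (P.l + P.m3 / z3)) = P.m3
      field_simp
      ring
    · change ((1 : ℂ) - (1 + z4)) * (P.l - (P.l + P.m4 / z4)) = P.m4
      field_simp
      ring
    · exact e25
    · exact e27
    · exact e35
    · exact e36
    · exact e46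
    · exact e47

end Pool.Agent.H771R3.TH
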