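import Pool.Agent.H771R3.TH.Stmts

set_option autoImplicit false

/-!
# Task Pos of project H771-TH (helper811)
-/

namespace Pool.Agent.H771R3.TH

theorem Pos_sq_pos (p : Fin 8 → Fin 2 → ℝ) (h : GenP p) (i j : Fin 8) (hij : i ≠ j) : 0 < sq p i j := by
  have hinj : Function.Injective (fun x : Fin 8 × Fin 2 => p x.1 x.2) := AlgebraicIndependent.injective h
  have hne : p i 0 ≠ p j 0 := by
    intro he
    have := @hinj (i, 0) (j, 0) he
    exact hij (congrArg Prod.fst this)
  unfold sq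
  rw [Fin.sum_univ_two]
  have h1 : 0 < (p i 0 - p j 0) ^ 2 := by
    have : p i 0 - p j 0 ≠ 0 := sub_ne_zero.mpr hne
    positivity
  have h2 : 0 ≤ (p i 1 - p j 1) ^ 2 := sq_nonneg _
  linarith

theorem taskPos : TaskPos := by
  intro p h
  exact ⟨Pos_sq_pos p h 0 1 (by decide), Pos_sq_pos p h 0 5 (by decide), Pos_sq_pos p h 0 6 (by decide),
    Pos_sq_pos p h 0 7 (by decide), Pos_sq_pos p h 1 2 (by decide), Pos_sq_pos p h 1 3 (by decide),
    Pos_sq_pos p h 1 4 (by decide)⟩

end Pool.Agent.H771R3.TH
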