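import Pool.Agent.H771R3.TH.Stmts

set_option autoImplicit false

namespace Pool.Agent.H771R3.TH

open Polynomial

namespace ProdH146

lemma res_prod {R : Type} [CommRing R] [IsDomain R] (r : Fin 4 → R) (g : R[X]) (n : ℕ)
    (hg : g.natDegree ≤ n) :
    resultant (∏ i, (X - C (r i))) g 4 n = ∏ i, g.eval (r i) := by
  have h := resultant_prod_left (Finset.univ : Finset (Fin 4)) (fun i => X - C (r i)) g n
    (by simp) hg
  have hd : (∏ i : Fin 4, (X - C (r i))).natDegree = 4 := by
    rw [natDegree_prod_of_monic _ _ (fun i _ => monic_X_sub_C (r i))]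
    simp
  rw [hd] at h
  rw [h]
  refine Finset.prod_congr rfl fun i _ => ?_
  rw [natDegree_X_sub_C, resultant_X_sub_C_left _ _ _ hg]

lemma map_M7p {K L : Type} [CommRing K] [CommRing L] (φ : K →+* L) (P : Par K) (v : K) :
    (M7p P v).map φ = M7p (P.map φ) (φ v) := by
  simp [M7p, M7, MM, Par.map]

lemma natDegree_M6p {K : Type} [CommRing K] (P : Par K) (z : K) : (M6p P z).natDegree ≤ 4 := by
  simp only [M6p, M6, MM, Par.map]
  compute_degree

lemma eval_M6p {K : Type} [CommRing K] (P : Par K) (z w : K) : (M6p P z).eval w = M6 P z w := by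
  simp [M6p, M6, MM, Par.map]

lemma natDegree_M6q {K : Type} [CommRing K] (P : Par K) (w : K) :
    (M6 (P.map C) X (C w)).natDegree ≤ 4 := by
  simp only [M6, MM, Par.map]
  compute_degree

lemma eval_M6q {K : Type} [CommRing K] (P : Par K) (w z : K) :
    (M6 (P.map C) X (C w)).eval z = M6 P z w := by
  simp [M6, MM, Par.map]

lemma Up_def {K : Type} [CommRing K] (P : Par K) (v : K) :
    Up P v = resultant (M7p (P.map C) (C v)) (M6p (P.map C) X) 4 4 := by
  unfold Up U
  exact rfl

lemma M7p_split {K : Type} [Field K] (P : Par K) (v : K) (s : Fin 4 → K) (q : K)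
    (h : M7p P v = C q * ∏ j, (X - C (s j))) :
    M7p (P.map C) (C v) = C (C q) * ∏ j, (X - C (C (s j))) := by
  have h0 : M7p (P.map C) (C v) = (M7p P v).map C := (map_M7p C P v).symm
  rw [h0, h, Polynomial.map_mul, Polynomial.map_C, Polynomial.map_prod]
  simp only [Polynomial.map_sub, Polynomial.map_X, Polynomial.map_C]

lemma res_gen {R : Type} [CommRing R] [IsDomain R] (q : R) (r : Fin 4 → R) (f g : R[X])
    (hf : f = C q * ∏ i, (X - C (r i))) (hg : g.natDegree ≤ 4) :
    resultant f g 4 4 = q ^ 4 * ∏ i, g.eval (r i) := by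
  rw [hf, resultant_C_mul_left, res_prod _ _ _ hg]

lemma Up_eq {K : Type} [Field K] (P : Par K) (v : K) (s : Fin 4 → K) (q : K)
    (h : M7p P v = C q * ∏ j, (X - C (s j))) :
    Up P v = C q ^ 4 * ∏ j, M6 (P.map C) X (C (s j)) := by
  rw [Up_def, res_gen (C q) (fun j => C (s j)) _ _ (M7p_split P v s q h) (natDegree_M6p _ _)]
  simp only [eval_M6p]

end ProdH146

open ProdH146 in
theorem taskProd : TaskProd := by
  intro K _ P v r s p q h5 h7
  have hU := Up_eq P v s q h7
  have hd : (Up P v).natDegree ≤ 16 := by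
    rw [hU, ← C_pow]
    refine (natDegree_C_mul_le _ _).trans ?_
    refine (natDegree_prod_le _ _).trans ?_
    calc ∑ j : Fin 4, (M6 (P.map C) X (C (s j))).natDegree ≤ ∑ _j : Fin 4, 4 :=
          Finset.sum_le_sum fun j _ => natDegree_M6q P (s j)
      _ = 16 := by simp
  rw [G, h5, resultant_C_mul_left, res_prod _ _ _ hd]
  have he : ∀ i, (Up P v).eval (r i) = q ^ 4 * ∏ j, M6 P (r i) (s j) := by
    intro i
    rw [hU, ← C_pow, eval_mul, eval_C, eval_prod]
    simp only [eval_M6q]
  simp only [he, Finset.prod_mul_distrib, Finset.prod_const, Finset.card_univ, Fintype.card_fin]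
  ring

end Pool.Agent.H771R3.TH
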