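import Pool.Agent.H771R3.TH.Stmts

set_option autoImplicit false

/-! Task Prod1. -/

namespace Pool.Agent.H771R3.TH

open Polynomial

section Prod1

variable {R : Type*} [CommRing R]

theorem Prod1_mul_left (f₁ f₂ g : R[X]) (m₁ m₂ n : ℕ) (h₁ : f₁.natDegree ≤ m₁)
    (h₂ : f₂.natDegree ≤ m₂) (hg : g.natDegree ≤ n) :
    resultant (f₁ * f₂) g (m₁ + m₂) n = resultant f₁ g m₁ n * resultant f₂ g m₂ n := by
  obtain ⟨k₁, rfl⟩ := Nat.exists_eq_add_of_le h₁
  obtain ⟨k₂, rfl⟩ := Nat.exists_eq_add_of_le h₂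
  have e : f₁.natDegree + k₁ + (f₂.natDegree + k₂) = f₁.natDegree + f₂.natDegree + (k₁ + k₂) := by
    ring
  rw [e, resultant_add_left_deg _ _ _ _ _ natDegree_mul_le, resultant_mul_left _ _ _ _ hg,
    resultant_add_left_deg _ _ _ _ _ le_rfl, resultant_add_left_deg _ _ _ _ _ le_rfl]
  ring

theorem Prod1_mul_right (f g₁ g₂ : R[X]) (m n₁ n₂ : ℕ) (h₁ : g₁.natDegree ≤ n₁)
    (h₂ : g₂.natDegree ≤ n₂) (hf : f.natDegree ≤ m) :
    resultant f (g₁ * g₂) m (n₁ + n₂) = resultant f g₁ m n₁ * resultant f g₂ m n₂ := by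
  rw [resultant_comm, Prod1_mul_left _ _ _ _ _ _ h₁ h₂ hf, resultant_comm g₁, resultant_comm g₂]
  have e : ∀ a b : ℕ, ((-1 : R) ^ (a * b)) * (-1) ^ (b * a) = 1 := by
    intro a b
    rw [mul_comm b a, ← mul_pow]; simp
  have e1 := e n₁ m
  have e2 := e n₂ m
  rw [mul_add, pow_add]
  linear_combination (resultant f g₁ m n₁ * resultant f g₂ m n₂) *
    ((-1) ^ (m * n₂) * (-1) ^ (n₂ * m) * e1 + e2)

/-- all coefficients have degree at most `k` -/
def Prod1_D (k : ℕ) (p : R[X][X]) : Prop := ∀ i, (p.coeff i).natDegree ≤ k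

theorem Prod1_D.mono {k l : ℕ} {p : R[X][X]} (h : Prod1_D k p) (hkl : k ≤ l) : Prod1_D l p :=
  fun i => (h i).trans hkl

theorem Prod1_D.CC (a : R) : Prod1_D 0 (C (C a) : R[X][X]) := by
  intro i
  rw [coeff_C]
  split_ifs <;> simp

theorem Prod1_D.CX : Prod1_D 1 (C X : R[X][X]) := by
  intro i
  rw [coeff_C]
  split_ifs
  · exact natDegree_X_le
  · simp

theorem Prod1_D.X : Prod1_D 0 (X : R[X][X]) := by
  intro i
  rw [coeff_X]
  split_ifs <;> simp

theorem Prod1_D.one : Prod1_D 0 (1 : R[X][X]) := by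
  intro i
  rw [coeff_one]
  split_ifs <;> simp

theorem Prod1_D.add {k l : ℕ} {p q : R[X][X]} (hp : Prod1_D k p) (hq : Prod1_D l q) :
    Prod1_D (max k l) (p + q) := by
  intro i
  rw [coeff_add]
  exact (natDegree_add_le _ _).trans (max_le_max (hp i) (hq i))

theorem Prod1_D.neg {k : ℕ} {p : R[X][X]} (hp : Prod1_D k p) : Prod1_D k (-p) := by
  intro i
  rw [coeff_neg, natDegree_neg]
  exact hp i

theorem Prod1_D.sub {k l : ℕ} {p q : R[X][X]} (hp : Prod1_D k p) (hq : Prod1_D l q) :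
    Prod1_D (max k l) (p - q) := by
  rw [sub_eq_add_neg]
  exact hp.add hq.neg

theorem Prod1_D.mul {k l : ℕ} {p q : R[X][X]} (hp : Prod1_D k p) (hq : Prod1_D l q) :
    Prod1_D (k + l) (p * q) := by
  intro i
  rw [coeff_mul]
  refine natDegree_sum_le_of_forall_le _ _ fun x _ => ?_
  exact natDegree_mul_le.trans (add_le_add (hp _) (hq _))

theorem Prod1_D.sq {k : ℕ} {p : R[X][X]} (hp : Prod1_D k p) : Prod1_D (k + k) (p ^ 2) := by
  rw [pow_two]
  exact hp.mul hp

theorem Prod1_res_deg (f g : R[X][X]) (m n a b : ℕ) (hf : Prod1_D a f) (hg : Prod1_D b g) :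
    (resultant f g m n).natDegree ≤ m * b + n * a := by
  unfold resultant
  rw [Matrix.det_apply]
  refine natDegree_sum_le_of_forall_le _ _ fun σ _ => ?_
  have h1 : (∏ i, sylvester f g m n (σ i) i).natDegree ≤ m * b + n * a := by
    refine (natDegree_prod_le _ _).trans ?_
    rw [Fin.sum_univ_add]
    refine add_le_add ?_ ?_
    · refine (Finset.sum_le_card_nsmul _ _ b fun i _ => ?_).trans (by simp)
      simp only [sylvester, Matrix.of_apply, Fin.addCases_left]
      split_ifs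
      · exact hg _
      · simp
    · refine (Finset.sum_le_card_nsmul _ _ a fun i _ => ?_).trans (by simp)
      simp only [sylvester, Matrix.of_apply, Fin.addCases_right]
      split_ifs
      · exact hf _
      · simp
  rcases Int.units_eq_one_or (Equiv.Perm.sign σ) with h | h
  · rw [h, one_smul]; exact h1
  · rw [h, Units.neg_smul, one_smul, natDegree_neg]; exact h1

/-- degree in the first variable -/
theorem Prod1_M6_D (P : Par R) : Prod1_D 4 (M6p (P.map C) (X : R[X])) := by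
  unfold M6p M6 MM
  simp only [Par.map]
  have A : ∀ a : R, Prod1_D 0 (C (C a) : R[X][X]) := Prod1_D.CC
  have V : Prod1_D 1 (C X : R[X][X]) := Prod1_D.CX
  have Z : Prod1_D 0 (X : R[X][X]) := Prod1_D.X
  have O : Prod1_D 0 (1 : R[X][X]) := Prod1_D.one
  -- the six quadratics coefficients
  have p : Prod1_D 1 (-(C (C P.l) * C X + C (C P.m3)) : R[X][X]) :=
    ((((A _).mul V).add (A _)).neg).mono (by norm_num)
  have p' : Prod1_D 0 (-(C (C P.l) * X + C (C P.m4)) : R[X][X]) :=
    ((((A _).mul Z).add (A _)).neg).mono (by norm_num)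
  have r : Prod1_D 2 (-(C (C P.a6) * C X * (C X + 1)) : R[X][X]) :=
    (((((A _).mul V)).mul (V.add O)).neg).mono (by norm_num)
  have r' : Prod1_D 0 (-(C (C P.a6) * X * (X + 1)) : R[X][X]) :=
    (((((A _).mul Z)).mul (Z.add O)).neg).mono (by norm_num)
  have q : Prod1_D 2 (C (C P.l) * C X ^ 2 +
      (C (C P.a6) + C (C P.l) + C (C P.m3) - C (C P.d36)) * C X + C (C P.m3) : R[X][X]) :=
    ((((A _).mul V.sq).add (((((A _).add (A _)).add (A _)).sub (A _)).mul V)).add (A _)).mono
      (by norm_num)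
  have q' : Prod1_D 0 (C (C P.l) * X ^ 2 +
      (C (C P.a6) + C (C P.l) + C (C P.m4) - C (C P.d46)) * X + C (C P.m4) : R[X][X]) :=
    ((((A _).mul Z.sq).add (((((A _).add (A _)).add (A _)).sub (A _)).mul Z)).add (A _)).mono
      (by norm_num)
  exact ((((p.mul r').sub (p'.mul r)).sq).sub
    (((p.mul q').sub (p'.mul q)).mul ((q.mul r').sub (q'.mul r)))).mono (by norm_num)

theorem Prod1_M6p_deg (P : Par R) (z : R) : (M6p P z).natDegree ≤ 4 := by
  unfold M6p M6 MM
  simp only [Par.map]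
  compute_degree

theorem Prod1_M6q_deg (P : Par R) (z : R) : (M6q P z).natDegree ≤ 4 := by
  unfold M6q M6 MM
  simp only [Par.map]
  compute_degree

theorem Prod1_M7_map (P : Par R) (v : R) : M7p (P.map C) (C v) = (M7p P v).map (C : R →+* R[X]) := by
  simp only [M7p, M7, MM, Par.map, Polynomial.map_sub, Polynomial.map_mul, Polynomial.map_pow,
    Polynomial.map_add, Polynomial.map_neg, Polynomial.map_C, Polynomial.map_X, Polynomial.map_one]

theorem Prod1_M6_eval (P : Par R) (z w : R) : (M6p P z).eval w = M6 P z w := by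
  simp only [M6p, M6, MM, Par.map, eval_sub, eval_mul, eval_pow, eval_add, eval_neg, eval_C,
    eval_X, eval_one]

theorem Prod1_M6q_eval (P : Par R) (z w : R) : (M6q P w).eval z = M6 P z w := by
  simp only [M6q, M6, MM, Par.map, eval_sub, eval_mul, eval_pow, eval_add, eval_neg, eval_C,
    eval_X, eval_one]

theorem Prod1_M6_map (P : Par R) (z : R) :
    (M6p (P.map C) (X : R[X])).map (evalRingHom z) = M6p P z := by
  simp only [M6p, M6, MM, Par.map, Polynomial.map_sub, Polynomial.map_mul, Polynomial.map_pow,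
    Polynomial.map_add, Polynomial.map_neg, Polynomial.map_C, Polynomial.map_X, Polynomial.map_one,
    coe_evalRingHom, eval_C, eval_X]

end Prod1

/-- resultant with two linear factors split off -/
theorem Prod1_split {R : Type*} [CommRing R] (α β : R) (Q g : R[X]) (k n : ℕ)
    (hQ : Q.natDegree ≤ k) (hg : g.natDegree ≤ n) :
    resultant ((X - C α) * (X - C β) * Q) g (1 + 1 + k) n =
      g.eval α * g.eval β * resultant Q g k n := by
  have h1 : ((X - C α) * (X - C β)).natDegree ≤ 1 + 1 :=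
    natDegree_mul_le.trans (add_le_add (natDegree_X_sub_C_le _) (natDegree_X_sub_C_le _))
  rw [Prod1_mul_left _ _ _ _ _ _ h1 hQ hg, Prod1_mul_left _ _ _ _ _ _ (natDegree_X_sub_C_le _)
    (natDegree_X_sub_C_le _) hg, resultant_X_sub_C_left _ _ _ hg, resultant_X_sub_C_left _ _ _ hg]

theorem Prod1_gen {K : Type*} [CommRing K] (P : Par K) (v α β α' β' : K) (Q Q' : K[X])
    (hQ : Q.natDegree ≤ 2) (hQ' : Q'.natDegree ≤ 2)
    (h5 : M5p P v = (X - C α) * (X - C β) * Q) (h7 : M7p P v = (X - C α') * (X - C β') * Q') :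
    G P v = M6 P α α' * M6 P α β' * M6 P β α' * M6 P β β' *
      (resultant Q' (M6p P α) 2 4 * resultant Q' (M6p P β) 2 4) *
      (resultant Q (M6q P α') 2 4 * resultant Q (M6q P β') 2 4) *
      resultant Q (resultant (Q'.map C) (M6p (P.map C) X) 2 4) 2 8 := by
  obtain ⟨S, hS⟩ : ∃ S : K[X], S = resultant (Q'.map C) (M6p (P.map C) X) 2 4 := ⟨_, rfl⟩
  have hUp : Up P v = M6q P α' * M6q P β' * S := by
    unfold Up U
    have e7 : M7p (P.map C) (C v) =
        (X - C (C α')) * (X - C (C β')) * Q'.map (C : K →+* K[X]) := by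
      rw [Prod1_M7_map, h7]
      simp only [Polynomial.map_mul, Polynomial.map_sub, Polynomial.map_X, Polynomial.map_C]
    rw [e7]
    refine (Prod1_split (C α') (C β') (Q'.map C) (M6p (P.map C) X) 2 4
      (natDegree_map_le.trans hQ') (Prod1_M6p_deg _ _)).trans ?_
    rw [Prod1_M6_eval, Prod1_M6_eval, hS]
    rfl
  have hSdeg : S.natDegree ≤ 8 := by
    rw [hS]
    refine (Prod1_res_deg _ _ 2 4 0 4 ?_ (Prod1_M6_D P)).trans (by norm_num)
    intro i
    rw [coeff_map]
    simp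
  have hUpdeg : (Up P v).natDegree ≤ 4 + 4 + 8 := by
    rw [hUp]
    exact natDegree_mul_le.trans (add_le_add (natDegree_mul_le.trans
      (add_le_add (Prod1_M6q_deg _ _) (Prod1_M6q_deg _ _))) hSdeg)
  have hSe : ∀ z : K, S.eval z = resultant Q' (M6p P z) 2 4 := by
    intro z
    rw [hS, ← coe_evalRingHom, ← resultant_map_map, Prod1_M6_map, Polynomial.map_map]
    congr 1
    have : (evalRingHom z).comp (C : K →+* K[X]) = RingHom.id K := by
      ext x; simp
    rw [this, Polynomial.map_id]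
  have e1 := Prod1_split α β Q (Up P v) 2 16 hQ hUpdeg
  have e2 : resultant Q (Up P v) 2 16 =
      resultant Q (M6q P α') 2 4 * resultant Q (M6q P β') 2 4 * resultant Q S 2 8 := by
    rw [hUp]
    have h3 : (M6q P α' * M6q P β').natDegree ≤ 4 + 4 :=
      natDegree_mul_le.trans (add_le_add (Prod1_M6q_deg _ _) (Prod1_M6q_deg _ _))
    have e3 := Prod1_mul_right Q (M6q P α' * M6q P β') S 2 (4 + 4) 8 h3 hSdeg hQ
    have e4 := Prod1_mul_right Q (M6q P α') (M6q P β') 2 4 4 (Prod1_M6q_deg _ _)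
      (Prod1_M6q_deg _ _) hQ
    rw [e4] at e3
    exact e3
  have e5 : ∀ z : K, (Up P v).eval z = M6 P z α' * M6 P z β' * resultant Q' (M6p P z) 2 4 := by
    intro z
    rw [hUp, eval_mul, eval_mul, Prod1_M6q_eval, Prod1_M6q_eval, hSe]
  rw [e2, e5, e5] at e1
  rw [← hS]
  unfold G
  rw [h5]
  refine e1.trans ?_
  ring

theorem taskProd1 : TaskProd1 := by
  intro K _ P v α β α' β' Q Q' hQ hQ' h5 h7
  exact Prod1_gen P v α β α' β' Q Q' hQ hQ' h5 h7

end Pool.Agent.H771R3.TH
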