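import Pool.Agent.H771R3.TH.Stmts

set_option autoImplicit false

/-! `MM` is the resultant of two quadratics: common roots. -/

namespace Pool.Agent.H771R3.TH

theorem Res1_quad (p q r : ℂ) (hp : p ≠ 0) : ∃ x y : ℂ, q = -(p * (x + y)) ∧ r = p * (x * y) := by
  obtain ⟨s, hs⟩ := IsAlgClosed.exists_pow_nat_eq (q ^ 2 - 4 * p * r) (n := 2) (by norm_num)
  refine ⟨(-q + s) / (2 * p), (-q - s) / (2 * p), ?_, ?_⟩
  · field_simp
    ring
  · field_simp
    linear_combination hs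

theorem Res1_common (p q r p' q' r' : ℂ) (hp : p ≠ 0)
    (h : (p * r' - p' * r) ^ 2 - (p * q' - p' * q) * (q * r' - q' * r) = 0) :
    ∃ x : ℂ, p * x ^ 2 + q * x + r = 0 ∧ p' * x ^ 2 + q' * x + r' = 0 := by
  obtain ⟨x, y, hq, hr⟩ := Res1_quad p q r hp
  have key : p ^ 2 * ((p' * x ^ 2 + q' * x + r') * (p' * y ^ 2 + q' * y + r')) = 0 := by
    rw [← h, hq, hr]
    ring
  have hp2 : p ^ 2 ≠ 0 := pow_ne_zero _ hp
  rcases mul_eq_zero.mp ((mul_eq_zero.mp key).resolve_left hp2) with h1 | h1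
  · exact ⟨x, by rw [hq, hr]; ring, h1⟩
  · exact ⟨y, by rw [hq, hr]; ring, h1⟩

theorem taskRes1 : TaskRes1 := by
  intro l a m d m' d' v z h
  have hF : ∀ m d x z : ℂ, F l a m d x z = -(l * z + m) * x ^ 2 +
      (l * z ^ 2 + (a + l + m - d) * z + m) * x + -(a * z * (z + 1)) := by
    intro m d x z
    unfold F
    ring
  unfold MM at h
  by_cases hp : -(l * v + m) = 0
  · by_cases hp' : -(l * z + m') = 0
    · exact Or.inr ⟨neg_eq_zero.mp hp, neg_eq_zero.mp hp'⟩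
    · left
      obtain ⟨x, h1, h2⟩ := Res1_common (-(l * z + m')) (l * z ^ 2 + (a + l + m' - d') * z + m')
        (-(a * z * (z + 1))) (-(l * v + m)) (l * v ^ 2 + (a + l + m - d) * v + m)
        (-(a * v * (v + 1))) hp' (by rw [← h]; ring)
      exact ⟨x, by rw [hF]; exact h2, by rw [hF]; exact h1⟩
  · left
    obtain ⟨x, h1, h2⟩ := Res1_common (-(l * v + m)) (l * v ^ 2 + (a + l + m - d) * v + m)
      (-(a * v * (v + 1))) (-(l * z + m')) (l * z ^ 2 + (a + l + m' - d') * z + m')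
      (-(a * z * (z + 1))) hp (by rw [← h])
    exact ⟨x, by rw [hF]; exact h1, by rw [hF]; exact h2⟩

end Pool.Agent.H771R3.TH
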