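import Pool.Agent.H771R3.TH.Stmts

set_option autoImplicit false

/-! Task Res1c of H771-TH (helper133). -/

namespace Pool.Agent.H771R3.TH

theorem taskRes1c : TaskRes1c := by
  intro K _ l a m d m' d' v z x h1 h2
  unfold F at h1 h2
  set A := -(l * v + m) with hA
  set B := l * v ^ 2 + (a + l + m - d) * v + m with hB
  set C := -(a * v * (v + 1)) with hC
  set A' := -(l * z + m') with hA'
  set B' := l * z ^ 2 + (a + l + m' - d') * z + m' with hB'
  set C' := -(a * z * (z + 1)) with hC'
  have e1 : A * x ^ 2 + B * x + C = 0 := by
    rw [hA, hB, hC]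
    linear_combination h1
  have e2 : A' * x ^ 2 + B' * x + C' = 0 := by
    rw [hA', hB', hC']
    linear_combination h2
  have goal' : (A * C' - A' * C) ^ 2 - (A * B' - A' * B) * (B * C' - B' * C) = 0 := by
    by_cases hx : x = 0
    · rw [hx] at e1 e2
      have e3 : C = 0 := by linear_combination e1
      have e4 : C' = 0 := by linear_combination e2
      rw [e3, e4]
      ring
    · have f1 : (A * B' - A' * B) * x + (A * C' - A' * C) = 0 := by
        linear_combination (-A') * e1 + A * e2
      have f2 : (A * C' - A' * C) * x + (B * C' - B' * C) = 0 := by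
        apply mul_left_cancel₀ hx
        linear_combination C' * e1 - C * e2
      linear_combination (A * C' - A' * C) * f1 - (A * B' - A' * B) * f2
  unfold MM
  exact goal'

end Pool.Agent.H771R3.TH
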