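import Pool.Agent.H771R3.TH.Stmts

/-! Task Res2 of project H771-TH. The bound for the degree of `Up` is taken from `TaskLead`. -/

set_option autoImplicit false

namespace Pool.Agent.H771R3.TH

open Polynomial

theorem res2_root (f g : ℂ[X]) (n : ℕ) (hf : f.natDegree = 4) (hg : g.natDegree ≤ n)
    (h : resultant f g 4 n = 0) : ∃ r, f.eval r = 0 ∧ g.eval r = 0 := by
  have h0 : f ≠ 0 := by
    rintro rfl
    simp at hf
  have h1 := resultant_eq_prod_eval f g n hg (IsAlgClosed.splits f)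
  rw [hf, h] at h1
  have h2 : f.leadingCoeff ^ n ≠ 0 := pow_ne_zero _ (leadingCoeff_ne_zero.2 h0)
  have h3 : (f.roots.map (fun x => g.eval x)).prod = 0 := by
    rcases mul_eq_zero.1 h1.symm with h4 | h4
    · exact absurd h4 h2
    · exact h4
  rw [Multiset.prod_eq_zero_iff, Multiset.mem_map] at h3
  obtain ⟨r, hr, hgr⟩ := h3
  exact ⟨r, (mem_roots h0).1 hr, hgr⟩

theorem taskRes2_of (hL : TaskLead) : TaskRes2 := by
  intro P v h5 h7 hG
  obtain ⟨d5, d7, -, -, dU, e5, e7, -, -, eU, -, -⟩ := hL ℂ P v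
  have n5 : (M5p P v).natDegree = 4 := le_antisymm d5 (le_natDegree_of_ne_zero h5)
  have n7 : (M7p P v).natDegree = 4 := le_antisymm d7 (le_natDegree_of_ne_zero h7)
  obtain ⟨z, hz, hUz⟩ := res2_root (M5p P v) (Up P v) 16 n5 dU hG
  rw [eU] at hUz
  obtain ⟨-, -, d6, -, -, -, -, e6, -, -, -, -⟩ := hL ℂ P z
  obtain ⟨w, hw, h6w⟩ := res2_root (M7p P v) (M6p P z) 4 n7 d6 hUz
  exact ⟨z, w, by rw [← e5]; exact hz, by rw [← e7]; exact hw, by rw [← e6]; exact h6w⟩

end Pool.Agent.H771R3.TH
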