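import Pool.Agent.H771R3.TH.Stmts

set_option autoImplicit false

namespace Pool.Agent.H771R3.TH

open MvPolynomial in
/-- a polynomial that does not vanish at a rational point does not vanish at a generic point -/
theorem Rig_ne {p : Fin 8 → Fin 2 → ℝ} (hp : GenP p) (P : MvPolynomial (Fin 8 × Fin 2) ℚ)
    (c : Fin 8 × Fin 2 → ℚ) (hc : MvPolynomial.eval c P ≠ 0) :
    MvPolynomial.aeval (fun x : Fin 8 × Fin 2 => p x.1 x.2) P ≠ 0 := by
  intro h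
  have h1 : P = 0 := by
    apply hp
    rw [h, map_zero]
  rw [h1, map_zero] at hc
  exact hc rfl

open MvPolynomial in
noncomputable def Rig_A (i j : Fin 8) : MvPolynomial (Fin 8 × Fin 2) ℚ :=
  (X (i, 1) - X (j, 1)) * (X (i, 0) - X (1, 0)) - (X (i, 0) - X (j, 0)) * (X (i, 1) - X (1, 1))

open MvPolynomial in
noncomputable def Rig_B (i j : Fin 8) : MvPolynomial (Fin 8 × Fin 2) ℚ :=
  (X (i, 1) - X (j, 1)) * (X (j, 0) - X (0, 0)) - (X (i, 0) - X (j, 0)) * (X (j, 1) - X (0, 1))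

noncomputable def Rig_Th : MvPolynomial (Fin 8 × Fin 2) ℚ :=
  Rig_A 2 5 * Rig_B 3 5 * Rig_A 3 6 * Rig_B 4 6 * Rig_A 4 7 * Rig_B 2 7 -
    Rig_B 2 5 * Rig_A 3 5 * Rig_B 3 6 * Rig_A 4 6 * Rig_B 4 7 * Rig_A 2 7

/-- coordinates of the test point -/
def Rig_x : Fin 8 → ℚ := ![1, 3, 2, 2, 3, 0, 4, 2]
def Rig_y : Fin 8 → ℚ := ![3, 1, 4, 0, 4, 1, 3, 3]
def Rig_c (x : Fin 8 × Fin 2) : ℚ := if x.2 = 0 then Rig_x x.1 else Rig_y x.1

theorem Rig_c0 (i : Fin 8) : Rig_c (i, 0) = Rig_x i := rfl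
theorem Rig_c1 (i : Fin 8) : Rig_c (i, 1) = Rig_y i := rfl

theorem Rig_Ae (i j : Fin 8) : MvPolynomial.eval Rig_c (Rig_A i j) =
    (Rig_y i - Rig_y j) * (Rig_x i - Rig_x 1) - (Rig_x i - Rig_x j) * (Rig_y i - Rig_y 1) := by
  simp only [Rig_A, map_sub, map_mul, MvPolynomial.eval_X, Rig_c0, Rig_c1]

theorem Rig_Be (i j : Fin 8) : MvPolynomial.eval Rig_c (Rig_B i j) =
    (Rig_y i - Rig_y j) * (Rig_x j - Rig_x 0) - (Rig_x i - Rig_x j) * (Rig_y j - Rig_y 0) := by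
  simp only [Rig_B, map_sub, map_mul, MvPolynomial.eval_X, Rig_c0, Rig_c1]

theorem Rig_generic {p : Fin 8 → Fin 2 → ℝ} (hp : GenP p) :
    MvPolynomial.aeval (fun x : Fin 8 × Fin 2 => p x.1 x.2)
      (Rig_B 2 5 * Rig_B 2 7 * Rig_A 3 5 * Rig_B 3 6 * Rig_A 4 6 * Rig_Th) ≠ 0 := by
  apply Rig_ne hp _ Rig_c
  have x0 : Rig_x 0 = 1 := rfl
  have x1 : Rig_x 1 = 3 := rfl
  have x2 : Rig_x 2 = 2 := rfl
  have x3 : Rig_x 3 = 2 := rfl
  have x4 : Rig_x 4 = 3 := rfl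
  have x5 : Rig_x 5 = 0 := rfl
  have x6 : Rig_x 6 = 4 := rfl
  have x7 : Rig_x 7 = 2 := rfl
  have y0 : Rig_y 0 = 3 := rfl
  have y1 : Rig_y 1 = 1 := rfl
  have y2 : Rig_y 2 = 4 := rfl
  have y3 : Rig_y 3 = 0 := rfl
  have y4 : Rig_y 4 = 4 := rfl
  have y5 : Rig_y 5 = 1 := rfl
  have y6 : Rig_y 6 = 3 := rfl
  have y7 : Rig_y 7 = 3 := rfl
  simp only [Rig_Th, map_mul, map_sub, Rig_Ae, Rig_Be, x0, x1, x2, x3, x4, x5, x6, x7,
    y0, y1, y2, y3, y4, y5, y6, y7]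
  norm_num

/-- the linear algebra of the hexagon -/
theorem Rig_lin (s2 s3 s4 t5 t6 t7 A25 A27 A35 A36 A46 A47 B25 B27 B35 B36 B46 B47 : ℝ)
    (e25 : s2 * A25 = t5 * B25) (e27 : s2 * A27 = t7 * B27)
    (e35 : s3 * A35 = t5 * B35) (e36 : s3 * A36 = t6 * B36)
    (e46 : s4 * A46 = t6 * B46) (e47 : s4 * A47 = t7 * B47)
    (hgen : B25 * B27 * A35 * B36 * A46 *
      (A25 * B35 * A36 * B46 * A47 * B27 - B25 * A35 * B36 * A46 * B47 * A27) ≠ 0) :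
    s2 = 0 ∧ s3 = 0 ∧ s4 = 0 ∧ t5 = 0 ∧ t6 = 0 ∧ t7 = 0 := by
  have hTh : A25 * B35 * A36 * B46 * A47 * B27 - B25 * A35 * B36 * A46 * B47 * A27 ≠ 0 :=
    right_ne_zero_of_mul hgen
  have h5 := left_ne_zero_of_mul hgen
  have hA46 : A46 ≠ 0 := right_ne_zero_of_mul h5
  have h4 := left_ne_zero_of_mul h5
  have hB36 : B36 ≠ 0 := right_ne_zero_of_mul h4
  have h3 := left_ne_zero_of_mul h4
  have hA35 : A35 ≠ 0 := right_ne_zero_of_mul h3
  have h2 := left_ne_zero_of_mul h3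
  have hB27 : B27 ≠ 0 := right_ne_zero_of_mul h2
  have hB25 : B25 ≠ 0 := left_ne_zero_of_mul h2
  have zs2 : s2 = 0 := by
    have : s2 * (A25 * B35 * A36 * B46 * A47 * B27 - B25 * A35 * B36 * A46 * B47 * A27) = 0 := by
      linear_combination (B35 * A36 * B46 * A47 * B27) * e25
        - (B25 * A36 * B46 * A47 * B27) * e35
        + (B25 * A35 * B46 * A47 * B27) * e36
        - (B25 * A35 * B36 * A47 * B27) * e46
        + (B25 * A35 * B36 * A46 * B27) * e47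
        - (B25 * A35 * B36 * A46 * B47) * e27
    exact (mul_eq_zero.mp this).resolve_right hTh
  have zt5 : t5 = 0 := by
    rw [zs2, zero_mul] at e25
    exact (mul_eq_zero.mp e25.symm).resolve_right hB25
  have zt7 : t7 = 0 := by
    rw [zs2, zero_mul] at e27
    exact (mul_eq_zero.mp e27.symm).resolve_right hB27
  have zs3 : s3 = 0 := by
    rw [zt5, zero_mul] at e35
    exact (mul_eq_zero.mp e35).resolve_right hA35
  have zt6 : t6 = 0 := by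
    rw [zs3, zero_mul] at e36
    exact (mul_eq_zero.mp e36.symm).resolve_right hB36
  have zs4 : s4 = 0 := by
    rw [zt6, zero_mul] at e46
    exact (mul_eq_zero.mp e46).resolve_right hA46
  exact ⟨zs2, zs3, zs4, zt5, zt6, zt7⟩

/-- the equation of the edge `ij` -/
theorem Rig_edge (xi yi xj yj x0 y0 x1 y1 ai bi aj bj s t : ℝ)
    (h : (xi - xj) * (ai - aj) + (yi - yj) * (bi - bj) = 0)
    (h1 : ai = -s * (yi - y1)) (h2 : bi = s * (xi - x1))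
    (h3 : aj = -t * (yj - y0)) (h4 : bj = t * (xj - x0)) :
    s * ((yi - yj) * (xi - x1) - (xi - xj) * (yi - y1)) =
      t * ((yi - yj) * (xj - x0) - (xi - xj) * (yj - y0)) := by
  subst h1 h2 h3 h4
  linear_combination h

theorem Rig_adj (e : Fin 13) : gr.Adj (ed e).1 (ed e).2 := by
  have h1 : (ed e).1 ≠ (ed e).2 := by
    fin_cases e <;> decide
  exact ⟨h1, Or.inl ⟨e, rfl⟩⟩

theorem taskRig : TaskRig := by
  intro p hp u hu
  have H : ∀ i j, gr.Adj i j →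
      (p i 0 - p j 0) * (u i 0 - u j 0) + (p i 1 - p j 1) * (u i 1 - u j 1) = 0 := by
    intro i j h
    have := hu i j h
    rwa [Fin.sum_univ_two] at this
  have hx : ∀ i j : Fin 8, i ≠ j → p i 0 - p j 0 ≠ 0 := by
    intro i j hij h
    have h1 : (fun x : Fin 8 × Fin 2 => p x.1 x.2) (i, 0)
        = (fun x : Fin 8 × Fin 2 => p x.1 x.2) (j, 0) := sub_eq_zero.mp h
    have h2 := hp.injective h1
    exact hij (congrArg Prod.fst h2)
  set w : ℝ := (u 1 1 - u 0 1) / (p 1 0 - p 0 0) with hw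
  set a : Fin 8 → ℝ := fun i => u i 0 - u 0 0 + w * (p i 1 - p 0 1) with ha
  set b : Fin 8 → ℝ := fun i => u i 1 - u 0 1 - w * (p i 0 - p 0 0) with hb
  have E : ∀ i j, gr.Adj i j →
      (p i 0 - p j 0) * (a i - a j) + (p i 1 - p j 1) * (b i - b j) = 0 := by
    intro i j h
    have := H i j h
    simp only [ha, hb]
    linear_combination this
  have a0 : a 0 = 0 := by simp [ha]
  have b0 : b 0 = 0 := by simp [hb]
  have b1 : b 1 = 0 := by
    simp only [hb, hw]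
    have := hx 1 0 (by decide)
    field_simp
    ring
  have a1 : a 1 = 0 := by
    have h := E 0 1 (Rig_adj 0)
    rw [a0, b0, b1] at h
    have := hx 0 1 (by decide)
    have h2 : (p 0 0 - p 1 0) * a 1 = 0 := by linear_combination -h
    exact (mul_eq_zero.mp h2).resolve_left this
  -- `u_j = t_j J (p_j - p_0)`
  have hT : ∀ j, gr.Adj 0 j → j ≠ 0 → ∃ t : ℝ, a j = -t * (p j 1 - p 0 1) ∧ b j = t * (p j 0 - p 0 0) := by
    intro j hj hj0
    have h := E 0 j hj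
    rw [a0, b0] at h
    have hne := hx j 0 hj0
    refine ⟨b j / (p j 0 - p 0 0), ?_, ?_⟩
    · field_simp
      linear_combination h
    · field_simp
  have hS : ∀ j, gr.Adj 1 j → j ≠ 1 → ∃ t : ℝ, a j = -t * (p j 1 - p 1 1) ∧ b j = t * (p j 0 - p 1 0) := by
    intro j hj hj0
    have h := E 1 j hj
    rw [a1, b1] at h
    have hne := hx j 1 hj0
    refine ⟨b j / (p j 0 - p 1 0), ?_, ?_⟩
    · field_simp
      linear_combination h
    · field_simp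
  obtain ⟨t5, a5, b5⟩ := hT 5 (Rig_adj 1) (by decide)
  obtain ⟨t6, a6, b6⟩ := hT 6 (Rig_adj 2) (by decide)
  obtain ⟨t7, a7, b7⟩ := hT 7 (Rig_adj 3) (by decide)
  obtain ⟨s2, a2, b2⟩ := hS 2 (Rig_adj 4) (by decide)
  obtain ⟨s3, a3, b3⟩ := hS 3 (Rig_adj 5) (by decide)
  obtain ⟨s4, a4, b4⟩ := hS 4 (Rig_adj 6) (by decide)
  have e25 := Rig_edge _ _ _ _ _ _ _ _ _ _ _ _ _ _ (E 2 5 (Rig_adj 7)) a2 b2 a5 b5
  have e27 := Rig_edge _ _ _ _ _ _ _ _ _ _ _ _ _ _ (E 2 7 (Rig_adj 8)) a2 b2 a7 b7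
  have e35 := Rig_edge _ _ _ _ _ _ _ _ _ _ _ _ _ _ (E 3 5 (Rig_adj 9)) a3 b3 a5 b5
  have e36 := Rig_edge _ _ _ _ _ _ _ _ _ _ _ _ _ _ (E 3 6 (Rig_adj 10)) a3 b3 a6 b6
  have e46 := Rig_edge _ _ _ _ _ _ _ _ _ _ _ _ _ _ (E 4 6 (Rig_adj 11)) a4 b4 a6 b6
  have e47 := Rig_edge _ _ _ _ _ _ _ _ _ _ _ _ _ _ (E 4 7 (Rig_adj 12)) a4 b4 a7 b7
  have hgen := Rig_generic hp
  have hAe : ∀ i j, MvPolynomial.aeval (fun x : Fin 8 × Fin 2 => p x.1 x.2) (Rig_A i j) =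
      (p i 1 - p j 1) * (p i 0 - p 1 0) - (p i 0 - p j 0) * (p i 1 - p 1 1) := by
    intro i j
    simp only [Rig_A, map_sub, map_mul, MvPolynomial.aeval_X]
  have hBe : ∀ i j, MvPolynomial.aeval (fun x : Fin 8 × Fin 2 => p x.1 x.2) (Rig_B i j) =
      (p i 1 - p j 1) * (p j 0 - p 0 0) - (p i 0 - p j 0) * (p j 1 - p 0 1) := by
    intro i j
    simp only [Rig_B, map_sub, map_mul, MvPolynomial.aeval_X]
  simp only [Rig_Th, map_mul, map_sub, hAe, hBe] at hgen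
  obtain ⟨zs2, zs3, zs4, zt5, zt6, zt7⟩ :=
    Rig_lin _ _ _ _ _ _ _ _ _ _ _ _ _ _ _ _ _ _ e25 e27 e35 e36 e46 e47 hgen
  have hall : ∀ i, a i = 0 ∧ b i = 0 := by
    intro i
    fin_cases i
    · exact ⟨a0, b0⟩
    · exact ⟨a1, b1⟩
    · exact ⟨by simpa [zs2] using a2, by simpa [zs2] using b2⟩
    · exact ⟨by simpa [zs3] using a3, by simpa [zs3] using b3⟩
    · exact ⟨by simpa [zs4] using a4, by simpa [zs4] using b4⟩
    · exact ⟨by simpa [zt5] using a5, by simpa [zt5] using b5⟩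
    · exact ⟨by simpa [zt6] using a6, by simpa [zt6] using b6⟩
    · exact ⟨by simpa [zt7] using a7, by simpa [zt7] using b7⟩
  intro i j
  rw [Fin.sum_univ_two]
  have hi := hall i
  have hj := hall j
  simp only [ha, hb] at hi hj
  obtain ⟨hi1, hi2⟩ := hi
  obtain ⟨hj1, hj2⟩ := hj
  linear_combination (p i 0 - p j 0) * (hi1 - hj1) + (p i 1 - p j 1) * (hi2 - hj2)

end Pool.Agent.H771R3.TH
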