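import Pool.Agent.H771R3.TH.Stmts

set_option autoImplicit false

/-! Task `Root` (by helper288): persistence of a simple zero. -/

namespace Pool.Agent.H771R3.TH

open Filter Topology Set

theorem Root_zero (N : ℝ → ℝ → ℝ) (hN : Continuous (Function.uncurry N)) (z0 d : ℝ) (hd : d ≠ 0)
    (hder : HasDerivAt (N 0) d z0) (h0 : N 0 z0 = 0) (δ : ℝ) (hδ : 0 < δ) :
    ∀ᶠ e in 𝓝 (0 : ℝ), ∃ z ∈ Icc (z0 - δ) (z0 + δ), N e z = 0 := by
  have hs := hasDerivAt_iff_tendsto_slope.1 hder
  have hpos : ∀ᶠ z in 𝓝[≠] z0, 0 < d * slope (N 0) z0 z := by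
    have h1 : Tendsto (fun z => d * slope (N 0) z0 z) (𝓝[≠] z0) (𝓝 (d * d)) :=
      hs.const_mul d
    exact h1.eventually (lt_mem_nhds (mul_self_pos.2 hd))
  rw [eventually_nhdsWithin_iff, Metric.eventually_nhds_iff] at hpos
  obtain ⟨ε, hε, hp⟩ := hpos
  set h : ℝ := min δ (ε / 2) with hh
  have hh0 : 0 < h := lt_min hδ (by linarith)
  have hh1 : h ≤ δ := min_le_left _ _
  have hh2 : h < ε := lt_of_le_of_lt (min_le_right _ _) (by linarith)
  have hr : 0 < d * N 0 (z0 + h) := by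
    have d1 : dist (z0 + h) z0 < ε := by
      rw [Real.dist_eq, show z0 + h - z0 = h by ring, abs_of_pos hh0]
      exact hh2
    have d2 : z0 + h ∈ ({z0} : Set ℝ)ᶜ := by
      intro h'
      have h'' : z0 + h = z0 := h'
      linarith
    have h1 := hp d1 d2
    rw [slope_def_field, h0, show z0 + h - z0 = h by ring, sub_zero] at h1
    have h2 : d * (N 0 (z0 + h) / h) * h = d * N 0 (z0 + h) := by
      field_simp
    rw [← h2]
    exact mul_pos h1 hh0
  have hl : d * N 0 (z0 - h) < 0 := by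
    have d1 : dist (z0 - h) z0 < ε := by
      rw [Real.dist_eq, show z0 - h - z0 = -h by ring, abs_neg, abs_of_pos hh0]
      exact hh2
    have d2 : z0 - h ∈ ({z0} : Set ℝ)ᶜ := by
      intro h'
      have h'' : z0 - h = z0 := h'
      linarith
    have h1 := hp d1 d2
    rw [slope_def_field, h0, show z0 - h - z0 = -h by ring, sub_zero] at h1
    have h2 : d * (N 0 (z0 - h) / (-h)) * (-h) = d * N 0 (z0 - h) := by
      have hne : h ≠ 0 := hh0.ne'
      field_simp
    rw [← h2]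
    exact mul_neg_of_pos_of_neg h1 (by linarith)
  have hc : ∀ z : ℝ, Continuous fun e => d * N e z := fun z =>
    continuous_const.mul (hN.comp (continuous_id.prodMk continuous_const))
  have e1 : ∀ᶠ e in 𝓝 (0 : ℝ), 0 < d * N e (z0 + h) :=
    (hc (z0 + h)).continuousAt.eventually (lt_mem_nhds hr)
  have e2 : ∀ᶠ e in 𝓝 (0 : ℝ), d * N e (z0 - h) < 0 :=
    (hc (z0 - h)).continuousAt.eventually (gt_mem_nhds hl)
  filter_upwards [e1, e2] with e a1 a2
  have hc2 : Continuous fun z => d * N e z :=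
    continuous_const.mul (hN.comp (continuous_const.prodMk continuous_id))
  obtain ⟨z, hz, hz0⟩ := intermediate_value_Icc (by linarith : z0 - h ≤ z0 + h)
    hc2.continuousOn (⟨a2.le, a1.le⟩ : (0 : ℝ) ∈ Icc (d * N e (z0 - h)) (d * N e (z0 + h)))
  refine ⟨z, ⟨by linarith [hz.1], by linarith [hz.2]⟩, ?_⟩
  rcases mul_eq_zero.1 hz0 with h' | h'
  · exact absurd h' hd
  · exact h'

theorem taskRoot : TaskRoot := by
  classical
  intro N hN z0 d hd hder h0
  have key := Root_zero N hN z0 d hd hder h0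
  have hcl : ∀ e, IsClosed {z : ℝ | N e z = 0} := fun e =>
    isClosed_eq (hN.comp (continuous_const.prodMk continuous_id)) continuous_const
  have hch : ∀ e : ℝ, ∃ w : ℝ, {z : ℝ | N e z = 0}.Nonempty →
      N e w = 0 ∧ ∀ y, N e y = 0 → dist z0 w ≤ dist z0 y := by
    intro e
    by_cases hne : {z : ℝ | N e z = 0}.Nonempty
    · obtain ⟨w, hw, hw2⟩ := (hcl e).exists_infDist_eq_dist hne z0
      exact ⟨w, fun _ => ⟨hw, fun y hy => hw2 ▸ Metric.infDist_le_dist_of_mem hy⟩⟩
    · exact ⟨0, fun h => absurd h hne⟩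
  choose z hz using hch
  refine ⟨z, ?_, ?_⟩
  · rw [Metric.tendsto_nhds]
    intro ε hε
    filter_upwards [key (ε / 2) (by linarith)] with e he
    obtain ⟨y, hy, hy0⟩ := he
    have h1 := (hz e ⟨y, hy0⟩).2 y hy0
    rw [dist_comm]
    refine lt_of_le_of_lt h1 ?_
    rw [Real.dist_eq]
    have h2 : |z0 - y| ≤ ε / 2 := abs_le.2 ⟨by linarith [hy.2], by linarith [hy.1]⟩
    linarith
  · filter_upwards [key 1 one_pos] with e he
    obtain ⟨y, hy, hy0⟩ := he
    exact (hz e ⟨y, hy0⟩).1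

end Pool.Agent.H771R3.TH
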