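import Pool.Agent.H771R3.TH.Stmts
import Pool.Agent.H771R3.TH.T_Lead

/-! Task Sigma (helper879): the symmetry `v ↦ m2 / (l v)` of the norm function. -/

set_option autoImplicit false

namespace Pool.Agent.H771R3.TH.SG

open Polynomial Pool.Agent.H771R3.TH

section
variable {K : Type*} [Field K]

/-- `sg n s f = X ^ n * f (s / X)` for `f` of formal degree `n` -/
noncomputable def sg (n : ℕ) (s : K) (f : K[X]) : K[X] :=
  ∑ k ∈ Finset.range (n + 1), C (f.coeff (n - k) * s ^ (n - k)) * X ^ k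

theorem sg_coeff (n : ℕ) (s : K) (f : K[X]) (k : ℕ) :
    (sg n s f).coeff k = if k ≤ n then f.coeff (n - k) * s ^ (n - k) else 0 := by
  unfold sg
  rw [finsetSum_coeff]
  simp only [coeff_C_mul, coeff_X_pow, mul_ite, mul_one, mul_zero]
  rw [Finset.sum_ite_eq]
  simp only [Finset.mem_range, Nat.lt_succ_iff]

theorem sg_eval (n : ℕ) (s : K) (f : K[X]) (hf : f.natDegree ≤ n) {z : K} (hz : z ≠ 0) :
    (sg n s f).eval z = z ^ n * f.eval (s / z) := by
  unfold sg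
  rw [eval_finsetSum, eval_eq_sum_range' (Nat.lt_succ_of_le hf), Finset.mul_sum,
    ← Finset.sum_range_reflect]
  refine Finset.sum_congr rfl fun k hk => ?_
  rw [Finset.mem_range, Nat.lt_succ_iff] at hk
  have e1 : n + 1 - 1 - k = n - k := by omega
  have e2 : n - (n - k) = k := by omega
  rw [e1, e2, eval_mul, eval_C, eval_pow, eval_X, div_pow]
  have e3 : z ^ n = z ^ (n - k) * z ^ k := by rw [← pow_add]; congr 1; omega
  rw [e3]
  field_simp

/-- block reversal -/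
def tau (m n : ℕ) : Equiv.Perm (Fin (m + n)) :=
  finSumFinEquiv.symm.trans ((Equiv.sumCongr Fin.revPerm Fin.revPerm).trans finSumFinEquiv)

theorem tau_left (m n : ℕ) (j : Fin m) : tau m n (Fin.castAdd n j) = Fin.castAdd n j.rev := by
  simp [tau]

theorem tau_right (m n : ℕ) (j : Fin n) : tau m n (Fin.natAdd m j) = Fin.natAdd m j.rev := by
  simp [tau]

noncomputable def cc (m n : ℕ) (s : K) : Fin (m + n) → K :=
  fun j => j.addCases (fun j₁ : Fin m => (s ^ (j₁.rev : ℕ))⁻¹) (fun j₁ : Fin n => (s ^ (j₁.rev : ℕ))⁻¹)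

theorem syl_entry (m n : ℕ) (s : K) (hs : s ≠ 0) (f g : K[X]) (i j : Fin (m + n)) :
    sylvester (sg m s f) (sg n s g) m n i j =
      s ^ (i.rev : ℕ) * (cc m n s j * sylvester f g m n i.rev (tau m n j)) := by
  have hi := i.2
  induction j using Fin.addCases with
  | left j =>
    have hj := j.2
    rw [tau_left]
    simp only [sylvester, Matrix.of_apply, Fin.addCases_left, cc, Set.mem_Icc, sg_coeff]
    rw [Fin.val_rev, Fin.val_rev]
    by_cases h : (j : ℕ) ≤ i ∧ (i : ℕ) ≤ j + n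
    · have h2 : m - (j + 1 : ℕ) ≤ m + n - (i + 1 : ℕ) ∧ m + n - (i + 1 : ℕ) ≤ m - (j + 1 : ℕ) + n := by omega
      rw [if_pos h, if_pos h2, if_pos (by omega)]
      have e1 : m + n - (i + 1 : ℕ) - (m - (j + 1 : ℕ)) = n - (i - j : ℕ) := by omega
      have e2 : s ^ (m + n - (i + 1 : ℕ)) = s ^ (n - (i - j : ℕ)) * s ^ (m - (j + 1 : ℕ)) := by
        rw [← pow_add]; congr 1; omega
      rw [e1, e2]
      field_simp
    · have h2 : ¬ (m - (j + 1 : ℕ) ≤ m + n - (i + 1 : ℕ) ∧ m + n - (i + 1 : ℕ) ≤ m - (j + 1 : ℕ) + n) := by omega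
      rw [if_neg h, if_neg h2]
      ring
  | right j =>
    have hj := j.2
    rw [tau_right]
    simp only [sylvester, Matrix.of_apply, Fin.addCases_right, cc, Set.mem_Icc, sg_coeff]
    rw [Fin.val_rev, Fin.val_rev]
    by_cases h : (j : ℕ) ≤ i ∧ (i : ℕ) ≤ j + m
    · have h2 : n - (j + 1 : ℕ) ≤ m + n - (i + 1 : ℕ) ∧ m + n - (i + 1 : ℕ) ≤ n - (j + 1 : ℕ) + m := by omega
      rw [if_pos h, if_pos h2, if_pos (by omega)]
      have e1 : m + n - (i + 1 : ℕ) - (n - (j + 1 : ℕ)) = m - (i - j : ℕ) := by omega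
      have e2 : s ^ (m + n - (i + 1 : ℕ)) = s ^ (m - (i - j : ℕ)) * s ^ (n - (j + 1 : ℕ)) := by
        rw [← pow_add]; congr 1; omega
      rw [e1, e2]
      field_simp
    · have h2 : ¬ (n - (j + 1 : ℕ) ≤ m + n - (i + 1 : ℕ) ∧ m + n - (i + 1 : ℕ) ≤ n - (j + 1 : ℕ) + m) := by omega
      rw [if_neg h, if_neg h2]
      ring

theorem exists_kappa (m n : ℕ) (s : K) (hs : s ≠ 0) :
    ∃ κ : K, ∀ f g : K[X], resultant (sg m s f) (sg n s g) m n = κ * resultant f g m n := by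
  refine ⟨(∏ i : Fin (m + n), s ^ (i.rev : ℕ)) * ((∏ j, cc m n s j) *
    ((((Equiv.Perm.sign (Fin.revPerm : Equiv.Perm (Fin (m + n)))) : ℤ) : K) *
    (((Equiv.Perm.sign (tau m n)) : ℤ) : K))), fun f g => ?_⟩
  have h : sylvester (sg m s f) (sg n s g) m n =
      Matrix.of fun i j => s ^ (i.rev : ℕ) * (Matrix.of fun i j => cc m n s j *
        ((sylvester f g m n).submatrix (Fin.revPerm : Equiv.Perm (Fin (m + n))) id).submatrix id (tau m n) i j) i j := by
    ext i j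
    rw [syl_entry m n s hs]
    rfl
  unfold resultant
  rw [h, Matrix.det_mul_column, Matrix.det_mul_row, Matrix.det_permute', Matrix.det_permute]
  ring

theorem res_sg (m n : ℕ) (s : K) (hs : s ≠ 0) (f g : K[X]) :
    resultant (sg m s f) (sg n s g) m n = (-1) ^ (m * n) * s ^ (m * n) * resultant f g m n := by
  obtain ⟨κ, hκ⟩ := exists_kappa (K := K) m n s hs
  have h1 := hκ 1 (X ^ n)
  have e1 : sg m s (1 : K[X]) = X ^ m := by
    ext k
    rw [sg_coeff, coeff_X_pow]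
    by_cases h : k ≤ m
    · rw [if_pos h, coeff_one]
      by_cases h2 : k = m
      · subst h2; simp
      · rw [if_neg (by omega), if_neg h2, zero_mul]
    · rw [if_neg h, if_neg (by omega)]
  have e2 : sg n s (X ^ n : K[X]) = C (s ^ n) := by
    ext k
    rw [sg_coeff, coeff_C, coeff_X_pow]
    by_cases h : k = 0
    · subst h; simp
    · rw [if_neg h]
      by_cases h2 : k ≤ n
      · rw [if_pos h2, if_neg (by omega), zero_mul]
      · rw [if_neg h2]
  rw [e1, e2, resultant_C_right, resultant_one_left, coeff_X_pow, if_pos rfl, one_pow, one_mul,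
    coeff_X_pow, if_pos rfl, one_pow, mul_one] at h1
  have h2 : κ = (-1) ^ (m * n) * s ^ (m * n) := by
    have h3 : (-1 : K) ^ (m * n) * (-1) ^ (m * n) = 1 := by
      rw [← mul_pow]; norm_num
    calc κ = κ * ((-1) ^ (m * n) * (-1) ^ (m * n)) := by rw [h3, mul_one]
      _ = (-1) ^ (m * n) * (κ * (-1) ^ (m * n)) := by ring
      _ = (-1) ^ (m * n) * s ^ (m * n) := by rw [← h1]; ring
  rw [hκ, h2]

end

section
variable {R S : Type*} [CommRing R] [CommRing S]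

/-- `MM` as a polynomial in the last variable -/
noncomputable def Mp (l a m d m' d' v : R) : R[X] :=
  MM (C l) (C a) (C m) (C d) (C m') (C d') (C v) X

theorem M5p_eq (P : Par R) (v : R) : M5p P v = Mp P.l P.a5 P.m2 P.d25 P.m3 P.d35 v := rfl
theorem M7p_eq (P : Par R) (v : R) : M7p P v = Mp P.l P.a7 P.m2 P.d27 P.m4 P.d47 v := rfl
theorem M6p_eq (P : Par R) (z : R) : M6p P z = Mp P.l P.a6 P.m3 P.d36 P.m4 P.d46 z := rfl

theorem Mp_eval (l a m d m' d' v z : R) : (Mp l a m d m' d' v).eval z = MM l a m d m' d' v z := by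
  simp only [Mp, MM, eval_sub, eval_mul, eval_add, eval_pow, eval_neg, eval_C, eval_X, eval_one]

theorem Mp_map (φ : R →+* S) (l a m d m' d' v : R) :
    (Mp l a m d m' d' v).map φ = Mp (φ l) (φ a) (φ m) (φ d) (φ m') (φ d') (φ v) := by
  simp only [Mp, MM, Polynomial.map_sub, Polynomial.map_mul, Polynomial.map_add, Polynomial.map_pow,
    Polynomial.map_neg, map_C, map_X, Polynomial.map_one]

theorem Mp_natDegree (l a m d m' d' v : R) : (Mp l a m d m' d' v).natDegree ≤ 4 := by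
  unfold Mp MM
  compute_degree

theorem Up_eval (P : Par R) (v z : R) : (Up P v).eval z = U P v z := by
  unfold Up U
  rw [← coe_evalRingHom, ← resultant_map_map, M7p_eq, M6p_eq, M7p_eq, M6p_eq, Mp_map, Mp_map]
  have hC : ∀ r : R, (evalRingHom z) (C r) = r := fun r => by rw [coe_evalRingHom, eval_C]
  have hX : (evalRingHom z) (X : R[X]) = z := by rw [coe_evalRingHom, eval_X]
  have e1 : Mp ((evalRingHom z) (P.map C).l) ((evalRingHom z) (P.map C).a7)
      ((evalRingHom z) (P.map C).m2) ((evalRingHom z) (P.map C).d27) ((evalRingHom z) (P.map C).m4)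
      ((evalRingHom z) (P.map C).d47) ((evalRingHom z) (C v)) =
        Mp P.l P.a7 P.m2 P.d27 P.m4 P.d47 v := by
    change Mp ((evalRingHom z) (C P.l)) ((evalRingHom z) (C P.a7))
      ((evalRingHom z) (C P.m2)) ((evalRingHom z) (C P.d27)) ((evalRingHom z) (C P.m4))
      ((evalRingHom z) (C P.d47)) ((evalRingHom z) (C v)) = _
    rw [hC, hC, hC, hC, hC, hC, hC]
  have e2 : Mp ((evalRingHom z) (P.map C).l) ((evalRingHom z) (P.map C).a6)
      ((evalRingHom z) (P.map C).m3) ((evalRingHom z) (P.map C).d36) ((evalRingHom z) (P.map C).m4)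
      ((evalRingHom z) (P.map C).d46) ((evalRingHom z) X) =
        Mp P.l P.a6 P.m3 P.d36 P.m4 P.d46 z := by
    change Mp ((evalRingHom z) (C P.l)) ((evalRingHom z) (C P.a6))
      ((evalRingHom z) (C P.m3)) ((evalRingHom z) (C P.d36)) ((evalRingHom z) (C P.m4))
      ((evalRingHom z) (C P.d46)) ((evalRingHom z) X) = _
    rw [hC, hC, hC, hC, hC, hC, hX]
  rw [e1, e2]

end

section
variable {K : Type*} [Field K] [Infinite K]

theorem eq_of_eval (f g : K[X]) (h : ∀ z, z ≠ 0 → f.eval z = g.eval z) : f = g := by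
  refine Polynomial.eq_of_infinite_eval_eq f g ?_
  refine Set.Infinite.mono (s := {z | z ≠ 0}) (fun z hz => h z hz) ?_
  exact Set.Finite.infinite_compl (Set.finite_singleton (0 : K))

omit [Infinite K] in
theorem MM_sym (l a m d m' d' v z : K) (hl : l ≠ 0) (hm : m ≠ 0) (hm' : m' ≠ 0) (hv : v ≠ 0)
    (hz : z ≠ 0) : MM l a m d m' d' (m / (l * v)) z =
      m ^ 2 / (m' ^ 2 * v ^ 4) * (z ^ 4 * MM l a m d m' d' v (m' / l / z)) := by
  unfold MM
  field_simp
  ring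

theorem Mp_sym (l a m d m' d' v : K) (hl : l ≠ 0) (hm : m ≠ 0) (hm' : m' ≠ 0) (hv : v ≠ 0) :
    Mp l a m d m' d' (m / (l * v)) = C (m ^ 2 / (m' ^ 2 * v ^ 4)) * sg 4 (m' / l) (Mp l a m d m' d' v) := by
  refine eq_of_eval _ _ fun z hz => ?_
  rw [eval_mul, eval_C, sg_eval 4 _ _ (Mp_natDegree _ _ _ _ _ _ _) hz, Mp_eval, Mp_eval,
    MM_sym l a m d m' d' v z hl hm hm' hv hz]

theorem U_sym (P : Par K) (hl : P.l ≠ 0) (h2 : P.m2 ≠ 0) (h3 : P.m3 ≠ 0) (h4 : P.m4 ≠ 0) (v z : K)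
    (hv : v ≠ 0) (hz : z ≠ 0) : U P (P.m2 / (P.l * v)) z =
      P.m2 ^ 8 / (P.m3 ^ 8 * v ^ 16) * (z ^ 16 * U P v (P.m3 / P.l / z)) := by
  have hy : P.m3 / (P.l * z) ≠ 0 := div_ne_zero h3 (mul_ne_zero hl hz)
  have hs : P.m4 / P.l ≠ 0 := div_ne_zero h4 hl
  have e1 : z = P.m3 / (P.l * (P.m3 / (P.l * z))) := by field_simp
  have e2 : P.m3 / P.l / z = P.m3 / (P.l * z) := by field_simp
  unfold U
  rw [M7p_eq, Mp_sym _ _ _ _ _ _ _ hl h2 h4 hv]
  have e3 : M6p P z = C (P.m3 ^ 2 / (P.m4 ^ 2 * (P.m3 / (P.l * z)) ^ 4)) *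
      sg 4 (P.m4 / P.l) (Mp P.l P.a6 P.m3 P.d36 P.m4 P.d46 (P.m3 / (P.l * z))) := by
    rw [M6p_eq]
    conv_lhs => rw [e1]
    exact Mp_sym _ _ _ _ _ _ _ hl h3 h4 hy
  have h16 : (-1 : K) ^ (4 * 4) * (P.m4 / P.l) ^ (4 * 4) = P.m4 ^ 16 / P.l ^ 16 := by
    norm_num [div_pow]
  rw [e3, resultant_C_mul_left, resultant_C_mul_right, res_sg 4 4 _ hs, e2, M7p_eq, M6p_eq, h16]
  field_simp

theorem Up_sym (P : Par K) (hd : ∀ v, (Up P v).natDegree ≤ 16) (hl : P.l ≠ 0) (h2 : P.m2 ≠ 0)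
    (h3 : P.m3 ≠ 0) (h4 : P.m4 ≠ 0) (v : K) (hv : v ≠ 0) : Up P (P.m2 / (P.l * v)) =
      C (P.m2 ^ 8 / (P.m3 ^ 8 * v ^ 16)) * sg 16 (P.m3 / P.l) (Up P v) := by
  refine eq_of_eval _ _ fun z hz => ?_
  rw [eval_mul, eval_C, sg_eval 16 _ _ (hd v) hz, Up_eval, Up_eval,
    U_sym P hl h2 h3 h4 v z hv hz]

theorem G_sym (P : Par K) (hd : ∀ v, (Up P v).natDegree ≤ 16) (hl : P.l ≠ 0) (h2 : P.m2 ≠ 0)
    (h3 : P.m3 ≠ 0) (h4 : P.m4 ≠ 0) (v : K) (hv : v ≠ 0) :
    P.l ^ 64 * v ^ 128 * G P (P.m2 / (P.l * v)) = P.m2 ^ 64 * G P v := by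
  have hs : P.m3 / P.l ≠ 0 := div_ne_zero h3 hl
  have h64 : (-1 : K) ^ (4 * 16) * (P.m3 / P.l) ^ (4 * 16) = P.m3 ^ 64 / P.l ^ 64 := by
    norm_num [div_pow]
  unfold G
  rw [Up_sym P hd hl h2 h3 h4 v hv, M5p_eq, Mp_sym _ _ _ _ _ _ _ hl h2 h3 hv,
    resultant_C_mul_left, resultant_C_mul_right, res_sg 4 16 _ hs, M5p_eq, h64]
  field_simp

end

end Pool.Agent.H771R3.TH.SG

namespace Pool.Agent.H771R3.TH

theorem taskSigma : TaskSigma := by
  intro P hl h2 h3 h4 v hv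
  exact SG.G_sym P (fun v => (taskLead ℝ P v).2.2.2.2.1) hl h2 h3 h4 v hv

end Pool.Agent.H771R3.TH
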