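import Pool.Agent.H771R3.TH.Stmts

set_option autoImplicit false

namespace Pool.Agent.H771R3.TH

open scoped IntermediateField.algebraAdjoinAdjoin in
theorem taskTr : TaskTr := by
  intro a s ha hmem
  have hint : Function.Injective (algebraMap (Algebra.adjoin ℚ (Set.range s))
      (IntermediateField.adjoin ℚ (Set.range s))) := IsFractionRing.injective _ _
  have hfs : FaithfulSMul (Algebra.adjoin ℚ (Set.range s))
      (IntermediateField.adjoin ℚ (Set.range s)) :=
    (faithfulSMul_iff_algebraMap_injective _ _).2 hint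
  have h1 : Algebra.trdeg ℚ (Algebra.adjoin ℚ (Set.range s)) ≤ 12 := by
    have hr : (MvPolynomial.aeval s : MvPolynomial (Fin 12) ℚ →ₐ[ℚ] ℂ).range =
        Algebra.adjoin ℚ (Set.range s) := (Algebra.adjoin_range_eq_range_aeval ℚ s).symm
    rw [← hr]
    refine (trdeg_le_of_surjective
      (MvPolynomial.aeval s : MvPolynomial (Fin 12) ℚ →ₐ[ℚ] ℂ).rangeRestrict
      (AlgHom.rangeRestrict_surjective _)).trans ?_
    rw [MvPolynomial.trdeg_of_isDomain]
    simp
  have h2 : Algebra.trdeg (Algebra.adjoin ℚ (Set.range s))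
      (IntermediateField.adjoin ℚ (Set.range s)) = 0 := trdeg_eq_zero
  have h3 := trdeg_add_eq (R := ℚ) (S := Algebra.adjoin ℚ (Set.range s))
    (A := IntermediateField.adjoin ℚ (Set.range s))
  have h4 : AlgebraicIndependent ℚ
      (fun i => (⟨a i, hmem i⟩ : IntermediateField.adjoin ℚ (Set.range s))) := by
    have := (AlgHom.algebraicIndependent_iff (x := fun i => (⟨a i, hmem i⟩ : IntermediateField.adjoin ℚ (Set.range s)))
      (IntermediateField.adjoin ℚ (Set.range s)).val
      (IntermediateField.adjoin ℚ (Set.range s)).val.injective)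
    exact this.1 ha
  have h5 := h4.cardinalMk_le_trdeg
  rw [← h3, h2, add_zero] at h5
  have h6 := h5.trans h1
  rw [Cardinal.mk_fin] at h6
  have h7 : (13 : ℕ) ≤ 12 := by exact_mod_cast h6
  omega

end Pool.Agent.H771R3.TH
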