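import Pool.Agent.H771R3.TH.Stmts

set_option autoImplicit false

namespace Pool.Agent.H771R3.TH

theorem taskTri : TaskTri := by
  intro q
  simp only [sq, Fin.sum_univ_two]
  nlinarith [sq_nonneg ((q 0 0 - q 1 0) * (q 1 1 - q 2 1) - (q 0 1 - q 1 1) * (q 1 0 - q 2 0))]

end Pool.Agent.H771R3.TH
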